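import Pool.Agent.H345R2.A2.Lin
import Pool.Agent.H332B.Low

/-!
# The pair sum of a dyadic block under RH, two-sided
-/

open Complex Filter Topology Set MeasureTheory
open scoped BigOperators

namespace Pool.Agent.TH873.EW

open H370 H370.AS H370.A2 H295SI
open H613SI (conv_cont conv_le)

/-- main term of the block -/
noncomputable def XV (V : ℝ) : ℝ := (V - 2) * Real.log V / (2 * Real.pi)

theorem QE_blk {R : ℝ → ℝ} (hR : Conv R) (η0 lam : ℝ) (hη0 : 0 < η0) (hη1 : η0 < 1)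
    (hlam : 0 < lam) (hgap : 2 * lam < 1 + η0) : ∃ κ : ℝ, 0 < κ ∧
    ∃ T0 : ℝ, 10 ≤ T0 ∧ ∀ T : ℝ, T0 ≤ T → ∀ w : ℝ, 0 ≤ w → w ≤ T / 4 →
      ∀ a : ℕ → ℂ, (∀ n, ‖a n‖ ≤ ArithmeticFunction.vonMangoldt n) → ∀ Λ : ℝ,
      ∫ x in (T + 1 - w)..(2 * T - 1 + w), QE R a Λ ⌊T ^ (lam + κ)⌋₊ ((T - 2) * T ^ (-κ)) x ≤
        T - 2 := by
  obtain ⟨κ0, hκ0, hE⟩ := EE_small η0 lam hη0 hη1 hlam hgap
  obtain ⟨T1, hT1, hE⟩ := hE κ0 hκ0 le_rfl
  have ev : ∀ᶠ T : ℝ in atTop, 2 * R 0 ≤ T ^ (2 * κ0) :=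
    (tendsto_rpow_atTop (by positivity)).eventually_ge_atTop _
  have ev2 : ∀ᶠ T : ℝ in atTop, 2 ≤ T ^ (1 - η0) :=
    (tendsto_rpow_atTop (by linarith)).eventually_ge_atTop _
  obtain ⟨T2, hT2⟩ := (ev.and ev2).exists_forall_of_atTop
  refine ⟨κ0, hκ0, max T1 T2, hT1.trans (le_max_left _ _), fun T hT w hw0 hw1 a ha Λ => ?_⟩
  have hTT1 : T1 ≤ T := (le_max_left _ _).trans hT
  obtain ⟨e1, e2⟩ := hT2 T ((le_max_right _ _).trans hT)
  have hT0 : 0 < T := by linarith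
  have hT10 : 10 ≤ T := hT1.trans hTT1
  have hH : T ^ η0 ≤ T - 2 := by
    have h1 : T = T ^ η0 * T ^ (1 - η0) := by
      rw [← Real.rpow_add hT0, show η0 + (1 - η0) = 1 by ring, Real.rpow_one]
    have h2 : 0 < T ^ η0 := Real.rpow_pos_of_pos hT0 _
    have h3 : T ^ η0 * 2 ≤ T := by
      calc T ^ η0 * 2 ≤ T ^ η0 * T ^ (1 - η0) := by gcongr
        _ = T := h1.symm
    linarith
  have hR0 : 0 ≤ R 0 := hR.nonneg 0
  set X : ℕ := ⌊T ^ (lam + κ0)⌋₊ with hX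
  set σ : ℝ := (T - 2) * T ^ (-κ0) with hσ
  have hM : ∫ x in (0 : ℝ)..(4 * T), QE R a Λ X σ x ≤ R 0 * T ^ (1 - 2 * κ0) := by
    rw [QE_swap hR]
    have h1 : ∀ α ∈ Set.Icc (0 : ℝ) 1, R α * ∫ x in (0 : ℝ)..(4 * T),
        ‖EE (bb a (Λ * α)) X σ x‖ ^ 2 ≤ R 0 * T ^ (1 - 2 * κ0) := by
      intro α hα
      have h2 := hE T hTT1 (T - 2) hH a ha (Λ * α)
      have h3 := conv_le hR α hα.1
      have h4 : 0 ≤ ∫ x in (0 : ℝ)..(4 * T), ‖EE (bb a (Λ * α)) X σ x‖ ^ 2 :=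
        intervalIntegral.integral_nonneg (by linarith) fun x _ => by positivity
      gcongr
    have h5 : Continuous fun α : ℝ => R α * ∫ x in (0 : ℝ)..(4 * T),
        ‖EE (bb a (Λ * α)) X σ x‖ ^ 2 := by
      apply (conv_cont hR).mul
      have h6 : Continuous (Function.uncurry fun α x : ℝ => ‖EE (bb a (Λ * α)) X σ x‖ ^ 2) :=
        (EE_cont2 a Λ X σ).norm.pow 2
      exact intervalIntegral.continuous_parametric_intervalIntegral_of_continuous' h6 _ _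
    calc _ ≤ ∫ α in (0 : ℝ)..1, R 0 * T ^ (1 - 2 * κ0) :=
          intervalIntegral.integral_mono_on zero_le_one (h5.intervalIntegrable _ _)
            (continuous_const.intervalIntegrable _ _) h1
      _ = _ := by simp
  have hc := QE_cont hR a Λ X σ
  have h1 : ∫ x in (T + 1 - w)..(2 * T - 1 + w), QE R a Λ X σ x ≤
      ∫ x in (0 : ℝ)..(4 * T), QE R a Λ X σ x := by
    have hA : 0 ≤ T + 1 - w := by linarith
    have hAB : T + 1 - w ≤ 2 * T - 1 + w := by linarith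
    have hB : 2 * T - 1 + w ≤ 4 * T := by linarith
    have hnn := QE_nonneg hR a Λ X σ
    have i1 := intervalIntegral.integral_add_adjacent_intervals (a := (0 : ℝ)) (b := T + 1 - w)
      (c := 2 * T - 1 + w) (hc.intervalIntegrable (μ := volume) _ _) (hc.intervalIntegrable _ _)
    have i2 := intervalIntegral.integral_add_adjacent_intervals (a := (0 : ℝ)) (b := 2 * T - 1 + w)
      (c := 4 * T) (hc.intervalIntegrable (μ := volume) _ _) (hc.intervalIntegrable _ _)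
    have j1 : 0 ≤ ∫ x in (0 : ℝ)..(T + 1 - w), QE R a Λ X σ x :=
      intervalIntegral.integral_nonneg hA fun x _ => hnn x
    have j2 : 0 ≤ ∫ x in (2 * T - 1 + w)..(4 * T), QE R a Λ X σ x :=
      intervalIntegral.integral_nonneg hB fun x _ => hnn x
    linarith
  have h2 : R 0 * T ^ (1 - 2 * κ0) ≤ T - 2 := by
    have h3 : T = T ^ (2 * κ0) * T ^ (1 - 2 * κ0) := by
      rw [← Real.rpow_add hT0, show 2 * κ0 + (1 - 2 * κ0) = 1 by ring, Real.rpow_one]
    have h4 : 0 < T ^ (1 - 2 * κ0) := Real.rpow_pos_of_pos hT0 _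
    have h5 : 2 * R 0 * T ^ (1 - 2 * κ0) ≤ T := by
      calc 2 * R 0 * T ^ (1 - 2 * κ0) ≤ T ^ (2 * κ0) * T ^ (1 - 2 * κ0) := by gcongr
        _ = T := h3.symm
    linarith
  linarith

theorem blk_two (hRH : RiemannHypothesis) {R : ℝ → ℝ} (hR : Conv R) {μ ε : ℝ} (hμ : 0 < μ)
    (hμ1 : μ < 1) (hε : 0 < ε) : ∃ V0 : ℝ, 10 ≤ V0 ∧ ∀ V : ℝ, V0 ≤ V →
    |(NN riemannZeta (V + 1) (2 * V - 1) : ℝ) - XV V| ≤ ε * XV V ∧
    |PS R riemannZeta (V + 1) (2 * V - 1) (μ * Real.log V) - XV V * cR R μ| ≤ ε * XV V := by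
  set lam : ℝ := (1 + μ) / 2 with hlam
  have hlam0 : 0 < lam := by rw [hlam]; linarith
  have hlam1 : μ < lam := by rw [hlam]; linarith
  have hlamle : lam ≤ 1 := by rw [hlam]; linarith
  obtain ⟨κ, hκ, T1, hT1, hexc⟩ := QE_blk hR ((1 + μ) / 2) lam (by linarith) (by linarith) hlam0
    (by rw [hlam]; linarith)
  obtain ⟨θ, hθ0, hθ1, T2, hT2, hm⟩ := pair_two hR good_zeta lamC_norm
    (fun s hs _ => ld_zeta s hs) (τ := 0) le_rfl (1 / 2) μ lam (κ / 2) ε (by norm_num)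
    (by norm_num) hμ hlam1 hlamle (by norm_num) (by positivity) hε
  have ev1 : ∀ᶠ T : ℝ in atTop, 2 ≤ T ^ (1 / 2 : ℝ) :=
    (tendsto_rpow_atTop (by norm_num)).eventually_ge_atTop _
  have ev3 : ∀ᶠ T : ℝ in atTop,
      Real.sqrt 2 * Real.exp (-((θ / 4) ^ 2 * T ^ (2 * κ)) / 4) ≤ θ / (1 + θ) := by
    have h1 : Tendsto (fun T : ℝ => Real.sqrt 2 * Real.exp (-((θ / 4) ^ 2 * T ^ (2 * κ)) / 4))
        atTop (𝓝 (Real.sqrt 2 * 0)) := by
      apply Tendsto.const_mul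
      apply Real.tendsto_exp_atBot.comp
      have h2 : Tendsto (fun T : ℝ => (θ / 4) ^ 2 / 4 * T ^ (2 * κ)) atTop atTop :=
        (tendsto_rpow_atTop (by positivity)).const_mul_atTop (by positivity)
      refine (tendsto_neg_atTop_atBot.comp h2).congr fun T => ?_
      simp only [Function.comp]
      ring
    rw [mul_zero] at h1
    exact h1.eventually (ge_mem_nhds (by positivity))
  have ev6 : ∀ᶠ T : ℝ in atTop,
      (4 * (lam + κ) + 1) * Real.log T ≤ (θ / 4) ^ 2 / 4 * T ^ (2 * κ) := by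
    have hpos : 0 < 4 * (lam + κ) + 1 := by positivity
    have h1 := (isLittleO_log_rpow_atTop (show (0 : ℝ) < 2 * κ by positivity)).bound
      (show (0 : ℝ) < (θ / 4) ^ 2 / 4 / (4 * (lam + κ) + 1) by positivity)
    filter_upwards [h1, eventually_ge_atTop 1] with T hT hT1
    have hl : 0 ≤ Real.log T := Real.log_nonneg hT1
    rw [Real.norm_of_nonneg hl, Real.norm_of_nonneg (by positivity)] at hT
    calc (4 * (lam + κ) + 1) * Real.log T ≤ (4 * (lam + κ) + 1) *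
        ((θ / 4) ^ 2 / 4 / (4 * (lam + κ) + 1) * T ^ (2 * κ)) := by gcongr
      _ = _ := by field_simp
  obtain ⟨T4, hT4⟩ := ((ev1.and ev3).and ev6).exists_forall_of_atTop
  refine ⟨max (max 10 T1) (max T2 T4), (le_max_left _ _).trans (le_max_left _ _), fun T hT => ?_⟩
  have hT10 : 10 ≤ T := ((le_max_left _ _).trans (le_max_left _ _)).trans hT
  have hTT1 : T1 ≤ T := ((le_max_right _ _).trans (le_max_left _ _)).trans hT
  have hTT2 : T2 ≤ T := ((le_max_left _ _).trans (le_max_right _ _)).trans hT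
  obtain ⟨⟨e1, e3⟩, e6⟩ := hT4 T (((le_max_right _ _).trans (le_max_right _ _)).trans hT)
  have hTpos : 0 < T := by linarith
  have hlogT : 0 < Real.log T := Real.log_pos (by linarith)
  set H : ℝ := T - 2 with hH
  have hHpos : 0 < H := by rw [hH]; linarith
  set X : ℕ := ⌊T ^ (lam + κ)⌋₊ with hX
  set σ : ℝ := H * T ^ (-κ) with hσ
  have hTκ : 0 < T ^ (-κ) := Real.rpow_pos_of_pos hTpos _
  have hσ0 : 0 < σ := by positivity
  set w : ℝ := θ / 4 * H with hw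
  have hw0 : 0 ≤ w := by positivity
  have hw2 : w ≤ T / 4 := by
    have : θ / 4 * H ≤ 1 / 4 * T := by
      apply mul_le_mul (by linarith) (by rw [hH]; linarith) hHpos.le (by norm_num)
    rw [hw]; linarith
  have hexpo : -w ^ 2 / (4 * σ ^ 2) = -((θ / 4) ^ 2 * T ^ (2 * κ)) / 4 := by
    have h1 : T ^ (2 * κ) * (T ^ (-κ)) ^ 2 = 1 := by
      rw [← Real.rpow_natCast, ← Real.rpow_mul hTpos.le, ← Real.rpow_add hTpos]
      have : 2 * κ + -κ * ((2 : ℕ) : ℝ) = 0 := by push_cast; ring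
      rw [this, Real.rpow_zero]
    rw [hw, hσ, div_eq_div_iff (by positivity) (by norm_num)]
    have h2 : ((θ / 4) ^ 2 * T ^ (2 * κ)) * (4 * (H * T ^ (-κ)) ^ 2) =
        (θ / 4) ^ 2 * 4 * H ^ 2 * (T ^ (2 * κ) * (T ^ (-κ)) ^ 2) := by ring
    linear_combination h2 + (θ / 4) ^ 2 * 4 * H ^ 2 * h1
  have hmass : Real.sqrt 2 * Real.exp (-w ^ 2 / (4 * σ ^ 2)) ≤ θ / (1 + θ) := by
    rw [hexpo]; exact e3
  have hmass2 : (X : ℝ) ^ 4 * (Real.sqrt 2 * Real.exp (-w ^ 2 / (4 * σ ^ 2))) ≤ 1 := by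
    rw [hexpo]
    have h1 : (X : ℝ) ≤ T ^ (lam + κ) := Nat.floor_le (by positivity)
    have h2 : (X : ℝ) ^ 4 ≤ Real.exp (4 * (lam + κ) * Real.log T) := by
      calc (X : ℝ) ^ 4 ≤ (T ^ (lam + κ)) ^ 4 := by gcongr
        _ = Real.exp (4 * (lam + κ) * Real.log T) := by
          rw [Real.rpow_def_of_pos hTpos, ← Real.exp_nat_mul]
          congr 1
          push_cast; ring
    have h3 : Real.sqrt 2 ≤ Real.exp (Real.log T) := by
      rw [Real.exp_log hTpos]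
      have : Real.sqrt 2 ≤ 2 := by
        rw [Real.sqrt_le_left (by norm_num)]; norm_num
      linarith
    calc (X : ℝ) ^ 4 * (Real.sqrt 2 * Real.exp (-((θ / 4) ^ 2 * T ^ (2 * κ)) / 4)) ≤
        Real.exp (4 * (lam + κ) * Real.log T) * (Real.exp (Real.log T) *
          Real.exp (-((θ / 4) ^ 2 * T ^ (2 * κ)) / 4)) := by gcongr
      _ = Real.exp (4 * (lam + κ) * Real.log T + (Real.log T +
          -((θ / 4) ^ 2 * T ^ (2 * κ)) / 4)) := by rw [Real.exp_add, Real.exp_add]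
      _ ≤ 1 := by
        rw [Real.exp_le_one_iff]
        linarith
  have hadd : 2 * T - 1 - (T + 1) = H := by rw [hH]; ring
  have h := hm T hTT2 (Real.log T) (by rw [sub_self, abs_zero]; exact zero_le_one)
    (T + 1) (2 * T - 1) le_rfl le_rfl ?_ ?_ σ w X hσ0 hw0 ?_ hmass hmass2 ?_ ?_
  · rw [hadd] at h
    exact h
  · rw [hadd]
    have h1 : T = T ^ (1 / 2 : ℝ) * T ^ (1 / 2 : ℝ) := by
      rw [← Real.rpow_add hTpos]; norm_num
    have h2 : T ^ (1 / 2 : ℝ) * 2 ≤ T := by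
      calc T ^ (1 / 2 : ℝ) * 2 ≤ T ^ (1 / 2 : ℝ) * T ^ (1 / 2 : ℝ) := by gcongr
        _ = T := h1.symm
    rw [hH]; linarith
  · intro s hs _
    obtain ⟨h1, h2, h3, h4, h5⟩ := hs
    have : s.re = 1 / 2 := by
      apply hRH s h5
      · rintro ⟨n, hn⟩
        have : s.re = -2 * (n + 1) := by rw [hn]; simp
        have hn0 : (0 : ℝ) ≤ n := Nat.cast_nonneg n
        linarith
      · intro h6
        rw [h6] at h2
        simp at h2
    linarith
  · rw [hadd]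
  · have h1 : T ^ (lam + κ) ≤ (X : ℝ) + 1 := (Nat.lt_floor_add_one _).le
    have h2 : (lam + κ) * Real.log T ≤ Real.log (X + 1) := by
      rw [← Real.log_rpow hTpos]
      exact Real.log_le_log (Real.rpow_pos_of_pos hTpos _) h1
    nlinarith
  · rw [hadd]
    exact hexc T hTT1 w hw0 hw2 lamC (fun n => (lamC_norm n).le) (μ * Real.log T)

end Pool.Agent.TH873.EW
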