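import Pool.Agent.TH873.EW.ClassA

/-!
# The kernel `cos² (π y) (Λ - 4 y²) / (1 - 4 y²)²` and its transform
-/

open Filter Topology Set MeasureTheory

namespace Pool.Agent.TH873.EW

/-- first coefficient -/
noncomputable def aA (Λ : ℝ) : ℝ := (Λ - 1) * Real.pi ^ 2 / 8
/-- second coefficient -/
noncomputable def bB (Λ : ℝ) : ℝ := (Λ + 1) * Real.pi / 8
/-- the transform of `cos² (π y) (Λ - 4 y²) / (1 - 4 y²)²` -/
noncomputable def bh (Λ t : ℝ) : ℝ :=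
  aA Λ * ((1 - t) * Real.cos (Real.pi * t)) + bB Λ * Real.sin (Real.pi * t)
/-- its derivative -/
noncomputable def bhd (Λ t : ℝ) : ℝ :=
  Real.pi ^ 2 / 4 * Real.cos (Real.pi * t) - Real.pi * aA Λ * ((1 - t) * Real.sin (Real.pi * t))
/-- its second derivative -/
noncomputable def bhdd (Λ t : ℝ) : ℝ :=
  Real.pi ^ 3 / 8 * ((Λ - 3) * Real.sin (Real.pi * t) -
    (Λ - 1) * Real.pi * ((1 - t) * Real.cos (Real.pi * t)))

lemma bh_has (Λ t : ℝ) : HasDerivAt (bh Λ) (bhd Λ t) t := by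
  have h1 : HasDerivAt (fun t : ℝ => Real.pi * t) Real.pi t := by
    simpa using (hasDerivAt_id t).const_mul Real.pi
  have h0 : HasDerivAt (fun t : ℝ => 1 - t) (-1) t := by
    simpa using (hasDerivAt_id t).const_sub 1
  have h2 := ((h0.mul h1.cos).const_mul (aA Λ)).add (h1.sin.const_mul (bB Λ))
  refine h2.congr_deriv ?_
  unfold bhd aA bB
  ring

lemma bhd_has (Λ t : ℝ) : HasDerivAt (bhd Λ) (bhdd Λ t) t := by
  have h1 : HasDerivAt (fun t : ℝ => Real.pi * t) Real.pi t := by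
    simpa using (hasDerivAt_id t).const_mul Real.pi
  have h0 : HasDerivAt (fun t : ℝ => 1 - t) (-1) t := by
    simpa using (hasDerivAt_id t).const_sub 1
  have h2 := (h1.cos.const_mul (Real.pi ^ 2 / 4)).sub
    ((h0.mul h1.sin).const_mul (Real.pi * aA Λ))
  refine h2.congr_deriv ?_
  unfold bhdd aA
  ring

lemma bh_cd (Λ : ℝ) : ContDiff ℝ 1 (bh Λ) := by unfold bh; fun_prop
lemma bh_cont (Λ : ℝ) : Continuous (bh Λ) := (bh_cd Λ).continuous
lemma bhd_cont (Λ : ℝ) : Continuous (bhd Λ) := by unfold bhd; fun_prop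
lemma bhdd_cont (Λ : ℝ) : Continuous (bhdd Λ) := by unfold bhdd; fun_prop

lemma hi_half : HI (1 / 2) := ⟨1, one_pos, by norm_num⟩

lemma bh_eq (Λ t : ℝ) : bh Λ t = (Λ - 1) / 16 * g2 (1 / 2) t + 1 / 4 * g1 (1 / 2) t := by
  unfold bh g2 g1 aA bB
  have e : 2 * Real.pi * (1 / 2) * t = Real.pi * t := by ring
  rw [e]
  ring

lemma ct_bh {Λ x : ℝ} (hx : (1 / 2 : ℝ) ^ 2 - x ^ 2 ≠ 0) :
    ct (bh Λ) x = SS (1 / 2) x * (Λ - 4 * x ^ 2) / (16 * ((1 / 2 : ℝ) ^ 2 - x ^ 2) ^ 2) := by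
  have e : bh Λ = fun t => (fun t => (Λ - 1) / 16 * g2 (1 / 2) t) t +
      (fun t => 1 / 4 * g1 (1 / 2) t) t := by
    funext t
    exact bh_eq Λ t
  have h1 := cont_g1 (1 / 2)
  have h2 := cont_g2 (1 / 2)
  rw [e, ct_add (by fun_prop) (by fun_prop), ct_smul, ct_smul, ct_g2 hi_half hx, ct_g1 hi_half hx]
  obtain ⟨D, hD⟩ : ∃ D, D = (1 / 2 : ℝ) ^ 2 - x ^ 2 := ⟨_, rfl⟩
  have hx2 : x ^ 2 = 1 / 4 - D := by rw [hD]; ring
  rw [← hD] at hx ⊢
  rw [hx2]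
  field_simp
  ring

lemma ct_bh_nonpos {Λ x : ℝ} (hΛ : 1 < Λ) (hx : Λ ≤ 4 * x ^ 2) : ct (bh Λ) x ≤ 0 := by
  rw [ct_bh (by nlinarith)]
  apply div_nonpos_of_nonpos_of_nonneg _ (by positivity)
  exact mul_nonpos_of_nonneg_of_nonpos (SS_nonneg _ _) (by linarith)

lemma aA_nonneg {Λ : ℝ} (hΛ : 1 ≤ Λ) : 0 ≤ aA Λ := by
  unfold aA
  have : 0 ≤ Λ - 1 := by linarith
  positivity

lemma bB_pos {Λ : ℝ} (hΛ : 1 ≤ Λ) : 0 < bB Λ := by
  unfold bB
  have := Real.pi_pos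
  positivity

lemma bh_bound {Λ t : ℝ} (hΛ : 1 ≤ Λ) (h0 : 0 ≤ t) (h1 : t ≤ 1) : |bh Λ t| ≤ aA Λ + bB Λ := by
  have ha := aA_nonneg hΛ
  have hb := bB_pos hΛ
  unfold bh
  have h2 : |(1 - t) * Real.cos (Real.pi * t)| ≤ 1 := by
    rw [abs_mul, abs_of_nonneg (by linarith : 0 ≤ 1 - t)]
    have := Real.abs_cos_le_one (Real.pi * t)
    have := abs_nonneg (Real.cos (Real.pi * t))
    nlinarith
  calc _ ≤ |aA Λ * ((1 - t) * Real.cos (Real.pi * t))| + |bB Λ * Real.sin (Real.pi * t)| :=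
        abs_add_le _ _
    _ = aA Λ * |(1 - t) * Real.cos (Real.pi * t)| + bB Λ * |Real.sin (Real.pi * t)| := by
        rw [abs_mul (aA Λ), abs_mul (bB Λ), abs_of_nonneg ha, abs_of_pos hb]
    _ ≤ aA Λ * 1 + bB Λ * 1 := by
        have := Real.abs_sin_le_one (Real.pi * t)
        gcongr
    _ = _ := by ring

lemma ct_bh_le {Λ : ℝ} (hΛ : 1 ≤ Λ) (x : ℝ) : ct (bh Λ) x ≤ 2 * (aA Λ + bB Λ) := by
  unfold ct
  have h2 : ‖∫ t in (0 : ℝ)..1, bh Λ t * Real.cos (2 * Real.pi * x * t)‖ ≤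
      (aA Λ + bB Λ) * |1 - 0| := by
    apply intervalIntegral.norm_integral_le_of_norm_le_const
    intro t ht
    rw [Set.uIoc_of_le zero_le_one] at ht
    rw [norm_mul]
    have h3 := bh_bound hΛ ht.1.le ht.2
    have h4 : ‖Real.cos (2 * Real.pi * x * t)‖ ≤ 1 := by
      rw [Real.norm_eq_abs]; exact Real.abs_cos_le_one _
    have h5 : 0 ≤ aA Λ + bB Λ := add_nonneg (aA_nonneg hΛ) (bB_pos hΛ).le
    calc ‖bh Λ t‖ * ‖Real.cos (2 * Real.pi * x * t)‖ ≤ (aA Λ + bB Λ) * 1 := by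
          rw [Real.norm_eq_abs]; gcongr
      _ = _ := mul_one _
  rw [sub_zero, abs_one, mul_one] at h2
  have h5 := (Real.le_norm_self _).trans h2
  linarith

lemma bh_one (Λ : ℝ) : bh Λ 1 = 0 := by unfold bh; simp

lemma bh_zero (Λ : ℝ) : bh Λ 0 = aA Λ := by unfold bh; simp

lemma bh_half (Λ : ℝ) : bh Λ (1 / 2) = bB Λ := by
  unfold bh
  rw [show Real.pi * (1 / 2) = Real.pi / 2 by ring, Real.cos_pi_div_two, Real.sin_pi_div_two]
  ring

/-- on `[1/2, 1]` the cosine is nonpositive and the sine is nonnegative -/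
lemma trig_half {t : ℝ} (h0 : 1 / 2 ≤ t) (h1 : t ≤ 1) :
    Real.cos (Real.pi * t) ≤ 0 ∧ 0 ≤ Real.sin (Real.pi * t) := by
  have hpi := Real.pi_pos
  constructor
  · apply Real.cos_nonpos_of_pi_div_two_le_of_le
    · nlinarith
    · nlinarith
  · apply Real.sin_nonneg_of_nonneg_of_le_pi
    · nlinarith
    · nlinarith

lemma bhd_nonpos {Λ t : ℝ} (hΛ : 1 ≤ Λ) (h0 : 1 / 2 ≤ t) (h1 : t ≤ 1) : bhd Λ t ≤ 0 := by
  obtain ⟨hc, hs⟩ := trig_half h0 h1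
  have ha := aA_nonneg hΛ
  have hpi := Real.pi_pos
  unfold bhd
  have e1 : Real.pi ^ 2 / 4 * Real.cos (Real.pi * t) ≤ 0 :=
    mul_nonpos_of_nonneg_of_nonpos (by positivity) hc
  have e2 : 0 ≤ Real.pi * aA Λ * ((1 - t) * Real.sin (Real.pi * t)) :=
    mul_nonneg (by positivity) (mul_nonneg (by linarith) hs)
  linarith

lemma bhdd_nonneg {Λ t : ℝ} (hΛ : 3 ≤ Λ) (h0 : 1 / 2 ≤ t) (h1 : t ≤ 1) : 0 ≤ bhdd Λ t := by
  obtain ⟨hc, hs⟩ := trig_half h0 h1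
  have hpi := Real.pi_pos
  unfold bhdd
  apply mul_nonneg (by positivity)
  have e1 : 0 ≤ (Λ - 3) * Real.sin (Real.pi * t) := mul_nonneg (by linarith) hs
  have e2 : (Λ - 1) * Real.pi * ((1 - t) * Real.cos (Real.pi * t)) ≤ 0 := by
    apply mul_nonpos_of_nonneg_of_nonpos
    · exact mul_nonneg (by linarith) hpi.le
    · exact mul_nonpos_of_nonneg_of_nonpos (by linarith) hc
  linarith

lemma bh_nonneg {Λ t : ℝ} (hΛ : 1 ≤ Λ) (h0 : 1 / 2 ≤ t) (h1 : t ≤ 1) : 0 ≤ bh Λ t := by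
  have hanti : AntitoneOn (bh Λ) (Set.Icc (1 / 2) 1) := by
    apply antitoneOn_of_deriv_nonpos (convex_Icc _ _) (bh_cont Λ).continuousOn
    · intro x _
      exact (bh_has Λ x).differentiableAt.differentiableWithinAt
    · intro x hx
      rw [interior_Icc] at hx
      rw [(bh_has Λ x).deriv]
      exact bhd_nonpos hΛ hx.1.le hx.2.le
  have := hanti ⟨h0, h1⟩ ⟨by norm_num, le_rfl⟩ h1
  rw [bh_one] at this
  exact this

/-- the cosine transform on `[0, 1]` of the shifted kernel -/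
noncomputable def E1 (Λ c : ℝ) : ℝ :=
  ∫ v in (0 : ℝ)..1, bh Λ ((1 + v) / 2) * Real.cos (c * v)

/-- Pólya's criterion -/
lemma E1_nonneg {Λ c : ℝ} (hΛ : 3 ≤ Λ) (hc : c ≠ 0) : 0 ≤ E1 Λ c := by
  have hw : ∀ v : ℝ, HasDerivAt (fun v : ℝ => (1 + v) / 2) (1 / 2) v := by
    intro v
    have := ((hasDerivAt_id v).const_add 1).div_const 2
    simpa using this
  have hcv : ∀ v : ℝ, HasDerivAt (fun v : ℝ => c * v) c v := by
    intro v
    simpa using (hasDerivAt_id v).const_mul c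
  have hF : ∀ v ∈ Set.uIcc (0 : ℝ) 1, HasDerivAt (fun v : ℝ =>
      bh Λ ((1 + v) / 2) * (Real.sin (c * v) / c) -
        bhd Λ ((1 + v) / 2) / 2 * ((1 - Real.cos (c * v)) / c ^ 2))
      (bh Λ ((1 + v) / 2) * Real.cos (c * v) -
        bhdd Λ ((1 + v) / 2) / 4 * ((1 - Real.cos (c * v)) / c ^ 2)) v := by
    intro v _
    have h1 : HasDerivAt (fun v : ℝ => bh Λ ((1 + v) / 2)) (bhd Λ ((1 + v) / 2) * (1 / 2)) v :=
      HasDerivAt.comp v (bh_has Λ _) (hw v)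
    have h2 : HasDerivAt (fun v : ℝ => bhd Λ ((1 + v) / 2)) (bhdd Λ ((1 + v) / 2) * (1 / 2)) v :=
      HasDerivAt.comp v (bhd_has Λ _) (hw v)
    have h3 := (h1.mul ((hcv v).sin.div_const c)).sub
      ((h2.div_const 2).mul (((hcv v).cos.const_sub 1).div_const (c ^ 2)))
    refine h3.congr_deriv ?_
    field_simp
    ring
  have c1 : Continuous fun v : ℝ => bh Λ ((1 + v) / 2) * Real.cos (c * v) :=
    ((bh_cont Λ).comp (by fun_prop)).mul (by fun_prop)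
  have c2 : Continuous fun v : ℝ => bhdd Λ ((1 + v) / 2) / 4 * ((1 - Real.cos (c * v)) / c ^ 2) :=
    (((bhdd_cont Λ).comp (by fun_prop)).div_const 4).mul (by fun_prop)
  have h1 := intervalIntegral.integral_eq_sub_of_hasDerivAt hF
    ((c1.sub c2).intervalIntegrable _ _)
  rw [intervalIntegral.integral_sub (c1.intervalIntegrable _ _) (c2.intervalIntegrable _ _)] at h1
  have h2 : 0 ≤ ∫ v in (0 : ℝ)..1, bhdd Λ ((1 + v) / 2) / 4 * ((1 - Real.cos (c * v)) / c ^ 2) := by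
    apply intervalIntegral.integral_nonneg zero_le_one
    intro v hv
    have h3 := bhdd_nonneg (Λ := Λ) (t := (1 + v) / 2) hΛ (by linarith [hv.1]) (by linarith [hv.2])
    have h4 : 0 ≤ 1 - Real.cos (c * v) := by linarith [Real.cos_le_one (c * v)]
    positivity
  have h5 : bhd Λ 1 ≤ 0 := bhd_nonpos (by linarith) (by norm_num) le_rfl
  have h6 : 0 ≤ 1 - Real.cos c := by linarith [Real.cos_le_one c]
  have h7 : 0 ≤ -(bhd Λ 1) / 2 * ((1 - Real.cos c) / c ^ 2) := by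
    have : 0 ≤ -(bhd Λ 1) := by linarith
    positivity
  unfold E1
  norm_num [bh_one] at h1
  have h8 : -(bhd Λ 1) / 2 * ((1 - Real.cos c) / c ^ 2) =
      -(bhd Λ 1 / 2 * ((1 - Real.cos c) / c ^ 2)) := by ring
  linarith

end Pool.Agent.TH873.EW
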