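import Pool.Agent.TH873.EW.CB1

/-!
# The test function with support beyond `1`
-/

open Filter Topology Set MeasureTheory

namespace Pool.Agent.TH873.EW

/-- the truncated transform -/
noncomputable def GT (Λ t : ℝ) : ℝ := bh Λ (min 1 |t|)

/-- the test function centred at `a` -/
noncomputable def rhoB (Λ a ξ : ℝ) : ℝ :=
  Real.cos (2 * Real.pi * a * ξ) * GT Λ (ξ / 2) - 2 * GT Λ ((1 + |ξ|) / 2) +
    GT Λ ((1 + |ξ - 1|) / 2)

lemma GT_lip (Λ : ℝ) : ∃ K : ℝ, 0 ≤ K ∧ ∀ x y, |GT Λ x - GT Λ y| ≤ K * |x - y| := by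
  obtain ⟨K, hK⟩ := ((bh_cd Λ).locallyLipschitz.locallyLipschitzOn
    (s := Set.Icc (0 : ℝ) 1)).exists_lipschitzOnWith_of_compact isCompact_Icc
  have hmem : ∀ x : ℝ, min 1 |x| ∈ Set.Icc (0 : ℝ) 1 := fun x =>
    ⟨le_min zero_le_one (abs_nonneg x), min_le_left _ _⟩
  refine ⟨K, K.2, fun x y => ?_⟩
  have h2 := hK.dist_le_mul _ (hmem x) _ (hmem y)
  rw [Real.dist_eq, Real.dist_eq] at h2
  refine h2.trans ?_
  apply mul_le_mul_of_nonneg_left _ K.2
  have h3 := abs_min_sub_min_le_max 1 |x| 1 |y|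
  rw [sub_self, abs_zero] at h3
  refine h3.trans ?_
  apply max_le (abs_nonneg _)
  exact abs_abs_sub_abs_le_abs_sub x y

lemma GT_bound {Λ : ℝ} (hΛ : 1 ≤ Λ) (t : ℝ) : |GT Λ t| ≤ aA Λ + bB Λ :=
  bh_bound hΛ (le_min zero_le_one (abs_nonneg t)) (min_le_left _ _)

lemma GT_eq {Λ t : ℝ} (h0 : 0 ≤ t) (h1 : t ≤ 1) : GT Λ t = bh Λ t := by
  unfold GT
  rw [abs_of_nonneg h0, min_eq_right h1]

lemma GT_zero {Λ t : ℝ} (h1 : 1 ≤ t) : GT Λ t = 0 := by
  unfold GT
  rw [abs_of_nonneg (by linarith), min_eq_left h1, bh_one]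

lemma cos_lip (c x y : ℝ) : |Real.cos (c * x) - Real.cos (c * y)| ≤ |c| * |x - y| := by
  have h := Real.lipschitzWith_cos.dist_le_mul (c * x) (c * y)
  rw [Real.dist_eq, Real.dist_eq, NNReal.coe_one, one_mul, ← mul_sub, abs_mul] at h
  exact h

lemma rhoB_lip {Λ : ℝ} (hΛ : 1 ≤ Λ) (a : ℝ) :
    ∃ K : ℝ, ∀ x y, |rhoB Λ a x - rhoB Λ a y| ≤ K * |x - y| := by
  obtain ⟨K, hK0, hK⟩ := GT_lip Λ
  set M : ℝ := aA Λ + bB Λ with hM
  have hM0 : 0 ≤ M := (abs_nonneg _).trans (GT_bound hΛ 0)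
  refine ⟨|2 * Real.pi * a| * M + K / 2 + K + K / 2, fun x y => ?_⟩
  have e : rhoB Λ a x - rhoB Λ a y =
      (Real.cos (2 * Real.pi * a * x) - Real.cos (2 * Real.pi * a * y)) * GT Λ (x / 2) +
      Real.cos (2 * Real.pi * a * y) * (GT Λ (x / 2) - GT Λ (y / 2)) +
      (-2) * (GT Λ ((1 + |x|) / 2) - GT Λ ((1 + |y|) / 2)) +
      (GT Λ ((1 + |x - 1|) / 2) - GT Λ ((1 + |y - 1|) / 2)) := by
    unfold rhoB; ring
  rw [e]
  have b1 : |(Real.cos (2 * Real.pi * a * x) - Real.cos (2 * Real.pi * a * y)) * GT Λ (x / 2)| ≤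
      |2 * Real.pi * a| * M * |x - y| := by
    rw [abs_mul]
    calc _ ≤ (|2 * Real.pi * a| * |x - y|) * M :=
          mul_le_mul (cos_lip _ _ _) (GT_bound hΛ _) (abs_nonneg _) (by positivity)
      _ = _ := by ring
  have b2 : |Real.cos (2 * Real.pi * a * y) * (GT Λ (x / 2) - GT Λ (y / 2))| ≤
      K / 2 * |x - y| := by
    rw [abs_mul]
    have h1 := hK (x / 2) (y / 2)
    rw [← sub_div, abs_div, abs_two] at h1
    calc _ ≤ 1 * (K * (|x - y| / 2)) :=
          mul_le_mul (Real.abs_cos_le_one _) h1 (abs_nonneg _) zero_le_one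
      _ = _ := by ring
  have b3 : |(-2) * (GT Λ ((1 + |x|) / 2) - GT Λ ((1 + |y|) / 2))| ≤ K * |x - y| := by
    rw [abs_mul]
    have h1 := hK ((1 + |x|) / 2) ((1 + |y|) / 2)
    have h2 : |(1 + |x|) / 2 - (1 + |y|) / 2| ≤ |x - y| / 2 := by
      have e2 : (1 + |x|) / 2 - (1 + |y|) / 2 = (|x| - |y|) / 2 := by ring
      rw [e2, abs_div, abs_two]
      have := abs_abs_sub_abs_le_abs_sub x y
      linarith
    have h3 := h1.trans (mul_le_mul_of_nonneg_left h2 hK0)
    have h4 : |(-2 : ℝ)| = 2 := by norm_num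
    rw [h4]
    linarith
  have b4 : |GT Λ ((1 + |x - 1|) / 2) - GT Λ ((1 + |y - 1|) / 2)| ≤ K / 2 * |x - y| := by
    have h1 := hK ((1 + |x - 1|) / 2) ((1 + |y - 1|) / 2)
    have h2 : |(1 + |x - 1|) / 2 - (1 + |y - 1|) / 2| ≤ |x - y| / 2 := by
      have e2 : (1 + |x - 1|) / 2 - (1 + |y - 1|) / 2 = (|x - 1| - |y - 1|) / 2 := by ring
      rw [e2, abs_div, abs_two]
      have h5 := abs_abs_sub_abs_le_abs_sub (x - 1) (y - 1)
      have e3 : x - 1 - (y - 1) = x - y := by ring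
      rw [e3] at h5
      linarith
    have h3 := h1.trans (mul_le_mul_of_nonneg_left h2 hK0)
    linarith
  set p1 := (Real.cos (2 * Real.pi * a * x) - Real.cos (2 * Real.pi * a * y)) * GT Λ (x / 2)
  set p2 := Real.cos (2 * Real.pi * a * y) * (GT Λ (x / 2) - GT Λ (y / 2))
  set p3 := (-2) * (GT Λ ((1 + |x|) / 2) - GT Λ ((1 + |y|) / 2))
  set p4 := GT Λ ((1 + |x - 1|) / 2) - GT Λ ((1 + |y - 1|) / 2)
  have t1 := abs_add_le (p1 + p2 + p3) p4
  have t2 := abs_add_le (p1 + p2) p3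
  have t3 := abs_add_le p1 p2
  have e5 : (|2 * Real.pi * a| * M + K / 2 + K + K / 2) * |x - y| =
      |2 * Real.pi * a| * M * |x - y| + K / 2 * |x - y| + K * |x - y| + K / 2 * |x - y| := by ring
  rw [e5]
  linarith

lemma rhoB_zero {Λ a x : ℝ} (hx : 2 ≤ x) : rhoB Λ a x = 0 := by
  unfold rhoB
  rw [GT_zero (by linarith), abs_of_nonneg (by linarith), GT_zero (by linarith),
    abs_of_nonneg (by linarith), GT_zero (by linarith)]
  ring

lemma rhoB_01 {Λ a x : ℝ} (h0 : 0 ≤ x) (h1 : x ≤ 1) : rhoB Λ a x =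
    Real.cos (2 * Real.pi * a * x) * bh Λ (x / 2) - 2 * bh Λ ((1 + x) / 2) +
      bh Λ ((1 + (1 - x)) / 2) := by
  unfold rhoB
  rw [GT_eq (by linarith) (by linarith), abs_of_nonneg h0, GT_eq (by linarith) (by linarith),
    abs_of_nonpos (by linarith), GT_eq (by linarith) (by linarith)]
  congr 2
  ring

lemma rhoB_12 {Λ a x : ℝ} (h0 : 1 ≤ x) (h1 : x ≤ 2) : rhoB Λ a x =
    (1 + Real.cos (2 * Real.pi * a * x)) * bh Λ (x / 2) := by
  unfold rhoB
  rw [GT_eq (t := x / 2) (by linarith) (by linarith), abs_of_nonneg (by linarith : 0 ≤ x),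
    GT_zero (t := (1 + x) / 2) (by linarith), abs_of_nonneg (by linarith : 0 ≤ x - 1),
    GT_eq (by linarith) (by linarith), show (1 + (x - 1)) / 2 = x / 2 by ring]
  ring

lemma rhoB_nonneg {Λ a x : ℝ} (hΛ : 1 ≤ Λ) (h0 : 1 ≤ x) : 0 ≤ rhoB Λ a x := by
  rcases le_total x 2 with h | h
  · rw [rhoB_12 h0 h]
    apply mul_nonneg
    · linarith [Real.neg_one_le_cos (2 * Real.pi * a * x)]
    · exact bh_nonneg hΛ (by linarith) (by linarith)
  · rw [rhoB_zero h]

/-- the transform of the test function -/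
lemma tr_rhoB {Λ : ℝ} (hΛ : 1 ≤ Λ) (a x : ℝ) : tr (rhoB Λ a) 2 x =
    ct (bh Λ) (2 * (x - a)) + ct (bh Λ) (2 * (x + a)) -
      4 * (1 - Real.cos (2 * Real.pi * x)) * E1 Λ (2 * Real.pi * x) := by
  obtain ⟨K, hK⟩ := rhoB_lip hΛ a
  have hρc : Continuous (rhoB Λ a) := lip_cont hK
  have hb := bh_cont Λ
  set w : ℝ := 2 * Real.pi * x with hw
  have hc : Continuous fun t : ℝ => rhoB Λ a t * Real.cos (w * t) := by fun_prop
  -- the pieces
  have hA : Continuous fun t : ℝ => (Real.cos (2 * Real.pi * a * t) * bh Λ (t / 2)) *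
      Real.cos (w * t) := by fun_prop
  have hB : Continuous fun t : ℝ => bh Λ ((1 + t) / 2) * Real.cos (w * t) := by fun_prop
  have hC : Continuous fun t : ℝ => bh Λ ((1 + (1 - t)) / 2) * Real.cos (w * t) := by fun_prop
  have hD : Continuous fun t : ℝ => bh Λ ((1 + (t - 1)) / 2) * Real.cos (w * t) := by fun_prop
  have p1 : ∫ t in (0 : ℝ)..1, rhoB Λ a t * Real.cos (w * t) =
      (∫ t in (0 : ℝ)..1, (Real.cos (2 * Real.pi * a * t) * bh Λ (t / 2)) * Real.cos (w * t)) +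
      ((-2) * (∫ t in (0 : ℝ)..1, bh Λ ((1 + t) / 2) * Real.cos (w * t)) +
      ∫ t in (0 : ℝ)..1, bh Λ ((1 + (1 - t)) / 2) * Real.cos (w * t)) := by
    have hBC : Continuous fun t : ℝ => (-2) * (bh Λ ((1 + t) / 2) * Real.cos (w * t)) +
      bh Λ ((1 + (1 - t)) / 2) * Real.cos (w * t) := (hB.const_mul _).add hC
    rw [← intervalIntegral.integral_const_mul, ← intervalIntegral.integral_add
      ((hB.const_mul _).intervalIntegrable _ _) (hC.intervalIntegrable _ _),
      ← intervalIntegral.integral_add (hA.intervalIntegrable _ _)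
      (hBC.intervalIntegrable _ _)]
    apply intervalIntegral.integral_congr
    intro t ht
    rw [Set.uIcc_of_le zero_le_one] at ht
    simp only
    rw [rhoB_01 ht.1 ht.2]
    ring
  have p2 : ∫ t in (1 : ℝ)..2, rhoB Λ a t * Real.cos (w * t) =
      (∫ t in (1 : ℝ)..2, (Real.cos (2 * Real.pi * a * t) * bh Λ (t / 2)) * Real.cos (w * t)) +
      ∫ t in (1 : ℝ)..2, bh Λ ((1 + (t - 1)) / 2) * Real.cos (w * t) := by
    rw [← intervalIntegral.integral_add (hA.intervalIntegrable _ _) (hD.intervalIntegrable _ _)]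
    apply intervalIntegral.integral_congr
    intro t ht
    rw [Set.uIcc_of_le one_le_two] at ht
    simp only
    rw [rhoB_12 ht.1 ht.2, show (1 + (t - 1)) / 2 = t / 2 by ring]
    ring
  -- the main piece
  have q1 : ∫ t in (0 : ℝ)..2, (Real.cos (2 * Real.pi * a * t) * bh Λ (t / 2)) * Real.cos (w * t) =
      1 / 2 * (ct (bh Λ) (2 * (x - a)) + ct (bh Λ) (2 * (x + a))) := by
    have e1 : ∀ t : ℝ, (Real.cos (2 * Real.pi * a * t) * bh Λ (t / 2)) * Real.cos (w * t) =
        (fun t => bh Λ t * (Real.cos (2 * Real.pi * a * (2 * t)) * Real.cos (w * (2 * t))))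
          (t / 2) := by
      intro t
      simp only
      rw [show 2 * (t / 2) = t by ring]
      ring
    simp_rw [e1]
    rw [intervalIntegral.integral_comp_div (fun t => bh Λ t *
      (Real.cos (2 * Real.pi * a * (2 * t)) * Real.cos (w * (2 * t)))) two_ne_zero, zero_div,
      div_self two_ne_zero, smul_eq_mul]
    unfold ct
    have f1 : Continuous fun t : ℝ => bh Λ t * Real.cos (2 * Real.pi * (2 * (x - a)) * t) := by
      fun_prop
    have f2 : Continuous fun t : ℝ => bh Λ t * Real.cos (2 * Real.pi * (2 * (x + a)) * t) := by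
      fun_prop
    rw [← mul_add, ← intervalIntegral.integral_add (f1.intervalIntegrable _ _)
      (f2.intervalIntegrable _ _), ← mul_assoc, ← intervalIntegral.integral_const_mul,
      ← intervalIntegral.integral_const_mul]
    apply intervalIntegral.integral_congr
    intro t _
    simp only
    have g1 : 2 * Real.pi * (2 * (x - a)) * t = w * (2 * t) - 2 * Real.pi * a * (2 * t) := by
      rw [hw]; ring
    have g2 : 2 * Real.pi * (2 * (x + a)) * t = w * (2 * t) + 2 * Real.pi * a * (2 * t) := by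
      rw [hw]; ring
    rw [g1, g2, Real.cos_sub, Real.cos_add]
    ring
  -- the reflected pieces
  set S1 : ℝ := ∫ v in (0 : ℝ)..1, bh Λ ((1 + v) / 2) * Real.sin (w * v) with hS1
  have hBs : Continuous fun t : ℝ => bh Λ ((1 + t) / 2) * Real.sin (w * t) := by fun_prop
  have q2 : ∫ t in (0 : ℝ)..1, bh Λ ((1 + (1 - t)) / 2) * Real.cos (w * t) =
      Real.cos w * E1 Λ w + Real.sin w * S1 := by
    have e1 : ∀ t : ℝ, bh Λ ((1 + (1 - t)) / 2) * Real.cos (w * t) =
        (fun v => bh Λ ((1 + v) / 2) * Real.cos (w * (1 - v))) (1 - t) := by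
      intro t
      simp only
      rw [show 1 - (1 - t) = t by ring]
    simp_rw [e1]
    rw [intervalIntegral.integral_comp_sub_left (fun v => bh Λ ((1 + v) / 2) *
      Real.cos (w * (1 - v))) 1, sub_self, sub_zero]
    unfold E1
    rw [hS1, ← intervalIntegral.integral_const_mul, ← intervalIntegral.integral_const_mul,
      ← intervalIntegral.integral_add ((hB.const_mul _).intervalIntegrable _ _)
      ((hBs.const_mul _).intervalIntegrable _ _)]
    apply intervalIntegral.integral_congr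
    intro t _
    simp only
    rw [show w * (1 - t) = w - w * t by ring, Real.cos_sub]
    ring
  have q3 : ∫ t in (1 : ℝ)..2, bh Λ ((1 + (t - 1)) / 2) * Real.cos (w * t) =
      Real.cos w * E1 Λ w - Real.sin w * S1 := by
    have e1 : ∀ t : ℝ, bh Λ ((1 + (t - 1)) / 2) * Real.cos (w * t) =
        (fun v => bh Λ ((1 + v) / 2) * Real.cos (w * (1 + v))) (t - 1) := by
      intro t
      simp only
      rw [show 1 + (t - 1) = t by ring]
    simp_rw [e1]
    rw [intervalIntegral.integral_comp_sub_right (fun v => bh Λ ((1 + v) / 2) *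
      Real.cos (w * (1 + v))) 1, sub_self, show (2 : ℝ) - 1 = 1 by norm_num]
    unfold E1
    rw [hS1, ← intervalIntegral.integral_const_mul, ← intervalIntegral.integral_const_mul,
      ← intervalIntegral.integral_sub ((hB.const_mul _).intervalIntegrable _ _)
      ((hBs.const_mul _).intervalIntegrable _ _)]
    apply intervalIntegral.integral_congr
    intro t _
    simp only
    rw [show w * (1 + t) = w + w * t by ring, Real.cos_add]
    ring
  have q4 : ∫ t in (0 : ℝ)..1, bh Λ ((1 + t) / 2) * Real.cos (w * t) = E1 Λ w := rfl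
  have hsum : ∫ t in (0 : ℝ)..2, rhoB Λ a t * Real.cos (w * t) =
      (∫ t in (0 : ℝ)..1, rhoB Λ a t * Real.cos (w * t)) +
        ∫ t in (1 : ℝ)..2, rhoB Λ a t * Real.cos (w * t) :=
    (intervalIntegral.integral_add_adjacent_intervals (hc.intervalIntegrable _ _)
      (hc.intervalIntegrable _ _)).symm
  have hsumA := intervalIntegral.integral_add_adjacent_intervals (a := (0 : ℝ)) (b := 1) (c := 2)
    (hA.intervalIntegrable (μ := volume) _ _) (hA.intervalIntegrable _ _)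
  unfold tr
  rw [← hw, hsum, p1, p2, q2, q3, q4]
  rw [q1] at hsumA
  linear_combination 2 * hsumA

lemma tr_rhoB_le {Λ : ℝ} (hΛ : 3 ≤ Λ) (a x : ℝ) : tr (rhoB Λ a) 2 x ≤
    ct (bh Λ) (2 * (x - a)) + ct (bh Λ) (2 * (x + a)) := by
  rw [tr_rhoB (by linarith)]
  have h : 0 ≤ 4 * (1 - Real.cos (2 * Real.pi * x)) * E1 Λ (2 * Real.pi * x) := by
    by_cases hx : 2 * Real.pi * x = 0
    · rw [hx, Real.cos_zero]; simp
    · have h1 := E1_nonneg hΛ hx
      have h2 : 0 ≤ 1 - Real.cos (2 * Real.pi * x) := by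
        linarith [Real.cos_le_one (2 * Real.pi * x)]
      positivity
  linarith

/-- sign outside the window -/
lemma rhoB_sign {l α : ℝ} (hl : 3 ≤ 4 * l ^ 2) (hl0 : 0 < l) (hα : 0 ≤ α) :
    ∀ x, 0 ≤ x → (x ≤ α ∨ α + l ≤ x) → tr (rhoB (4 * l ^ 2) (α + l / 2)) 2 x ≤ 0 := by
  intro x hx hx'
  refine (tr_rhoB_le hl _ _).trans ?_
  have h1 : ct (bh (4 * l ^ 2)) (2 * (x - (α + l / 2))) ≤ 0 := by
    apply ct_bh_nonpos (by linarith)
    have e : 4 * (2 * (x - (α + l / 2))) ^ 2 - 4 * l ^ 2 =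
        16 * ((x - α) * (x - (α + l))) := by ring
    have : 0 ≤ (x - α) * (x - (α + l)) := by
      rcases hx' with h | h
      · exact mul_nonneg_of_nonpos_of_nonpos (by linarith) (by linarith)
      · exact mul_nonneg (by linarith) (by linarith)
    linarith
  have h2 : ct (bh (4 * l ^ 2)) (2 * (x + (α + l / 2))) ≤ 0 := by
    apply ct_bh_nonpos (by linarith)
    have e : 4 * (2 * (x + (α + l / 2))) ^ 2 - 4 * l ^ 2 =
        16 * ((x + α) * (x + (α + l))) := by ring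
    have : 0 ≤ (x + α) * (x + (α + l)) := by positivity
    linarith
  linarith

lemma rhoB_top {Λ : ℝ} (hΛ : 3 ≤ Λ) (a x : ℝ) : tr (rhoB Λ a) 2 x ≤ 4 * (aA Λ + bB Λ) := by
  refine (tr_rhoB_le hΛ _ _).trans ?_
  have h1 := ct_bh_le (Λ := Λ) (by linarith) (2 * (x - a))
  have h2 := ct_bh_le (Λ := Λ) (by linarith) (2 * (x + a))
  linarith

end Pool.Agent.TH873.EW
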