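import Pool.Agent.TH873.EW.CB2

/-!
# The value of the functional at the test functions of class B
-/

open Filter Topology Set MeasureTheory

namespace Pool.Agent.TH873.EW

/-- sine coefficient of the antiderivative -/
noncomputable def QW (Λ u v t : ℝ) : ℝ :=
  aA Λ * (u + v * t) * (1 - t) / Real.pi + (bB Λ * v + 2 * aA Λ * v / Real.pi) / Real.pi ^ 2
/-- cosine coefficient of the antiderivative -/
noncomputable def CW (Λ u v t : ℝ) : ℝ :=
  (aA Λ * (v * (1 - t) - (u + v * t)) / Real.pi - bB Λ * (u + v * t)) / Real.pi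
/-- antiderivative of `(u + v t) bh(t)` -/
noncomputable def WW (Λ u v t : ℝ) : ℝ :=
  CW Λ u v t * Real.cos (Real.pi * t) + QW Λ u v t * Real.sin (Real.pi * t)

lemma WW_has (Λ u v t : ℝ) : HasDerivAt (WW Λ u v) ((u + v * t) * bh Λ t) t := by
  have hpi : Real.pi ≠ 0 := Real.pi_ne_zero
  have h1 : HasDerivAt (fun t : ℝ => Real.pi * t) Real.pi t := by
    simpa using (hasDerivAt_id t).const_mul Real.pi
  have hu : HasDerivAt (fun t : ℝ => u + v * t) v t := by
    simpa using ((hasDerivAt_id t).const_mul v).const_add u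
  have h0 : HasDerivAt (fun t : ℝ => 1 - t) (-1) t := by
    simpa using (hasDerivAt_id t).const_sub 1
  have hQ : HasDerivAt (QW Λ u v) (aA Λ * (v * (1 - t) - (u + v * t)) / Real.pi) t := by
    have h2 := ((((hu.const_mul (aA Λ)).mul h0).div_const Real.pi).add_const
      ((bB Λ * v + 2 * aA Λ * v / Real.pi) / Real.pi ^ 2))
    refine h2.congr_deriv ?_
    ring
  have hP : HasDerivAt (CW Λ u v) ((aA Λ * (-2 * v) / Real.pi - bB Λ * v) / Real.pi) t := by
    have h2 := ((((h0.const_mul v).sub hu).const_mul (aA Λ)).div_const Real.pi).sub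
      (hu.const_mul (bB Λ))
    have h3 := h2.div_const Real.pi
    refine h3.congr_deriv ?_
    ring
  have h4 := (hP.mul h1.cos).add (hQ.mul h1.sin)
  refine h4.congr_deriv ?_
  unfold CW QW bh
  field_simp
  ring

lemma int_lin_bh (Λ u v : ℝ) {c : ℝ} (d p q : ℝ) (hc : c ≠ 0) :
    ∫ t in p..q, (u + v * (c * t + d)) * bh Λ (c * t + d) =
      (WW Λ u v (c * q + d) - WW Λ u v (c * p + d)) / c := by
  have hb := bh_cont Λ
  have e := intervalIntegral.integral_comp_mul_add (a := p) (b := q)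
    (fun x => (u + v * x) * bh Λ x) hc d
  have h2 : ∫ x in (c * p + d)..(c * q + d), (u + v * x) * bh Λ x =
      WW Λ u v (c * q + d) - WW Λ u v (c * p + d) :=
    intervalIntegral.integral_eq_sub_of_hasDerivAt (fun x _ => WW_has Λ u v x)
      ((by fun_prop : Continuous fun x => (u + v * x) * bh Λ x).intervalIntegrable _ _)
  rw [h2] at e
  rw [e, smul_eq_mul]
  ring

/-- first-order bound for an oscillating integral -/
lemma osc {φ φ' ψ : ℝ → ℝ} {p q ω R : ℝ} (hpq : p ≤ q) (hω : 0 < ω)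
    (h : ∀ t, HasDerivAt φ (φ' t) t) (hφ' : Continuous φ') (hψ : Continuous ψ)
    (hb : ∀ t ∈ Set.Icc p q, |φ' t| ≤ ψ t) (hR : ∫ t in p..q, ψ t ≤ R) :
    |(∫ t in p..q, φ t * Real.cos (ω * t)) - (φ q * Real.sin (ω * q) - φ p * Real.sin (ω * p)) / ω| ≤
      R / ω := by
  have hφ : Continuous φ := continuous_iff_continuousAt.2 fun t => (h t).continuousAt
  have hF : ∀ t ∈ Set.uIcc p q, HasDerivAt (fun t => φ t * Real.sin (ω * t) / ω)
      (φ t * Real.cos (ω * t) + φ' t * Real.sin (ω * t) / ω) t := by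
    intro t _
    have h1 : HasDerivAt (fun t : ℝ => ω * t) ω t := by
      simpa using (hasDerivAt_id t).const_mul ω
    have h2 := ((h t).mul h1.sin).div_const ω
    refine h2.congr_deriv ?_
    field_simp
    ring
  have c1 : Continuous fun t => φ t * Real.cos (ω * t) := by fun_prop
  have c2 : Continuous fun t => φ' t * Real.sin (ω * t) / ω := by fun_prop
  have h1 := intervalIntegral.integral_eq_sub_of_hasDerivAt hF
    ((c1.add c2).intervalIntegrable _ _)
  rw [intervalIntegral.integral_add (c1.intervalIntegrable _ _) (c2.intervalIntegrable _ _)] at h1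
  have h2 : (∫ t in p..q, φ t * Real.cos (ω * t)) -
      (φ q * Real.sin (ω * q) - φ p * Real.sin (ω * p)) / ω =
      -∫ t in p..q, φ' t * Real.sin (ω * t) / ω := by
    have : (φ q * Real.sin (ω * q) - φ p * Real.sin (ω * p)) / ω =
        φ q * Real.sin (ω * q) / ω - φ p * Real.sin (ω * p) / ω := by ring
    rw [this]
    linarith
  rw [h2, abs_neg]
  calc |∫ t in p..q, φ' t * Real.sin (ω * t) / ω| ≤ ∫ t in p..q, ψ t / ω := by
        refine (intervalIntegral.abs_integral_le_integral_abs hpq).trans ?_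
        apply intervalIntegral.integral_mono_on hpq (c2.abs.intervalIntegrable _ _)
          ((hψ.div_const ω).intervalIntegrable _ _)
        intro t ht
        rw [abs_div, abs_of_pos hω, abs_mul]
        have h3 := hb t ht
        have h4 := Real.abs_sin_le_one (ω * t)
        have h5 := abs_nonneg (φ' t)
        gcongr
        calc |φ' t| * |Real.sin (ω * t)| ≤ |φ' t| * 1 := by gcongr
          _ ≤ ψ t := by rw [mul_one]; exact h3
    _ = (∫ t in p..q, ψ t) / ω := by rw [intervalIntegral.integral_div]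
    _ ≤ R / ω := by gcongr

/-- bound for the variation on `[0, 1]` -/
noncomputable def R1 (Λ : ℝ) : ℝ :=
  2 * ((aA Λ / 2 + Real.pi ^ 2 / 8) / Real.pi - (4 * bB Λ - Real.pi * aA Λ / 2) / Real.pi ^ 2 -
    (Real.pi ^ 2 / 4 - aA Λ) / Real.pi ^ 2 + bB Λ / Real.pi)

/-- majorant of the derivative -/
noncomputable def psi1 (Λ x : ℝ) : ℝ :=
  (aA Λ + (Real.pi ^ 2 / 4 - aA Λ) * x) * Real.cos (Real.pi * x) +
    (bB Λ - (4 * bB Λ - Real.pi * aA Λ / 2) * x) * Real.sin (Real.pi * x)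

lemma int_psi1 (Λ : ℝ) : ∫ t in (0 : ℝ)..1, psi1 Λ (t / 2) = R1 Λ := by
  have hpi : Real.pi ≠ 0 := Real.pi_ne_zero
  set u1 : ℝ := aA Λ with hu1
  set v1 : ℝ := Real.pi ^ 2 / 4 - aA Λ with hv1
  set u2 : ℝ := bB Λ with hu2
  set v2 : ℝ := -(4 * bB Λ - Real.pi * aA Λ / 2) with hv2
  have hF : ∀ x ∈ Set.uIcc (0 : ℝ) (1 / 2), HasDerivAt (fun x : ℝ =>
      (u1 + v1 * x) * Real.sin (Real.pi * x) / Real.pi + v1 * Real.cos (Real.pi * x) / Real.pi ^ 2 -
      (u2 + v2 * x) * Real.cos (Real.pi * x) / Real.pi + v2 * Real.sin (Real.pi * x) / Real.pi ^ 2)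
      (psi1 Λ x) x := by
    intro x _
    have h1 : HasDerivAt (fun t : ℝ => Real.pi * t) Real.pi x := by
      simpa using (hasDerivAt_id x).const_mul Real.pi
    have ha : HasDerivAt (fun t : ℝ => u1 + v1 * t) v1 x := by
      simpa using ((hasDerivAt_id x).const_mul v1).const_add u1
    have hb : HasDerivAt (fun t : ℝ => u2 + v2 * t) v2 x := by
      simpa using ((hasDerivAt_id x).const_mul v2).const_add u2
    have h2 := ((((ha.mul h1.sin).div_const Real.pi).add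
      ((h1.cos.const_mul v1).div_const (Real.pi ^ 2))).sub
      ((hb.mul h1.cos).div_const Real.pi)).add ((h1.sin.const_mul v2).div_const (Real.pi ^ 2))
    refine h2.congr_deriv ?_
    unfold psi1
    rw [← hu1, ← hv1, ← hu2]
    have : (4 * u2 - Real.pi * u1 / 2) = -v2 := by rw [hv2]; ring
    rw [this]
    field_simp
    ring
  have hc : Continuous (psi1 Λ) := by unfold psi1; fun_prop
  have h3 := intervalIntegral.integral_eq_sub_of_hasDerivAt hF (hc.intervalIntegrable _ _)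
  rw [intervalIntegral.integral_comp_div (fun x => psi1 Λ x) two_ne_zero, zero_div, smul_eq_mul, h3]
  simp only [mul_zero, Real.sin_zero, Real.cos_zero]
  rw [show Real.pi * (1 / 2) = Real.pi / 2 by ring, Real.cos_pi_div_two, Real.sin_pi_div_two]
  unfold R1
  rw [← hu1, ← hu2, hv1, hv2]
  ring

lemma psi1_bound {Λ : ℝ} (hΛ : 1 ≤ Λ) (h1 : 0 ≤ 4 * bB Λ - Real.pi * aA Λ / 2)
    (h2 : 4 * bB Λ - Real.pi * aA Λ / 2 ≤ Real.pi * aA Λ / 2) {x : ℝ} (hx0 : 0 ≤ x)
    (hx1 : x ≤ 1 / 2) : |bh Λ x + x * bhd Λ x| ≤ psi1 Λ x := by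
  have hpi := Real.pi_pos
  have hA := aA_nonneg hΛ
  have hcos : 0 ≤ Real.cos (Real.pi * x) := by
    apply Real.cos_nonneg_of_neg_pi_div_two_le_of_le
    · have : 0 ≤ Real.pi * x := by positivity
      linarith
    · nlinarith
  have hsin : 0 ≤ Real.sin (Real.pi * x) := by
    apply Real.sin_nonneg_of_nonneg_of_le_pi
    · positivity
    · nlinarith
  set c : ℝ := 4 * bB Λ - Real.pi * aA Λ / 2 with hc
  set y : ℝ := bB Λ - Real.pi * aA Λ * (x * (1 - x)) with hy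
  have e : bh Λ x + x * bhd Λ x = (aA Λ + (Real.pi ^ 2 / 4 - aA Λ) * x) * Real.cos (Real.pi * x) +
      y * Real.sin (Real.pi * x) := by
    unfold bh bhd
    rw [hy]; ring
  have hy1 : y ≤ bB Λ - c * x := by
    have h3 : c * x ≤ Real.pi * aA Λ * (x * (1 - x)) := by
      have h4 : c ≤ Real.pi * aA Λ * (1 - x) := by
        have : Real.pi * aA Λ * (1 / 2) ≤ Real.pi * aA Λ * (1 - x) :=
          mul_le_mul_of_nonneg_left (by linarith) (by positivity)
        linarith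
      have := mul_le_mul_of_nonneg_right h4 hx0
      linarith
    rw [hy]; linarith
  have hy2 : -(bB Λ - c * x) ≤ y := by
    have h5 : (bB Λ - c * x) + y = c * (1 / 2 - x) + Real.pi * aA Λ * (1 / 2 - x) ^ 2 := by
      rw [hy, hc]; ring
    have h6 : 0 ≤ c * (1 / 2 - x) := mul_nonneg h1 (by linarith)
    have h7 : 0 ≤ Real.pi * aA Λ * (1 / 2 - x) ^ 2 := by positivity
    linarith
  have hfirst : 0 ≤ aA Λ + (Real.pi ^ 2 / 4 - aA Λ) * x := by
    have e1 : aA Λ + (Real.pi ^ 2 / 4 - aA Λ) * x = aA Λ * (1 - x) + Real.pi ^ 2 / 4 * x := by ring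
    rw [e1]
    have : 0 ≤ 1 - x := by linarith
    positivity
  rw [e]
  unfold psi1
  rw [← hc]
  have p1 : 0 ≤ (aA Λ + (Real.pi ^ 2 / 4 - aA Λ) * x) * Real.cos (Real.pi * x) :=
    mul_nonneg hfirst hcos
  have p2 : y * Real.sin (Real.pi * x) ≤ (bB Λ - c * x) * Real.sin (Real.pi * x) :=
    mul_le_mul_of_nonneg_right hy1 hsin
  have p3 : -(bB Λ - c * x) * Real.sin (Real.pi * x) ≤ y * Real.sin (Real.pi * x) :=
    mul_le_mul_of_nonneg_right hy2 hsin
  rw [abs_le]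
  constructor
  · linarith
  · linarith

/-- the value without oscillating terms -/
noncomputable def Jinf (Λ : ℝ) : ℝ :=
  aA Λ - 2 * bB Λ - 8 * (WW Λ (-1) 2 1 - WW Λ (-1) 2 (1 / 2)) +
    4 * (WW Λ 2 (-2) 1 - WW Λ 2 (-2) (1 / 2)) +
    4 * (WW Λ (3 / 2) (-2) (3 / 4) - WW Λ (3 / 2) (-2) (1 / 2))

lemma value {Λ : ℝ} (hΛ : 1 ≤ Λ) (h1 : 0 ≤ 4 * bB Λ - Real.pi * aA Λ / 2)
    (h2 : 4 * bB Λ - Real.pi * aA Λ / 2 ≤ Real.pi * aA Λ / 2) {a : ℝ} (ha : 0 < a) :
    Jinf Λ - 2 * (bB Λ + R1 Λ) / (2 * Real.pi * a) ≤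
      rhoB Λ a 0 + 2 * (∫ t in (0 : ℝ)..1, t * rhoB Λ a t) +
      2 * (∫ ξ in (1 : ℝ)..(3 / 2), (3 / 2 - ξ) * rhoB Λ a ξ) := by
  have hb := bh_cont Λ
  have hbd := bhd_cont Λ
  set ω : ℝ := 2 * Real.pi * a with hω
  have hω0 : 0 < ω := by have := Real.pi_pos; positivity
  have hB0 := bB_pos hΛ
  -- decomposition of the integrals
  have cA : Continuous fun t : ℝ => (t * bh Λ (t / 2)) * Real.cos (ω * t) := by fun_prop
  have cB : Continuous fun t : ℝ => (-1 + 2 * (1 / 2 * t + 1 / 2)) * bh Λ (1 / 2 * t + 1 / 2) := by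
    fun_prop
  have cC : Continuous fun t : ℝ => (2 + -2 * (-(1 / 2) * t + 1)) * bh Λ (-(1 / 2) * t + 1) := by
    fun_prop
  have cD : Continuous fun t : ℝ => ((3 / 2 - t) * bh Λ (t / 2)) * Real.cos (ω * t) := by fun_prop
  have cE : Continuous fun t : ℝ => (3 / 2 + -2 * (1 / 2 * t + 0)) * bh Λ (1 / 2 * t + 0) := by
    fun_prop
  have d1 : ∫ t in (0 : ℝ)..1, t * rhoB Λ a t =
      (∫ t in (0 : ℝ)..1, (t * bh Λ (t / 2)) * Real.cos (ω * t)) +
      ((-2) * (∫ t in (0 : ℝ)..1, (-1 + 2 * (1 / 2 * t + 1 / 2)) * bh Λ (1 / 2 * t + 1 / 2)) +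
      ∫ t in (0 : ℝ)..1, (2 + -2 * (-(1 / 2) * t + 1)) * bh Λ (-(1 / 2) * t + 1)) := by
    have cBC : Continuous fun t : ℝ =>
        (-2) * ((-1 + 2 * (1 / 2 * t + 1 / 2)) * bh Λ (1 / 2 * t + 1 / 2)) +
        (2 + -2 * (-(1 / 2) * t + 1)) * bh Λ (-(1 / 2) * t + 1) := (cB.const_mul _).add cC
    rw [← intervalIntegral.integral_const_mul, ← intervalIntegral.integral_add
      ((cB.const_mul _).intervalIntegrable _ _) (cC.intervalIntegrable _ _),
      ← intervalIntegral.integral_add (cA.intervalIntegrable _ _) (cBC.intervalIntegrable _ _)]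
    apply intervalIntegral.integral_congr
    intro t ht
    rw [Set.uIcc_of_le zero_le_one] at ht
    simp only
    rw [rhoB_01 ht.1 ht.2, show 1 / 2 * t + 1 / 2 = (1 + t) / 2 by ring,
      show -(1 / 2) * t + 1 = (1 + (1 - t)) / 2 by ring, hω]
    ring
  have d2 : ∫ ξ in (1 : ℝ)..(3 / 2), (3 / 2 - ξ) * rhoB Λ a ξ =
      (∫ t in (1 : ℝ)..(3 / 2), ((3 / 2 - t) * bh Λ (t / 2)) * Real.cos (ω * t)) +
      ∫ t in (1 : ℝ)..(3 / 2), (3 / 2 + -2 * (1 / 2 * t + 0)) * bh Λ (1 / 2 * t + 0) := by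
    rw [← intervalIntegral.integral_add (cD.intervalIntegrable _ _) (cE.intervalIntegrable _ _)]
    apply intervalIntegral.integral_congr
    intro t ht
    rw [Set.uIcc_of_le (by norm_num)] at ht
    simp only
    rw [rhoB_12 ht.1 (by linarith [ht.2]), show 1 / 2 * t + 0 = t / 2 by ring, hω]
    ring
  rw [int_lin_bh _ _ _ _ _ _ (by norm_num), int_lin_bh _ _ _ _ _ _ (by norm_num)] at d1
  rw [int_lin_bh _ _ _ _ _ _ (by norm_num)] at d2
  have r0 : rhoB Λ a 0 = aA Λ - 2 * bB Λ := by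
    rw [rhoB_01 le_rfl zero_le_one]
    simp only [mul_zero, Real.cos_zero, one_mul, zero_div, add_zero, sub_zero]
    rw [bh_zero, bh_half, show (1 + 1 : ℝ) / 2 = 1 by norm_num, bh_one]
    ring
  -- the oscillating integrals
  have o1 : |(∫ t in (0 : ℝ)..1, (t * bh Λ (t / 2)) * Real.cos (ω * t)) -
      ((1 * bh Λ (1 / 2)) * Real.sin (ω * 1) - (0 * bh Λ (0 / 2)) * Real.sin (ω * 0)) / ω| ≤
      R1 Λ / ω := by
    apply osc (φ := fun t => t * bh Λ (t / 2))
      (φ' := fun t => bh Λ (t / 2) + t / 2 * bhd Λ (t / 2)) (ψ := fun t => psi1 Λ (t / 2))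
      zero_le_one hω0
    · intro t
      have h3 : HasDerivAt (fun t : ℝ => t / 2) (1 / 2) t := (hasDerivAt_id t).div_const 2
      have h4 : HasDerivAt (fun t : ℝ => bh Λ (t / 2)) (bhd Λ (t / 2) * (1 / 2)) t :=
        HasDerivAt.comp t (bh_has Λ _) h3
      have h5 := (hasDerivAt_id t).mul h4
      refine h5.congr_deriv ?_
      simp only [id]
      ring
    · fun_prop
    · unfold psi1; fun_prop
    · intro t ht
      exact psi1_bound hΛ h1 h2 (by linarith [ht.1]) (by linarith [ht.2])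
    · rw [int_psi1]
  have o2 : |(∫ t in (1 : ℝ)..(3 / 2), ((3 / 2 - t) * bh Λ (t / 2)) * Real.cos (ω * t)) -
      (((3 / 2 - 3 / 2) * bh Λ ((3 / 2) / 2)) * Real.sin (ω * (3 / 2)) -
        ((3 / 2 - 1) * bh Λ (1 / 2)) * Real.sin (ω * 1)) / ω| ≤ (bB Λ / 2) / ω := by
    have hder : ∀ t : ℝ, HasDerivAt (fun t : ℝ => (3 / 2 - t) * bh Λ (t / 2))
        (-bh Λ (t / 2) + (3 / 2 - t) / 2 * bhd Λ (t / 2)) t := by
      intro t
      have h3 : HasDerivAt (fun t : ℝ => t / 2) (1 / 2) t := (hasDerivAt_id t).div_const 2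
      have h4 : HasDerivAt (fun t : ℝ => bh Λ (t / 2)) (bhd Λ (t / 2) * (1 / 2)) t :=
        HasDerivAt.comp t (bh_has Λ _) h3
      have h6 : HasDerivAt (fun t : ℝ => 3 / 2 - t) (-1) t := by
        simpa using (hasDerivAt_id t).const_sub (3 / 2)
      have h5 := h6.mul h4
      refine h5.congr_deriv ?_
      ring
    have hφ'c : Continuous fun t : ℝ => -bh Λ (t / 2) + (3 / 2 - t) / 2 * bhd Λ (t / 2) := by
      fun_prop
    apply osc (φ := fun t => (3 / 2 - t) * bh Λ (t / 2))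
      (φ' := fun t => -bh Λ (t / 2) + (3 / 2 - t) / 2 * bhd Λ (t / 2))
      (ψ := fun t => -(-bh Λ (t / 2) + (3 / 2 - t) / 2 * bhd Λ (t / 2))) (by norm_num) hω0
    · exact hder
    · exact hφ'c
    · exact hφ'c.neg
    · intro t ht
      have h3 : 0 ≤ bh Λ (t / 2) := bh_nonneg hΛ (by linarith [ht.1]) (by linarith [ht.2])
      have h4 : bhd Λ (t / 2) ≤ 0 := bhd_nonpos hΛ (by linarith [ht.1]) (by linarith [ht.2])
      have h5 : (3 / 2 - t) / 2 * bhd Λ (t / 2) ≤ 0 :=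
        mul_nonpos_of_nonneg_of_nonpos (by linarith [ht.2]) h4
      rw [abs_of_nonpos (by linarith)]
    · rw [intervalIntegral.integral_neg, intervalIntegral.integral_eq_sub_of_hasDerivAt
        (fun t _ => hder t) (hφ'c.intervalIntegrable _ _), bh_half]
      apply le_of_eq
      ring
  rw [bh_half] at o1 o2
  rw [d1, d2, r0]
  set O1 : ℝ := ∫ t in (0 : ℝ)..1, (t * bh Λ (t / 2)) * Real.cos (ω * t) with hO1
  set O2 : ℝ := ∫ t in (1 : ℝ)..(3 / 2), ((3 / 2 - t) * bh Λ (t / 2)) * Real.cos (ω * t) with hO2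
  have l1 := (abs_le.1 o1).1
  have l2 := (abs_le.1 o2).1
  have hsin : -(bB Λ / 2 / ω) ≤ bB Λ / 2 * Real.sin (ω * 1) / ω := by
    rw [← neg_div]
    apply div_le_div_of_nonneg_right _ hω0.le
    have := Real.neg_one_le_sin (ω * 1)
    nlinarith
  have e1 : (1 * bB Λ * Real.sin (ω * 1) - 0 * bh Λ (0 / 2) * Real.sin (ω * 0)) / ω =
      2 * (bB Λ / 2 * Real.sin (ω * 1) / ω) := by ring
  have e2 : ((3 / 2 - 3 / 2) * bh Λ (3 / 2 / 2) * Real.sin (ω * (3 / 2)) -
      (3 / 2 - 1) * bB Λ * Real.sin (ω * 1)) / ω = -(bB Λ / 2 * Real.sin (ω * 1) / ω) := by ring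
  rw [e1] at l1
  rw [e2] at l2
  have e3 : 2 * (bB Λ + R1 Λ) / ω = 2 * (bB Λ / 2 / ω + bB Λ / 2 / ω + R1 Λ / ω) := by ring
  rw [e3]
  have e4 : (1 / 2 : ℝ) * 1 + 1 / 2 = 1 := by norm_num
  have e5 : (1 / 2 : ℝ) * 0 + 1 / 2 = 1 / 2 := by norm_num
  have e6 : -(1 / 2 : ℝ) * 1 + 1 = 1 / 2 := by norm_num
  have e7 : -(1 / 2 : ℝ) * 0 + 1 = 1 := by norm_num
  have e8 : (1 / 2 : ℝ) * (3 / 2) + 0 = 3 / 4 := by norm_num
  have e9 : (1 / 2 : ℝ) * 1 + 0 = 1 / 2 := by norm_num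
  rw [e4, e5, e6, e7, e8, e9]
  unfold Jinf
  linarith

end Pool.Agent.TH873.EW
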