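import Pool.Agent.TH873.EW.CB3

/-!
# Numerical values and the final windows
-/

open Filter Topology Set MeasureTheory

namespace Pool.Agent.TH873.EW

lemma Jinf_eq (Λ : ℝ) : Jinf Λ = (Λ - 1) * Real.pi ^ 2 / 8 - (Λ + 1) * Real.pi / 4 -
    3 * (Λ - 1) * Real.pi / 8 - 2 * Λ +
    (16 - 2 * Real.sqrt 2) * ((Λ + 1) / 4 + (Λ - 1) / 2) / Real.pi +
    Real.sqrt 2 * (Λ - 1) / 8 := by
  have hpi : Real.pi ≠ 0 := Real.pi_ne_zero
  have s1 : Real.sin (Real.pi * 1) = 0 := by rw [mul_one, Real.sin_pi]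
  have c1 : Real.cos (Real.pi * 1) = -1 := by rw [mul_one, Real.cos_pi]
  have s2 : Real.sin (Real.pi * (1 / 2)) = 1 := by
    rw [show Real.pi * (1 / 2) = Real.pi / 2 by ring, Real.sin_pi_div_two]
  have c2 : Real.cos (Real.pi * (1 / 2)) = 0 := by
    rw [show Real.pi * (1 / 2) = Real.pi / 2 by ring, Real.cos_pi_div_two]
  have s3 : Real.sin (Real.pi * (3 / 4)) = Real.sqrt 2 / 2 := by
    rw [show Real.pi * (3 / 4) = Real.pi - Real.pi / 4 by ring, Real.sin_pi_sub,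
      Real.sin_pi_div_four]
  have c3 : Real.cos (Real.pi * (3 / 4)) = -(Real.sqrt 2 / 2) := by
    rw [show Real.pi * (3 / 4) = Real.pi - Real.pi / 4 by ring, Real.cos_pi_sub,
      Real.cos_pi_div_four]
  unfold Jinf WW
  rw [s1, c1, s2, c2, s3, c3]
  unfold QW CW aA bB
  field_simp
  ring

lemma R1_eq (Λ : ℝ) : R1 Λ = (Λ - 1) * Real.pi / 4 + Real.pi / 4 - (Λ + 1) / Real.pi - 1 / 2 +
    (Λ - 1) / 4 + (Λ + 1) / 4 := by
  have hpi : Real.pi ≠ 0 := Real.pi_ne_zero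
  unfold R1 aA bB
  field_simp
  ring

/-- numerical bounds -/
lemma consts : (9.8696 : ℝ) ≤ Real.pi ^ 2 ∧ Real.pi ^ 2 ≤ 9.86961 ∧ 3.14159 ≤ Real.pi ∧
    Real.pi ≤ 3.1416 ∧ 0.318309 ≤ 1 / Real.pi ∧ 1 / Real.pi ≤ 0.31831 ∧
    0.101321 ≤ 1 / Real.pi ^ 2 ∧ 1 / Real.pi ^ 2 ≤ 0.101322 ∧
    1.41421 ≤ Real.sqrt 2 ∧ Real.sqrt 2 ≤ 1.41422 := by
  have p1 := Real.pi_gt_d6
  have p2 := Real.pi_lt_d6
  have hpi := Real.pi_pos
  refine ⟨by nlinarith, by nlinarith, by linarith, by linarith, ?_, ?_, ?_, ?_, ?_, ?_⟩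
  · rw [le_div_iff₀ hpi]; nlinarith
  · rw [div_le_iff₀ hpi]; nlinarith
  · rw [le_div_iff₀ (by positivity)]; nlinarith
  · rw [div_le_iff₀ (by positivity)]; nlinarith
  · apply Real.le_sqrt_of_sq_le; norm_num
  · rw [Real.sqrt_le_left (by norm_num)]; norm_num

/-- window from class B -/
theorem winB (hRH : RiemannHypothesis) {l l' a0 κ : ℝ} (hl0 : 0 < l) (hl : 3 ≤ 4 * l ^ 2)
    (hll : l < l')
    (h1 : 0 ≤ 4 * bB (4 * l ^ 2) - Real.pi * aA (4 * l ^ 2) / 2)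
    (h2 : 4 * bB (4 * l ^ 2) - Real.pi * aA (4 * l ^ 2) / 2 ≤ Real.pi * aA (4 * l ^ 2) / 2)
    (ha0 : 0 < a0) (hκ0 : 0 < κ) (hR : 0 ≤ bB (4 * l ^ 2) + R1 (4 * l ^ 2))
    (hκ : κ < Jinf (4 * l ^ 2) - 2 * (bB (4 * l ^ 2) + R1 (4 * l ^ 2)) / (2 * Real.pi * a0)) :
    ∃ c : ℝ, 0 < c ∧ ∀ α : ℝ, 0 ≤ α → a0 ≤ α + l / 2 → PW α (α + l') c := by
  have hpi := Real.pi_pos
  set Λ : ℝ := 4 * l ^ 2 with hΛ
  have hΛ1 : 1 ≤ Λ := by linarith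
  have hC : 0 < 4 * (aA Λ + bB Λ) := by
    have := aA_nonneg hΛ1
    have := bB_pos hΛ1
    linarith
  refine ⟨κ / (5 * (4 * (aA Λ + bB Λ))), by positivity, fun α hα ha => ?_⟩
  obtain ⟨K, hK⟩ := rhoB_lip hΛ1 (α + l / 2)
  have hs := rhoB_sign (l := l) hl hl0 hα
  rw [← hΛ] at hs
  have ha' : 0 < α + l / 2 := lt_of_lt_of_le ha0 ha
  have hval := value hΛ1 h1 h2 ha'
  have hmono : 2 * (bB Λ + R1 Λ) / (2 * Real.pi * (α + l / 2)) ≤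
      2 * (bB Λ + R1 Λ) / (2 * Real.pi * a0) := by gcongr
  exact win hRH (κ := κ) (β := α + l) hK (fun x hx => rhoB_zero hx)
    (fun x hx => rhoB_nonneg hΛ1 hx) hα (by linarith) (by linarith) hs hC
    (fun x => rhoB_top hl _ x) hκ0.le (by
      have := hs 0 le_rfl (Or.inl hα)
      linarith)

lemma num1 : (1 / 50 : ℝ) < Jinf (4 * (10595 / 10000) ^ 2) -
    2 * (bB (4 * (10595 / 10000) ^ 2) + R1 (4 * (10595 / 10000) ^ 2)) /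
      (2 * Real.pi * (323 / 100)) := by
  obtain ⟨p1, p2, p3, p4, q1, q2, r1, r2, s1, s2⟩ := consts
  have hpi : Real.pi ≠ 0 := Real.pi_ne_zero
  rw [Jinf_eq, R1_eq]
  unfold bB
  have e : ∀ Λ : ℝ, 2 * ((Λ + 1) * Real.pi / 8 + ((Λ - 1) * Real.pi / 4 + Real.pi / 4 -
      (Λ + 1) / Real.pi - 1 / 2 + (Λ - 1) / 4 + (Λ + 1) / 4)) / (2 * Real.pi * (323 / 100)) =
      ((Λ + 1) / 8 + (Λ - 1) / 4 + 1 / 4 - (Λ + 1) * (1 / Real.pi ^ 2) +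
        (-1 / 2 + (Λ - 1) / 4 + (Λ + 1) / 4) * (1 / Real.pi)) / (323 / 100) := by
    intro Λ
    field_simp
    ring
  rw [e]
  have e2 : ∀ Λ : ℝ, (16 - 2 * Real.sqrt 2) * ((Λ + 1) / 4 + (Λ - 1) / 2) / Real.pi =
      ((Λ + 1) / 4 + (Λ - 1) / 2) * (16 * (1 / Real.pi) - 2 * (Real.sqrt 2 * (1 / Real.pi))) := by
    intro Λ
    field_simp
  rw [e2]
  have hsq : Real.sqrt 2 * (1 / Real.pi) ≤ 1.41422 * 0.31831 :=
    mul_le_mul s2 q2 (by positivity) (by norm_num)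
  nlinarith

lemma num2 : (1 / 1000 : ℝ) < Jinf (4 * (9395 / 10000) ^ 2) -
    2 * (bB (4 * (9395 / 10000) ^ 2) + R1 (4 * (9395 / 10000) ^ 2)) /
      (2 * Real.pi * 70) := by
  obtain ⟨p1, p2, p3, p4, q1, q2, r1, r2, s1, s2⟩ := consts
  have hpi : Real.pi ≠ 0 := Real.pi_ne_zero
  rw [Jinf_eq, R1_eq]
  unfold bB
  have e : ∀ Λ : ℝ, 2 * ((Λ + 1) * Real.pi / 8 + ((Λ - 1) * Real.pi / 4 + Real.pi / 4 -
      (Λ + 1) / Real.pi - 1 / 2 + (Λ - 1) / 4 + (Λ + 1) / 4)) / (2 * Real.pi * 70) =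
      ((Λ + 1) / 8 + (Λ - 1) / 4 + 1 / 4 - (Λ + 1) * (1 / Real.pi ^ 2) +
        (-1 / 2 + (Λ - 1) / 4 + (Λ + 1) / 4) * (1 / Real.pi)) / 70 := by
    intro Λ
    field_simp
    ring
  rw [e]
  have e2 : ∀ Λ : ℝ, (16 - 2 * Real.sqrt 2) * ((Λ + 1) / 4 + (Λ - 1) / 2) / Real.pi =
      ((Λ + 1) / 4 + (Λ - 1) / 2) * (16 * (1 / Real.pi) - 2 * (Real.sqrt 2 * (1 / Real.pi))) := by
    intro Λ
    field_simp
  rw [e2]
  have hsq : Real.sqrt 2 * (1 / Real.pi) ≤ 1.41422 * 0.31831 :=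
    mul_le_mul s2 q2 (by positivity) (by norm_num)
  nlinarith

lemma cond1 : 0 ≤ 4 * bB (4 * (10595 / 10000) ^ 2) - Real.pi * aA (4 * (10595 / 10000) ^ 2) / 2 ∧
    4 * bB (4 * (10595 / 10000) ^ 2) - Real.pi * aA (4 * (10595 / 10000) ^ 2) / 2 ≤
      Real.pi * aA (4 * (10595 / 10000) ^ 2) / 2 ∧
    0 ≤ bB (4 * (10595 / 10000) ^ 2) + R1 (4 * (10595 / 10000) ^ 2) := by
  obtain ⟨p1, p2, p3, p4, q1, q2, r1, r2, s1, s2⟩ := consts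
  have hpi := Real.pi_pos
  rw [R1_eq]
  unfold aA bB
  refine ⟨?_, ?_, ?_⟩
  · have e : 4 * ((4 * (10595 / 10000 : ℝ) ^ 2 + 1) * Real.pi / 8) -
        Real.pi * ((4 * (10595 / 10000 : ℝ) ^ 2 - 1) * Real.pi ^ 2 / 8) / 2 =
        Real.pi * ((4 * (10595 / 10000 : ℝ) ^ 2 + 1) / 2 -
          (4 * (10595 / 10000 : ℝ) ^ 2 - 1) * Real.pi ^ 2 / 16) := by ring
    rw [e]
    apply mul_nonneg hpi.le
    linarith
  · have e : Real.pi * ((4 * (10595 / 10000 : ℝ) ^ 2 - 1) * Real.pi ^ 2 / 8) / 2 -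
        (4 * ((4 * (10595 / 10000 : ℝ) ^ 2 + 1) * Real.pi / 8) -
        Real.pi * ((4 * (10595 / 10000 : ℝ) ^ 2 - 1) * Real.pi ^ 2 / 8) / 2) =
        Real.pi * ((4 * (10595 / 10000 : ℝ) ^ 2 - 1) * Real.pi ^ 2 / 8 -
          (4 * (10595 / 10000 : ℝ) ^ 2 + 1) / 2) := by ring
    rw [← sub_nonneg, e]
    apply mul_nonneg hpi.le
    linarith
  · have e : (4 * (10595 / 10000 : ℝ) ^ 2 + 1) / Real.pi =
        (4 * (10595 / 10000 : ℝ) ^ 2 + 1) * (1 / Real.pi) := by ring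
    rw [e]
    linarith

lemma cond2 : 0 ≤ 4 * bB (4 * (9395 / 10000) ^ 2) - Real.pi * aA (4 * (9395 / 10000) ^ 2) / 2 ∧
    4 * bB (4 * (9395 / 10000) ^ 2) - Real.pi * aA (4 * (9395 / 10000) ^ 2) / 2 ≤
      Real.pi * aA (4 * (9395 / 10000) ^ 2) / 2 ∧
    0 ≤ bB (4 * (9395 / 10000) ^ 2) + R1 (4 * (9395 / 10000) ^ 2) := by
  obtain ⟨p1, p2, p3, p4, q1, q2, r1, r2, s1, s2⟩ := consts
  have hpi := Real.pi_pos
  rw [R1_eq]
  unfold aA bB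
  refine ⟨?_, ?_, ?_⟩
  · have e : 4 * ((4 * (9395 / 10000 : ℝ) ^ 2 + 1) * Real.pi / 8) -
        Real.pi * ((4 * (9395 / 10000 : ℝ) ^ 2 - 1) * Real.pi ^ 2 / 8) / 2 =
        Real.pi * ((4 * (9395 / 10000 : ℝ) ^ 2 + 1) / 2 -
          (4 * (9395 / 10000 : ℝ) ^ 2 - 1) * Real.pi ^ 2 / 16) := by ring
    rw [e]
    apply mul_nonneg hpi.le
    linarith
  · have e : Real.pi * ((4 * (9395 / 10000 : ℝ) ^ 2 - 1) * Real.pi ^ 2 / 8) / 2 -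
        (4 * ((4 * (9395 / 10000 : ℝ) ^ 2 + 1) * Real.pi / 8) -
        Real.pi * ((4 * (9395 / 10000 : ℝ) ^ 2 - 1) * Real.pi ^ 2 / 8) / 2) =
        Real.pi * ((4 * (9395 / 10000 : ℝ) ^ 2 - 1) * Real.pi ^ 2 / 8 -
          (4 * (9395 / 10000 : ℝ) ^ 2 + 1) / 2) := by ring
    rw [← sub_nonneg, e]
    apply mul_nonneg hpi.le
    linarith
  · have e : (4 * (9395 / 10000 : ℝ) ^ 2 + 1) / Real.pi =
        (4 * (9395 / 10000 : ℝ) ^ 2 + 1) * (1 / Real.pi) := by ring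
    rw [e]
    linarith

theorem far1 (hRH : RiemannHypothesis) : ∃ c : ℝ, 0 < c ∧ ∀ α : ℝ, 271 / 100 ≤ α →
    PW α (α + 106 / 100) c := by
  obtain ⟨c, hc, h⟩ := winB hRH (l := 10595 / 10000) (l' := 106 / 100) (a0 := 323 / 100)
    (κ := 1 / 50) (by norm_num) (by norm_num) (by norm_num) cond1.1 cond1.2.1 (by norm_num)
    (by norm_num) cond1.2.2 num1
  exact ⟨c, hc, fun α hα => h α (by linarith) (by linarith)⟩

theorem far2 (hRH : RiemannHypothesis) : ∃ c : ℝ, 0 < c ∧ ∀ α : ℝ, 70 ≤ α →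
    PW α (α + 94 / 100) c := by
  obtain ⟨c, hc, h⟩ := winB hRH (l := 9395 / 10000) (l' := 94 / 100) (a0 := 70)
    (κ := 1 / 1000) (by norm_num) (by norm_num) (by norm_num) cond2.1 cond2.2.1 (by norm_num)
    (by norm_num) cond2.2.2 num2
  exact ⟨c, hc, fun α hα => h α (by linarith) (by linarith)⟩

/-- every window of length `1.06` -/
theorem every (hRH : RiemannHypothesis) : ∃ c : ℝ, 0 < c ∧ ∀ α : ℝ, 0 ≤ α →
    PW α (α + 106 / 100) c := by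
  obtain ⟨c1, hc1, h1⟩ := near hRH
  obtain ⟨c2, hc2, h2⟩ := far1 hRH
  refine ⟨min c1 c2, lt_min hc1 hc2, fun α hα => ?_⟩
  rcases le_total α (271 / 100) with h | h
  · exact PW_mono (h1 α hα h) le_rfl le_rfl (min_le_left _ _)
  · exact PW_mono (h2 α h) le_rfl le_rfl (min_le_right _ _)

end Pool.Agent.TH873.EW
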