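import Pool.Agent.TH873.EW.Num

/-!
# The one-node kernel, for small `α`
-/

open MeasureTheory intervalIntegral

namespace Pool.Agent.TH873.EW

/-- the kernel `S(x) (x² - α²) ((α + l)² - x²) / (x² (1 - x²)²)` -/
noncomputable def GO (l α t : ℝ) : ℝ :=
  (-(α ^ 2 * (α + l) ^ 2) * g0 t + 0 * g0 t) +
    ((1 - α ^ 2) * ((α + l) ^ 2 - 1) * g2 1 t + (1 - α ^ 2 * (α + l) ^ 2) * g1 1 t)

lemma cont_GO (l α : ℝ) : Continuous (GO l α) := by
  unfold GO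
  have h0 := cont_g0
  have h1 := cont_g1 1
  have h2 := cont_g2 1
  fun_prop

lemma ct_GO (l α x : ℝ) : ct (GO l α) x =
    (-(α ^ 2 * (α + l) ^ 2) * ct g0 x + 0 * ct g0 x) +
    ((1 - α ^ 2) * ((α + l) ^ 2 - 1) * ct (g2 1) x + (1 - α ^ 2 * (α + l) ^ 2) * ct (g1 1) x) := by
  unfold GO
  rw [ct_lin4 cont_g0 cont_g0 (cont_g2 1) (cont_g1 1)]

lemma mom_GO (l α : ℝ) : mom (GO l α) = -(α ^ 2 * (α + l) ^ 2) * (4 / 3 * Real.pi ^ 2) +
    ((1 - α ^ 2) * ((α + l) ^ 2 - 1) * (Real.pi ^ 2 / 2 - 3 / 4) +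
      (1 - α ^ 2 * (α + l) ^ 2) * (-1 / 2)) := by
  unfold GO
  rw [mom_lin4 cont_g0 cont_g0 (cont_g2 1) (cont_g1 1), mom_g0, mom_g2 hi_0, mom_g1 hi_0]
  have := cos_0
  norm_num at this ⊢

lemma ct_GO_zero (l α : ℝ) : ct (GO l α) 0 = -(α ^ 2 * (α + l) ^ 2) * Real.pi ^ 2 := by
  rw [ct_GO, ct_g0_zero, ct_g2 hi_0 (by norm_num), ct_g1 hi_0 (by norm_num)]
  have := ss_0
  norm_num at this ⊢
  rw [this]
  ring

lemma ct_GO_eq (l α : ℝ) {x : ℝ} (hx : x ≠ 0) (hx1 : (1 : ℝ) ^ 2 - x ^ 2 ≠ 0) :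
    ct (GO l α) x = SS 1 x * ((x ^ 2 - α ^ 2) * ((α + l) ^ 2 - x ^ 2)) /
      (x ^ 2 * (1 ^ 2 - x ^ 2) ^ 2) := by
  have h1 : Real.sin (Real.pi * x) ^ 2 = SS 1 x := by
    unfold SS
    rw [show Real.pi * (1 - x) = Real.pi - Real.pi * x by ring, Real.sin_pi_sub]
  have h11 : HI 1 := ⟨2, by norm_num, by norm_num⟩
  rw [ct_GO, ct_g0 hx, ct_g2 h11 hx1, ct_g1 h11 hx1, h1]
  have hp : x ^ 2 ≠ 0 := pow_ne_zero 2 hx
  obtain ⟨p, hp'⟩ : ∃ p, p = x ^ 2 := ⟨_, rfl⟩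
  obtain ⟨D, hD⟩ : ∃ D, D = (1 : ℝ) ^ 2 - x ^ 2 := ⟨_, rfl⟩
  rw [← hD] at hx1 ⊢
  rw [← hp'] at hp hD ⊢
  have hpD : p = 1 - D := by rw [hD]; ring
  have hp1 : 1 - D ≠ 0 := by rw [← hpD]; exact hp
  rw [hpD]
  field_simp
  ring

lemma GO_nonpos {l α : ℝ} (hα : 0 ≤ α) (hl : 0 ≤ l) :
    ∀ x, 0 ≤ x → (x ≤ α ∨ α + l ≤ x) → ct (GO l α) x ≤ 0 := by
  refine nonpos_out (ct_cont (cont_GO l α)) (sing_finite 0 1) ?_ ?_
  · rw [ct_GO_zero]
    have : 0 ≤ α ^ 2 * (α + l) ^ 2 * Real.pi ^ 2 := by positivity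
    linarith
  · intro x hx hx1 hxF
    simp only [Set.mem_ofPred_eq, not_or] at hxF
    have hx0 : x ≠ 0 := by
      rintro rfl
      exact hxF.1 (by norm_num)
    rw [ct_GO_eq l α hx0 hxF.2]
    apply div_nonpos_of_nonpos_of_nonneg _ (by positivity)
    apply mul_nonpos_of_nonneg_of_nonpos (SS_nonneg _ _)
    rcases hx1 with h1 | h1
    · apply mul_nonpos_of_nonpos_of_nonneg
      · nlinarith
      · nlinarith
    · apply mul_nonpos_of_nonneg_of_nonpos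
      · nlinarith
      · nlinarith

lemma GO_one (l α : ℝ) : GO l α 1 = 0 := by
  unfold GO g0
  rw [g1_one ⟨2, by norm_num, by norm_num⟩, g2_one ⟨2, by norm_num, by norm_num⟩]
  ring

lemma kapO {α : ℝ} (h1 : 0 ≤ α) (h2 : α ≤ (33/50)) :
    0 < mom (GO (10595/10000) α) - ct (GO (10595/10000) α) 0 := by
  have e : mom (GO (10595/10000) α) - ct (GO (10595/10000) α) 0 =
      ((490161/8000000) + (2119/2000) * α ^ 1 + (309839/4800000) * α ^ 2 + (-2119/1200) * α ^ 3 + (-5/6) * α ^ 4) * Real.pi ^ 2 + ((-9470483/16000000) + (-6357/4000) * α ^ 1 + (-309839/3200000) * α ^ 2 + (2119/800) * α ^ 3 + (5/4) * α ^ 4) := by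
    rw [mom_GO, ct_GO_zero]
    ring
  have a1 : 0 ≤ α - (0) := by linarith
  have a2 : 0 ≤ (33/50) - α := by linarith
  have b1 : 0 < ((490161/8000000) + (2119/2000) * α ^ 1 + (309839/4800000) * α ^ 2 + (-2119/1200) * α ^ 3 + (-5/6) * α ^ 4) * (98696/10000) + ((-9470483/16000000) + (-6357/4000) * α ^ 1 + (-309839/3200000) * α ^ 2 + (2119/800) * α ^ 3 + (5/4) * α ^ 4) := by
    have i1 : (1185921/6250000) * ((((490161/8000000) + (2119/2000) * α ^ 1 + (309839/4800000) * α ^ 2 + (-2119/1200) * α ^ 3 + (-5/6) * α ^ 4) * (98696/10000) + ((-9470483/16000000) + (-6357/4000) * α ^ 1 + (-309839/3200000) * α ^ 2 + (2119/800) * α ^ 3 + (5/4) * α ^ 4)) - (64032191/10000000000)) =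
        (64032191/10000000000) * ((α - (0)) ^ 0 * ((33/50) - α) ^ 4) + (14695557671/2500000000) * ((α - (0)) ^ 1 * ((33/50) - α) ^ 3) + (44578963441167/2500000000000) * ((α - (0)) ^ 2 * ((33/50) - α) ^ 2) + (17256399280927/1250000000000) * ((α - (0)) ^ 3 * ((33/50) - α) ^ 1) + (1304823276737/2500000000000) * ((α - (0)) ^ 4 * ((33/50) - α) ^ 0) := by ring
    have i2 : (0 : ℝ) ≤ (64032191/10000000000) * ((α - (0)) ^ 0 * ((33/50) - α) ^ 4) + (14695557671/2500000000) * ((α - (0)) ^ 1 * ((33/50) - α) ^ 3) + (44578963441167/2500000000000) * ((α - (0)) ^ 2 * ((33/50) - α) ^ 2) + (17256399280927/1250000000000) * ((α - (0)) ^ 3 * ((33/50) - α) ^ 1) + (1304823276737/2500000000000) * ((α - (0)) ^ 4 * ((33/50) - α) ^ 0) := by positivity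
    rw [← i1] at i2
    linarith [nonneg_of_mul_nonneg_right i2 (by norm_num)]
  have b2 : 0 < ((490161/8000000) + (2119/2000) * α ^ 1 + (309839/4800000) * α ^ 2 + (-2119/1200) * α ^ 3 + (-5/6) * α ^ 4) * (98697/10000) + ((-9470483/16000000) + (-6357/4000) * α ^ 1 + (-309839/3200000) * α ^ 2 + (2119/800) * α ^ 3 + (5/4) * α ^ 4) := by
    have i1 : (1185921/6250000) * ((((490161/8000000) + (2119/2000) * α ^ 1 + (309839/4800000) * α ^ 2 + (-2119/1200) * α ^ 3 + (-5/6) * α ^ 4) * (98697/10000) + ((-9470483/16000000) + (-6357/4000) * α ^ 1 + (-309839/3200000) * α ^ 2 + (2119/800) * α ^ 3 + (5/4) * α ^ 4)) - (1025005217/160000000000)) =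
        (1025005217/160000000000) * ((α - (0)) ^ 0 * ((33/50) - α) ^ 4) + (235132209977/40000000000) * ((α - (0)) ^ 1 * ((33/50) - α) ^ 3) + (713272654011729/40000000000000) * ((α - (0)) ^ 2 * ((33/50) - α) ^ 2) + (276105926326849/20000000000000) * ((α - (0)) ^ 3 * ((33/50) - α) ^ 1) + (20877541348319/40000000000000) * ((α - (0)) ^ 4 * ((33/50) - α) ^ 0) := by ring
    have i2 : (0 : ℝ) ≤ (1025005217/160000000000) * ((α - (0)) ^ 0 * ((33/50) - α) ^ 4) + (235132209977/40000000000) * ((α - (0)) ^ 1 * ((33/50) - α) ^ 3) + (713272654011729/40000000000000) * ((α - (0)) ^ 2 * ((33/50) - α) ^ 2) + (276105926326849/20000000000000) * ((α - (0)) ^ 3 * ((33/50) - α) ^ 1) + (20877541348319/40000000000000) * ((α - (0)) ^ 4 * ((33/50) - α) ^ 0) := by positivity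
    rw [← i1] at i2
    linarith [nonneg_of_mul_nonneg_right i2 (by norm_num)]
  rw [e]
  exact lin_pi _ _ b1 b2

end Pool.Agent.TH873.EW
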