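import Pool.Agent.TH873.EW.Win
import Pool.Agent.TH873.EW.One

/-!
# Windows `(α, α + 1.06)` with `0 ≤ α ≤ 2.71`
-/

open Filter Topology Set MeasureTheory

namespace Pool.Agent.TH873.EW

/-- the main term -/
noncomputable def MT (T : ℝ) : ℝ := T / (2 * Real.pi) * Real.log T

lemma MT_nonneg {T : ℝ} (hT : 1 ≤ T) : 0 ≤ MT T := by
  unfold MT
  have := Real.log_nonneg hT
  have := Real.pi_pos
  positivity

theorem winA (hRH : RiemannHypothesis) {g : ℝ → ℝ} (hg : ContDiff ℝ 1 g) (h1 : g 1 = 0)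
    {α β β' : ℝ} (hα : 0 ≤ α) (hβ0 : 0 < β) (hβ : β < β')
    (hr : ∀ x, 0 ≤ x → (x ≤ α ∨ β ≤ x) → ct g x ≤ 0) (hκ : 0 < mom g - ct g 0) :
    ∃ c : ℝ, 0 < c ∧ ∃ T0 : ℝ, ∀ T : ℝ, T0 ≤ T → c * MT T ≤ NW T α β' := by
  have hgc : Continuous g := hg.continuous
  obtain ⟨K, hK⟩ := (hg.locallyLipschitz.locallyLipschitzOn
    (s := Set.Icc (0 : ℝ) 1)).exists_lipschitzOnWith_of_compact isCompact_Icc
  obtain ⟨M, hM⟩ := isCompact_Icc.exists_bound_of_continuousOn (s := Set.Icc (0 : ℝ) 1)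
    hgc.continuousOn
  set ρ : ℝ → ℝ := fun ξ => g (min 1 |ξ|) with hρ
  have hmem : ∀ x : ℝ, min 1 |x| ∈ Set.Icc (0 : ℝ) 1 := fun x =>
    ⟨le_min zero_le_one (abs_nonneg x), min_le_left _ _⟩
  have hρ01 : ∀ x, 0 ≤ x → x ≤ 1 → ρ x = g x := by
    intro x h0 hx1
    simp only [hρ]
    rw [abs_of_nonneg h0, min_eq_right hx1]
  have hρ1 : ∀ x, 1 ≤ x → ρ x = 0 := by
    intro x hx1
    simp only [hρ]
    rw [abs_of_nonneg (by linarith), min_eq_left hx1, h1]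
  have hlip : ∀ x y, |ρ x - ρ y| ≤ (K : ℝ) * |x - y| := by
    intro x y
    have h2 := hK.dist_le_mul _ (hmem x) _ (hmem y)
    rw [Real.dist_eq, Real.dist_eq] at h2
    refine h2.trans ?_
    apply mul_le_mul_of_nonneg_left _ K.2
    have h3 := abs_min_sub_min_le_max 1 |x| 1 |y|
    rw [sub_self, abs_zero] at h3
    refine h3.trans ?_
    apply max_le (abs_nonneg _)
    exact abs_abs_sub_abs_le_abs_sub x y
  have hρc : Continuous ρ := lip_cont hlip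
  have htr : ∀ x, tr ρ 2 x = ct g x := by
    intro x
    unfold tr ct
    have hc : Continuous fun t : ℝ => ρ t * Real.cos (2 * Real.pi * x * t) := by fun_prop
    rw [← intervalIntegral.integral_add_adjacent_intervals (b := 1) (hc.intervalIntegrable _ _)
      (hc.intervalIntegrable _ _)]
    have e1 : ∫ t in (0 : ℝ)..1, ρ t * Real.cos (2 * Real.pi * x * t) =
        ∫ t in (0 : ℝ)..1, g t * Real.cos (2 * Real.pi * x * t) := by
      apply intervalIntegral.integral_congr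
      intro t ht
      rw [Set.uIcc_of_le zero_le_one] at ht
      simp only
      rw [hρ01 t ht.1 ht.2]
    have e2 : ∫ t in (1 : ℝ)..2, ρ t * Real.cos (2 * Real.pi * x * t) = 0 := by
      have : ∀ t ∈ Set.uIcc (1 : ℝ) 2, ρ t * Real.cos (2 * Real.pi * x * t) = 0 := by
        intro t ht
        rw [Set.uIcc_of_le one_le_two] at ht
        rw [hρ1 t ht.1, zero_mul]
      rw [intervalIntegral.integral_congr this]
      simp
    rw [e1, e2, add_zero]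
  have hM0 : 0 ≤ M := (norm_nonneg _).trans (hM 0 ⟨le_rfl, zero_le_one⟩)
  have hC : ∀ x, ct g x ≤ 2 * M + 1 := by
    intro x
    unfold ct
    have h2 : ‖∫ t in (0 : ℝ)..1, g t * Real.cos (2 * Real.pi * x * t)‖ ≤ M * |1 - 0| := by
      apply intervalIntegral.norm_integral_le_of_norm_le_const
      intro t ht
      rw [Set.uIoc_of_le zero_le_one] at ht
      rw [norm_mul]
      have h3 := hM t ⟨ht.1.le, ht.2⟩
      have h4 : ‖Real.cos (2 * Real.pi * x * t)‖ ≤ 1 := by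
        rw [Real.norm_eq_abs]; exact Real.abs_cos_le_one _
      calc ‖g t‖ * ‖Real.cos (2 * Real.pi * x * t)‖ ≤ M * 1 := by gcongr
        _ = M := mul_one M
    rw [sub_zero, abs_one, mul_one] at h2
    have h5 := (Real.le_norm_self _).trans h2
    linarith
  have hI1 : ∫ t in (0 : ℝ)..1, t * ρ t = ∫ t in (0 : ℝ)..1, t * g t := by
    apply intervalIntegral.integral_congr
    intro t ht
    rw [Set.uIcc_of_le zero_le_one] at ht
    simp only
    rw [hρ01 t ht.1 ht.2]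
  have hI3 : ∫ ξ in (1 : ℝ)..(3 / 2), (3 / 2 - ξ) * ρ ξ = 0 := by
    have : ∀ t ∈ Set.uIcc (1 : ℝ) (3 / 2), (3 / 2 - t) * ρ t = 0 := by
      intro t ht
      rw [Set.uIcc_of_le (by norm_num)] at ht
      rw [hρ1 t ht.1, mul_zero]
    rw [intervalIntegral.integral_congr this]
    simp
  have hmom : mom g = ρ 0 + 2 * ∫ t in (0 : ℝ)..1, t * ρ t := by
    unfold mom
    rw [hI1, hρ01 0 le_rfl zero_le_one]
  obtain ⟨T0, hT0⟩ := win hRH (κ := (mom g - ct g 0) / 2) (C := 2 * M + 1) hlip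
    (fun x hx => hρ1 x (by linarith)) (fun x hx => (hρ1 x hx).ge) hα hβ0 hβ
    (fun x hx hx' => by rw [htr]; exact hr x hx hx') (by linarith)
    (fun x => by rw [htr]; exact hC x) (by linarith)
    (by rw [hI3, htr, mul_zero, add_zero, ← hmom]; linarith)
  exact ⟨(mom g - ct g 0) / 2 / (5 * (2 * M + 1)), by positivity, T0, hT0⟩

lemma NW_mono {T α β α' β' : ℝ} (hT : 1 < T) (hα : α' ≤ α) (hβ : β ≤ β') :
    (NW T α β : ℝ) ≤ NW T α' β' := by
  rw [NW_eq, NW_eq]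
  have hlog : 0 < Real.log T := Real.log_pos hT
  have hpi := Real.pi_pos
  apply Finset.sum_le_sum
  intro s _
  apply Finset.sum_le_sum
  intro s' _
  have hm : 0 ≤ H343.ZSide.mz s * H343.ZSide.mz s' := mul_nonneg (mz_nonneg s) (mz_nonneg s')
  by_cases h : 2 * Real.pi * α / Real.log T < s.im - s'.im ∧
      s.im - s'.im < 2 * Real.pi * β / Real.log T
  · have h2 : 2 * Real.pi * α' / Real.log T < s.im - s'.im ∧
        s.im - s'.im < 2 * Real.pi * β' / Real.log T := by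
      constructor
      · refine lt_of_le_of_lt ?_ h.1
        gcongr
      · refine lt_of_lt_of_le h.2 ?_
        gcongr
    rw [if_pos h, if_pos h2]
  · rw [if_neg h]
    split_ifs <;> [exact hm; exact le_rfl]

lemma cd_g0 : ContDiff ℝ 1 g0 := by unfold g0; fun_prop
lemma cd_g1 (ν : ℝ) : ContDiff ℝ 1 (g1 ν) := by unfold g1; fun_prop
lemma cd_g2 (ν : ℝ) : ContDiff ℝ 1 (g2 ν) := by unfold g2; fun_prop

lemma cd_tn (ν n0 n1 n2 n3 : ℝ) : ContDiff ℝ 1 (tn ν n0 n1 n2 n3) := by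
  unfold tn
  have h1 := cd_g1 ν
  have h2 := cd_g2 ν
  have h3 := cd_g1 (ν + 1)
  have h4 := cd_g2 (ν + 1)
  fun_prop

lemma cd_GO (l α : ℝ) : ContDiff ℝ 1 (GO l α) := by
  unfold GO
  have h0 := cd_g0
  have h1 := cd_g1 1
  have h2 := cd_g2 1
  fun_prop

lemma G0_nonpos {ν l α : ℝ} (h : HI ν) (hα : 0 ≤ α) (hl : 0 ≤ l) :
    ∀ x, 0 ≤ x → (x ≤ α ∨ α + l ≤ x) → ct (G0 ν l α) x ≤ 0 := by
  have e : (fun t => G0 ν l α t) = tn ν (-(α ^ 2 * (α + l) ^ 2)) (α ^ 2 + (α + l) ^ 2) (-1) 0 := rfl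
  intro x hx hx'
  show ct (tn ν (-(α ^ 2 * (α + l) ^ 2)) (α ^ 2 + (α + l) ^ 2) (-1) 0) x ≤ 0
  refine tn_nonpos h ?_ (by linarith) x hx hx'
  intro p hp hp'
  unfold Nv
  have e : -(α ^ 2 * (α + l) ^ 2) + (α ^ 2 + (α + l) ^ 2) * p + -1 * p ^ 2 + 0 * p ^ 3 =
      (p - α ^ 2) * ((α + l) ^ 2 - p) := by ring
  rw [e]
  have h2 : α ^ 2 ≤ (α + l) ^ 2 := pow_le_pow_left₀ hα (by linarith) 2
  rcases hp' with h3 | h3
  · exact mul_nonpos_of_nonpos_of_nonneg (by linarith) (by linarith)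
  · exact mul_nonpos_of_nonneg_of_nonpos (by linarith) (by linarith)

lemma G1_nonpos {ν l α : ℝ} (h : HI ν) (hα : 0 ≤ α) (hl : 0 ≤ l) :
    ∀ x, 0 ≤ x → (x ≤ α ∨ α + l ≤ x) → ct (G1 ν l α) x ≤ 0 := by
  intro x hx hx'
  show ct (tn ν 0 (-(α ^ 2 * (α + l) ^ 2)) (α ^ 2 + (α + l) ^ 2) (-1)) x ≤ 0
  refine tn_nonpos h ?_ (by linarith) x hx hx'
  intro p hp hp'
  unfold Nv
  have e : 0 + -(α ^ 2 * (α + l) ^ 2) * p + (α ^ 2 + (α + l) ^ 2) * p ^ 2 + -1 * p ^ 3 =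
      p * ((p - α ^ 2) * ((α + l) ^ 2 - p)) := by ring
  rw [e]
  have h2 : α ^ 2 ≤ (α + l) ^ 2 := pow_le_pow_left₀ hα (by linarith) 2
  apply mul_nonpos_of_nonneg_of_nonpos hp
  rcases hp' with h3 | h3
  · exact mul_nonpos_of_nonpos_of_nonneg (by linarith) (by linarith)
  · exact mul_nonpos_of_nonneg_of_nonpos (by linarith) (by linarith)

/-- positivity of the window starting at `α` -/
def PW (α β c : ℝ) : Prop := ∃ T0 : ℝ, ∀ T : ℝ, T0 ≤ T → c * MT T ≤ NW T α β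

theorem winA_all (hRH : RiemannHypothesis) {α : ℝ} (h0 : 0 ≤ α) (h1 : α ≤ 272 / 100) {β' : ℝ}
    (hβ' : α + 10595 / 10000 < β') : ∃ c : ℝ, 0 < c ∧ PW α β' c := by
  have hl : (0 : ℝ) ≤ 10595 / 10000 := by norm_num
  have hβ0 : 0 < α + 10595 / 10000 := by linarith
  rcases le_total α (33 / 50) with c0 | c0
  · exact winA hRH (cd_GO _ _) (GO_one _ _) h0 hβ0 hβ' (GO_nonpos h0 hl) (kapO h0 c0)
  rcases le_total α (27 / 25) with c1 | c1
  · exact winA hRH (cd_tn _ _ _ _ _) (tn_one hi_0 _ _ _ _) h0 hβ0 hβ' (G0_nonpos hi_0 h0 hl)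
      (kap0 c0 c1)
  rcases le_total α (27 / 20) with c2 | c2
  · exact winA hRH (cd_tn _ _ _ _ _) (tn_one hi_1 _ _ _ _) h0 hβ0 hβ' (G1_nonpos hi_1 h0 hl)
      (kap1 c1 c2)
  rcases le_total α (79 / 50) with c3 | c3
  · exact winA hRH (cd_tn _ _ _ _ _) (tn_one hi_2 _ _ _ _) h0 hβ0 hβ' (G0_nonpos hi_2 h0 hl)
      (kap2 c2 c3)
  rcases le_total α (179 / 100) with c4 | c4
  · exact winA hRH (cd_tn _ _ _ _ _) (tn_one hi_3 _ _ _ _) h0 hβ0 hβ' (G1_nonpos hi_3 h0 hl)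
      (kap3 c3 c4)
  rcases le_total α (52 / 25) with c5 | c5
  · exact winA hRH (cd_tn _ _ _ _ _) (tn_one hi_4 _ _ _ _) h0 hβ0 hβ' (G0_nonpos hi_4 h0 hl)
      (kap4 c4 c5)
  rcases le_total α (9 / 4) with c6 | c6
  · exact winA hRH (cd_tn _ _ _ _ _) (tn_one hi_5 _ _ _ _) h0 hβ0 hβ' (G1_nonpos hi_5 h0 hl)
      (kap5 c5 c6)
  rcases le_total α (129 / 50) with c7 | c7
  · exact winA hRH (cd_tn _ _ _ _ _) (tn_one hi_6 _ _ _ _) h0 hβ0 hβ' (G0_nonpos hi_6 h0 hl)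
      (kap6 c6 c7)
  · exact winA hRH (cd_tn _ _ _ _ _) (tn_one hi_7 _ _ _ _) h0 hβ0 hβ' (G1_nonpos hi_7 h0 hl)
      (kap7 c7 (by linarith))

lemma PW_mono {α β α' β' c c' : ℝ} (h : PW α β c) (hα : α' ≤ α) (hβ : β ≤ β') (hc : c' ≤ c) :
    PW α' β' c' := by
  obtain ⟨T0, hT0⟩ := h
  refine ⟨max T0 2, fun T hT => ?_⟩
  have h1 := hT0 T ((le_max_left _ _).trans hT)
  have hT2 : 2 ≤ T := (le_max_right _ _).trans hT
  have h2 := NW_mono (T := T) (by linarith) hα hβ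
  have h3 := MT_nonneg (T := T) (by linarith)
  have h4 : c' * MT T ≤ c * MT T := mul_le_mul_of_nonneg_right hc h3
  linarith

lemma finite_min {P : ℕ → ℝ → Prop} (hmono : ∀ j c c', P j c → c' ≤ c → P j c') (N : ℕ)
    (h : ∀ j, j ≤ N → ∃ c : ℝ, 0 < c ∧ P j c) : ∃ c : ℝ, 0 < c ∧ ∀ j, j ≤ N → P j c := by
  induction N with
  | zero =>
    obtain ⟨c, hc, hP⟩ := h 0 le_rfl
    exact ⟨c, hc, fun j hj => by rw [Nat.le_zero.1 hj]; exact hP⟩
  | succ N ih =>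
    obtain ⟨c1, hc1, hP1⟩ := ih fun j hj => h j (by omega)
    obtain ⟨c2, hc2, hP2⟩ := h (N + 1) le_rfl
    refine ⟨min c1 c2, lt_min hc1 hc2, fun j hj => ?_⟩
    rcases Nat.lt_or_ge j (N + 1) with h3 | h3
    · exact hmono j c1 _ (hP1 j (by omega)) (min_le_left _ _)
    · have : j = N + 1 := by omega
      rw [this]
      exact hmono _ c2 _ hP2 (min_le_right _ _)

/-- uniform statement for `0 ≤ α ≤ 2.71` -/
theorem near (hRH : RiemannHypothesis) : ∃ c : ℝ, 0 < c ∧ ∀ α : ℝ, 0 ≤ α → α ≤ 271 / 100 →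
    PW α (α + 106 / 100) c := by
  obtain ⟨c, hc, h⟩ := finite_min (P := fun j c => PW ((j : ℝ) / 2500)
    ((j : ℝ) / 2500 + 10596 / 10000) c) (fun j c c' h1 h2 => PW_mono h1 le_rfl le_rfl h2) 6800
    (fun j hj => by
      have h1 : (j : ℝ) ≤ 6800 := by exact_mod_cast hj
      exact winA_all hRH (by positivity) (by rw [div_le_iff₀ (by norm_num)]; linarith)
        (by linarith))
  refine ⟨c, hc, fun α h0 h1 => ?_⟩
  have h2 : α * 2500 ≤ (⌈α * 2500⌉₊ : ℝ) := Nat.le_ceil _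
  have h3 : (⌈α * 2500⌉₊ : ℝ) < α * 2500 + 1 := Nat.ceil_lt_add_one (by positivity)
  have h4 : ⌈α * 2500⌉₊ ≤ 6800 := by
    rw [Nat.ceil_le]
    push_cast
    linarith
  refine PW_mono (h _ h4) ?_ ?_ le_rfl
  · rw [le_div_iff₀ (by norm_num)]; exact h2
  · have h5 : (⌈α * 2500⌉₊ : ℝ) / 2500 ≤ α + 1 / 2500 := by
      rw [div_le_iff₀ (by norm_num)]; linarith
    linarith

end Pool.Agent.TH873.EW
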