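import Pool.Agent.TH873.EW.Mom

/-!
# Kernels with two double poles
-/

open MeasureTheory intervalIntegral

namespace Pool.Agent.TH873.EW

lemma cont_g0 : Continuous g0 := by unfold g0; fun_prop
lemma cont_g1 (ν : ℝ) : Continuous (g1 ν) := by unfold g1; fun_prop
lemma cont_g2 (ν : ℝ) : Continuous (g2 ν) := by unfold g2; fun_prop

lemma ct_add {f g : ℝ → ℝ} (hf : Continuous f) (hg : Continuous g) (x : ℝ) :
    ct (fun t => f t + g t) x = ct f x + ct g x := by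
  unfold ct
  have c1 : Continuous fun t => f t * Real.cos (2 * Real.pi * x * t) := by fun_prop
  have c2 : Continuous fun t => g t * Real.cos (2 * Real.pi * x * t) := by fun_prop
  rw [← mul_add, ← intervalIntegral.integral_add (c1.intervalIntegrable _ _)
    (c2.intervalIntegrable _ _)]
  congr 1
  apply intervalIntegral.integral_congr
  intro t _
  simp only
  ring

lemma ct_smul (c : ℝ) (f : ℝ → ℝ) (x : ℝ) : ct (fun t => c * f t) x = c * ct f x := by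
  unfold ct
  have e : ∫ t in (0 : ℝ)..1, (fun t => c * f t) t * Real.cos (2 * Real.pi * x * t) =
      c * ∫ t in (0 : ℝ)..1, f t * Real.cos (2 * Real.pi * x * t) := by
    rw [← intervalIntegral.integral_const_mul]
    apply intervalIntegral.integral_congr
    intro t _
    simp only
    ring
  rw [e]
  ring

lemma mom_add {f g : ℝ → ℝ} (hf : Continuous f) (hg : Continuous g) :
    mom (fun t => f t + g t) = mom f + mom g := by
  unfold mom
  have e : ∫ t in (0 : ℝ)..1, t * (f t + g t) = (∫ t in (0 : ℝ)..1, t * f t) +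
      ∫ t in (0 : ℝ)..1, t * g t := by
    have c1 : Continuous fun t => t * f t := by fun_prop
    have c2 : Continuous fun t => t * g t := by fun_prop
    rw [← intervalIntegral.integral_add (c1.intervalIntegrable _ _) (c2.intervalIntegrable _ _)]
    apply intervalIntegral.integral_congr
    intro t _
    simp only
    ring
  rw [e]
  ring

lemma mom_smul (c : ℝ) (f : ℝ → ℝ) : mom (fun t => c * f t) = c * mom f := by
  unfold mom
  have e : ∫ t in (0 : ℝ)..1, t * (c * f t) = c * ∫ t in (0 : ℝ)..1, t * f t := by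
    rw [← intervalIntegral.integral_const_mul]
    apply intervalIntegral.integral_congr
    intro t _
    simp only
    ring
  rw [e]
  ring

/-- cubic polynomial -/
def Nv (n0 n1 n2 n3 p : ℝ) : ℝ := n0 + n1 * p + n2 * p ^ 2 + n3 * p ^ 3
/-- its derivative -/
def Nd (n1 n2 n3 p : ℝ) : ℝ := n1 + 2 * n2 * p + 3 * n3 * p ^ 2

/-- coefficient of the double pole at `ν²` -/
noncomputable def cB (ν n0 n1 n2 n3 : ℝ) : ℝ := Nv n0 n1 n2 n3 (ν ^ 2) / (2 * ν + 1) ^ 2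
/-- coefficient of the simple pole at `ν²` -/
noncomputable def cC (ν n0 n1 n2 n3 : ℝ) : ℝ := Nd n1 n2 n3 (ν ^ 2) / (2 * ν + 1) ^ 2 +
  2 * Nv n0 n1 n2 n3 (ν ^ 2) / (2 * ν + 1) ^ 3
/-- coefficient of the double pole at `(ν+1)²` -/
noncomputable def dB (ν n0 n1 n2 n3 : ℝ) : ℝ := Nv n0 n1 n2 n3 ((ν + 1) ^ 2) / (2 * ν + 1) ^ 2
/-- coefficient of the simple pole at `(ν+1)²` -/
noncomputable def dC (ν n0 n1 n2 n3 : ℝ) : ℝ := Nd n1 n2 n3 ((ν + 1) ^ 2) / (2 * ν + 1) ^ 2 -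
  2 * Nv n0 n1 n2 n3 ((ν + 1) ^ 2) / (2 * ν + 1) ^ 3

/-- the transform of `S(x) N(x²) / ((ν² - x²)² ((ν+1)² - x²)²)` -/
noncomputable def tn (ν n0 n1 n2 n3 t : ℝ) : ℝ :=
  (cB ν n0 n1 n2 n3 * g2 ν t + -cC ν n0 n1 n2 n3 * g1 ν t) +
    (dB ν n0 n1 n2 n3 * g2 (ν + 1) t + -dC ν n0 n1 n2 n3 * g1 (ν + 1) t)

lemma cont_tn (ν n0 n1 n2 n3 : ℝ) : Continuous (tn ν n0 n1 n2 n3) := by
  unfold tn
  have h1 := cont_g1 ν
  have h2 := cont_g2 ν
  have h3 := cont_g1 (ν + 1)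
  have h4 := cont_g2 (ν + 1)
  fun_prop

lemma HI.succ {ν : ℝ} (h : HI ν) : HI (ν + 1) := by
  obtain ⟨k, hk, h⟩ := h
  refine ⟨k + 2, by omega, ?_⟩
  push_cast
  linarith

lemma SS_succ (ν x : ℝ) : SS (ν + 1) x = SS ν x := by
  unfold SS
  rw [show Real.pi * (ν + 1 - x) = Real.pi * (ν - x) + Real.pi by ring, Real.sin_add_pi, neg_sq]

lemma ct_lin4 {f1 f2 f3 f4 : ℝ → ℝ} (h1 : Continuous f1) (h2 : Continuous f2) (h3 : Continuous f3)
    (h4 : Continuous f4) (c1 c2 c3 c4 x : ℝ) :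
    ct (fun t => (c1 * f1 t + c2 * f2 t) + (c3 * f3 t + c4 * f4 t)) x =
      (c1 * ct f1 x + c2 * ct f2 x) + (c3 * ct f3 x + c4 * ct f4 x) := by
  rw [ct_add (f := fun t => c1 * f1 t + c2 * f2 t) (g := fun t => c3 * f3 t + c4 * f4 t)
      (by fun_prop) (by fun_prop),
    ct_add (f := fun t => c1 * f1 t) (g := fun t => c2 * f2 t) (by fun_prop) (by fun_prop),
    ct_add (f := fun t => c3 * f3 t) (g := fun t => c4 * f4 t) (by fun_prop) (by fun_prop),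
    ct_smul, ct_smul, ct_smul, ct_smul]

lemma mom_lin4 {f1 f2 f3 f4 : ℝ → ℝ} (h1 : Continuous f1) (h2 : Continuous f2) (h3 : Continuous f3)
    (h4 : Continuous f4) (c1 c2 c3 c4 : ℝ) :
    mom (fun t => (c1 * f1 t + c2 * f2 t) + (c3 * f3 t + c4 * f4 t)) =
      (c1 * mom f1 + c2 * mom f2) + (c3 * mom f3 + c4 * mom f4) := by
  rw [mom_add (f := fun t => c1 * f1 t + c2 * f2 t) (g := fun t => c3 * f3 t + c4 * f4 t)
      (by fun_prop) (by fun_prop),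
    mom_add (f := fun t => c1 * f1 t) (g := fun t => c2 * f2 t) (by fun_prop) (by fun_prop),
    mom_add (f := fun t => c3 * f3 t) (g := fun t => c4 * f4 t) (by fun_prop) (by fun_prop),
    mom_smul, mom_smul, mom_smul, mom_smul]

lemma ct_tn {ν : ℝ} (h : HI ν) (n0 n1 n2 n3 : ℝ) {x : ℝ} (hx1 : ν ^ 2 - x ^ 2 ≠ 0)
    (hx2 : (ν + 1) ^ 2 - x ^ 2 ≠ 0) : ct (tn ν n0 n1 n2 n3) x =
      SS ν x * Nv n0 n1 n2 n3 (x ^ 2) / ((ν ^ 2 - x ^ 2) ^ 2 * ((ν + 1) ^ 2 - x ^ 2) ^ 2) := by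
  have hν := h.pos
  unfold tn
  rw [ct_lin4 (cont_g2 ν) (cont_g1 ν) (cont_g2 (ν + 1)) (cont_g1 (ν + 1)), ct_g2 h hx1, ct_g1 h hx1,
    ct_g2 h.succ hx2, ct_g1 h.succ hx2, SS_succ]
  have hD : 2 * ν + 1 ≠ 0 := by positivity
  unfold cB cC dB dC Nv Nd
  rw [eq_div_iff (by positivity)]
  field_simp
  ring

lemma mom_tn {ν : ℝ} (h : HI ν) (n0 n1 n2 n3 : ℝ) : mom (tn ν n0 n1 n2 n3) =
    (cB ν n0 n1 n2 n3 * mom (g2 ν) + -cC ν n0 n1 n2 n3 * mom (g1 ν)) +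
    (dB ν n0 n1 n2 n3 * mom (g2 (ν + 1)) + -dC ν n0 n1 n2 n3 * mom (g1 (ν + 1))) := by
  unfold tn
  rw [mom_lin4 (cont_g2 ν) (cont_g1 ν) (cont_g2 (ν + 1)) (cont_g1 (ν + 1))]

lemma g1_one {ν : ℝ} (h : HI ν) : g1 ν 1 = 0 := by
  unfold g1
  rw [mul_one, trig_HI h, mul_zero]

lemma g2_one {ν : ℝ} (h : HI ν) : g2 ν 1 = 0 := by
  unfold g2
  rw [mul_one, trig_HI h]
  ring

lemma tn_one {ν : ℝ} (h : HI ν) (n0 n1 n2 n3 : ℝ) : tn ν n0 n1 n2 n3 1 = 0 := by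
  unfold tn
  rw [g1_one h, g2_one h, g1_one h.succ, g2_one h.succ]
  ring

lemma ct_cont {g : ℝ → ℝ} (hg : Continuous g) : Continuous (ct g) := by
  unfold ct
  refine continuous_const.mul ?_
  apply intervalIntegral.continuous_parametric_intervalIntegral_of_continuous'
  have : Continuous fun p : ℝ × ℝ => g p.2 * Real.cos (2 * Real.pi * p.1 * p.2) := by fun_prop
  exact this

/-- a continuous function which is nonpositive on an interval up to finitely many points -/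
lemma nonpos_Icc {f : ℝ → ℝ} (hf : Continuous f) {c d : ℝ} (hcd : c < d) {F : Set ℝ}
    (hF : F.Finite) (h : ∀ x ∈ Set.Ioo c d, x ∉ F → f x ≤ 0) : ∀ x ∈ Set.Icc c d, f x ≤ 0 := by
  have h1 : Dense Fᶜ := hF.countable.dense_compl ℝ
  have h2 : Set.Ioo c d ⊆ closure (Set.Ioo c d ∩ Fᶜ) := h1.open_subset_closure_inter isOpen_Ioo
  have h3 : Set.Icc c d ⊆ closure (Set.Ioo c d ∩ Fᶜ) := by
    rw [← closure_Ioo hcd.ne]
    exact closure_minimal h2 isClosed_closure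
  have h4 : closure (Set.Ioo c d ∩ Fᶜ) ⊆ {x | f x ≤ 0} :=
    closure_minimal (fun x hx => h x hx.1 hx.2) (isClosed_le hf continuous_const)
  exact fun x hx => h4 (h3 hx)

/-- sign of a kernel away from the window -/
lemma nonpos_out {f : ℝ → ℝ} (hf : Continuous f) {α β : ℝ} {F : Set ℝ} (hF : F.Finite)
    (h0 : f 0 ≤ 0)
    (h : ∀ x, 0 ≤ x → (x ≤ α ∨ β ≤ x) → x ∉ F → f x ≤ 0) :
    ∀ x, 0 ≤ x → (x ≤ α ∨ β ≤ x) → f x ≤ 0 := by
  intro x hx0 hx
  rcases hx with hx | hx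
  · rcases hx0.eq_or_lt with h1 | h1
    · rw [← h1]; exact h0
    · exact nonpos_Icc hf (lt_of_lt_of_le h1 hx) hF
        (fun y hy hyF => h y hy.1.le (Or.inl hy.2.le) hyF) x ⟨hx0, hx⟩
  · exact nonpos_Icc hf (lt_add_one x) hF
      (fun y hy hyF => h y (hx0.trans hy.1.le) (Or.inr (hx.trans hy.1.le)) hyF) x
      ⟨le_rfl, (lt_add_one x).le⟩

lemma sing_finite (a b : ℝ) : {x : ℝ | a ^ 2 - x ^ 2 = 0 ∨ b ^ 2 - x ^ 2 = 0}.Finite := by
  have : {x : ℝ | a ^ 2 - x ^ 2 = 0 ∨ b ^ 2 - x ^ 2 = 0} ⊆ {a, -a, b, -b} := by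
    rintro x (h | h)
    · rcases sq_eq_sq_iff_eq_or_eq_neg.mp (by linarith : x ^ 2 = a ^ 2) with h | h <;> simp [h]
    · rcases sq_eq_sq_iff_eq_or_eq_neg.mp (by linarith : x ^ 2 = b ^ 2) with h | h <;> simp [h]
  exact Set.Finite.subset (by simp) this

lemma tn_nonpos {ν : ℝ} (h : HI ν) {n0 n1 n2 n3 α β : ℝ}
    (hN : ∀ p, 0 ≤ p → (p ≤ α ^ 2 ∨ β ^ 2 ≤ p) → Nv n0 n1 n2 n3 p ≤ 0) (hβ : 0 ≤ β) :
    ∀ x, 0 ≤ x → (x ≤ α ∨ β ≤ x) → ct (tn ν n0 n1 n2 n3) x ≤ 0 := by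
  have hν := h.pos
  have key : ∀ x, 0 ≤ x → (x ≤ α ∨ β ≤ x) → ν ^ 2 - x ^ 2 ≠ 0 → (ν + 1) ^ 2 - x ^ 2 ≠ 0 →
      ct (tn ν n0 n1 n2 n3) x ≤ 0 := by
    intro x hx hx1 hx2 hx3
    rw [ct_tn h n0 n1 n2 n3 hx2 hx3]
    apply div_nonpos_of_nonpos_of_nonneg _ (by positivity)
    apply mul_nonpos_of_nonneg_of_nonpos (SS_nonneg _ _)
    apply hN _ (sq_nonneg x)
    rcases hx1 with h1 | h1
    · left; exact pow_le_pow_left₀ hx h1 2
    · right; exact pow_le_pow_left₀ hβ h1 2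
  by_cases hα : 0 ≤ α
  · refine nonpos_out (ct_cont (cont_tn ν n0 n1 n2 n3)) (sing_finite ν (ν + 1)) ?_ ?_
    · exact key 0 le_rfl (Or.inl hα) (by rw [zero_pow two_ne_zero, sub_zero]; positivity)
        (by rw [zero_pow two_ne_zero, sub_zero]; positivity)
    · intro x hx hx1 hxF
      simp only [Set.mem_ofPred_eq, not_or] at hxF
      exact key x hx hx1 hxF.1 hxF.2
  · intro x hx hx1
    rcases hx1 with h1 | h1
    · linarith
    · exact nonpos_Icc (ct_cont (cont_tn ν n0 n1 n2 n3)) (lt_add_one x) (sing_finite ν (ν + 1))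
        (fun y hy hyF => by
          simp only [Set.mem_ofPred_eq, not_or] at hyF
          exact key y (hx.trans hy.1.le) (Or.inr (h1.trans hy.1.le)) hyF.1 hyF.2) x
        ⟨le_rfl, (lt_add_one x).le⟩

end Pool.Agent.TH873.EW
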