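import Pool.Agent.TH873.EW.CB4

/-!
# Windows of length `0.935 + 1 / (3 α)` and long windows
-/

open Filter Topology Set MeasureTheory

namespace Pool.Agent.TH873.EW

/-- windows from class B with a uniform constant -/
theorem winC (hRH : RiemannHypothesis) {l l' α κ : ℝ} (hl0 : 9 / 10 ≤ l) (hl1 : l ≤ 106 / 100)
    (hll : l < l') (hα : 0 ≤ α) (hκ0 : 0 < κ)
    (hκ : κ < Jinf (4 * l ^ 2) -
      2 * (bB (4 * l ^ 2) + R1 (4 * l ^ 2)) / (2 * Real.pi * (α + l / 2))) :
    PW α (α + l') (κ / 140) := by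
  obtain ⟨p1, p2, p3, p4, q1, q2, r1, r2, s1, s2⟩ := consts
  have hpi := Real.pi_pos
  set Λ : ℝ := 4 * l ^ 2 with hΛ
  have hΛ3 : 3 ≤ Λ := by nlinarith
  have hΛ5 : Λ ≤ 45 / 10 := by nlinarith
  have hΛ1 : 1 ≤ Λ := by linarith
  have h1 : 0 ≤ 4 * bB Λ - Real.pi * aA Λ / 2 := by
    unfold aA bB
    have e : 4 * ((Λ + 1) * Real.pi / 8) - Real.pi * ((Λ - 1) * Real.pi ^ 2 / 8) / 2 =
        Real.pi * ((Λ + 1) / 2 - (Λ - 1) * Real.pi ^ 2 / 16) := by ring
    rw [e]
    apply mul_nonneg hpi.le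
    nlinarith
  have h2 : 4 * bB Λ - Real.pi * aA Λ / 2 ≤ Real.pi * aA Λ / 2 := by
    unfold aA bB
    have e : Real.pi * ((Λ - 1) * Real.pi ^ 2 / 8) / 2 -
        (4 * ((Λ + 1) * Real.pi / 8) - Real.pi * ((Λ - 1) * Real.pi ^ 2 / 8) / 2) =
        Real.pi * ((Λ - 1) * Real.pi ^ 2 / 8 - (Λ + 1) / 2) := by ring
    rw [← sub_nonneg, e]
    apply mul_nonneg hpi.le
    nlinarith
  have hA := aA_nonneg hΛ1
  have hB := bB_pos hΛ1
  have hAB : aA Λ + bB Λ ≤ 7 := by
    unfold aA bB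
    nlinarith
  have hC : 0 < 4 * (aA Λ + bB Λ) := by linarith
  obtain ⟨K, hK⟩ := rhoB_lip hΛ1 (α + l / 2)
  have hs := rhoB_sign (l := l) hΛ3 (by linarith) hα
  rw [← hΛ] at hs
  have ha' : 0 < α + l / 2 := by linarith
  have hval := value hΛ1 h1 h2 ha'
  have hwin : PW α (α + l') (κ / (5 * (4 * (aA Λ + bB Λ)))) :=
    win hRH (κ := κ) (β := α + l) hK (fun x hx => rhoB_zero hx)
      (fun x hx => rhoB_nonneg hΛ1 hx) hα (by linarith) (by linarith) hs hC
      (fun x => rhoB_top hΛ3 _ x) hκ0.le (by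
        have := hs 0 le_rfl (Or.inl hα)
        linarith)
  refine PW_mono hwin le_rfl le_rfl ?_
  apply div_le_div_of_nonneg_left hκ0.le (by positivity)
  linarith

/-- the numerical inequality for `l = 0.9347 + u / 3`, `u = 1 / α` -/
lemma num3 {α : ℝ} (hα : 8 / 3 ≤ α) : (1 / 2500 : ℝ) <
    Jinf (4 * (9347 / 10000 + 1 / (3 * α)) ^ 2) -
    2 * (bB (4 * (9347 / 10000 + 1 / (3 * α)) ^ 2) + R1 (4 * (9347 / 10000 + 1 / (3 * α)) ^ 2)) /
      (2 * Real.pi * (α + (9347 / 10000 + 1 / (3 * α)) / 2)) := by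
  obtain ⟨p1, p2, p3, p4, q1, q2, r1, r2, s1, s2⟩ := consts
  have hpi := Real.pi_pos
  have hα0 : 0 < α := by linarith
  obtain ⟨u, hu⟩ : ∃ u, u = 1 / α := ⟨_, rfl⟩
  have hu0 : 0 < u := by rw [hu]; positivity
  have hu1 : u ≤ 3 / 8 := by
    rw [hu, div_le_iff₀ hα0]; linarith
  have hα' : α = 1 / u := by rw [hu]; field_simp
  have e0 : 1 / (3 * α) = u / 3 := by rw [hu]; field_simp
  rw [e0]
  set l : ℝ := 9347 / 10000 + u / 3 with hl
  have hl0 : 0 < l := by rw [hl]; positivity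
  set Λ : ℝ := 4 * l ^ 2 with hΛ
  have hΛ0 : 0 < Λ := by positivity
  -- lower bound for Jinf
  have hJ : -2.06596 + 0.59144 * Λ ≤ Jinf Λ := by
    rw [Jinf_eq]
    have hsq : Real.sqrt 2 * (1 / Real.pi) ≤ 1.41422 * 0.31831 :=
      mul_le_mul s2 q2 (by positivity) (by norm_num)
    have hsq' : 1.41421 * 0.318309 ≤ Real.sqrt 2 * (1 / Real.pi) :=
      mul_le_mul s1 q1 (by norm_num) (by positivity)
    have e : (Λ - 1) * Real.pi ^ 2 / 8 - (Λ + 1) * Real.pi / 4 -
        3 * (Λ - 1) * Real.pi / 8 - 2 * Λ +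
        (16 - 2 * Real.sqrt 2) * ((Λ + 1) / 4 + (Λ - 1) / 2) / Real.pi +
        Real.sqrt 2 * (Λ - 1) / 8 =
        (-Real.pi ^ 2 / 8 + Real.pi / 8 - 4 * (1 / Real.pi) +
          (Real.sqrt 2 * (1 / Real.pi)) / 2 - Real.sqrt 2 / 8) +
        (Real.pi ^ 2 / 8 - 5 * Real.pi / 8 - 2 + 12 * (1 / Real.pi) -
          3 * (Real.sqrt 2 * (1 / Real.pi)) / 2 + Real.sqrt 2 / 8) * Λ := by
      field_simp
      ring
    rw [e]
    have f1 : -2.06596 ≤ -Real.pi ^ 2 / 8 + Real.pi / 8 - 4 * (1 / Real.pi) +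
          (Real.sqrt 2 * (1 / Real.pi)) / 2 - Real.sqrt 2 / 8 := by linarith
    have f2 : 0.59144 ≤ Real.pi ^ 2 / 8 - 5 * Real.pi / 8 - 2 + 12 * (1 / Real.pi) -
          3 * (Real.sqrt 2 * (1 / Real.pi)) / 2 + Real.sqrt 2 / 8 := by linarith
    have f3 := mul_le_mul_of_nonneg_right f2 hΛ0.le
    linarith
  -- upper bound for the oscillating part
  have hS : 2 * (bB Λ + R1 Λ) / (2 * Real.pi * (α + l / 2)) ≤
      (-0.135475 + 0.432836 * Λ) * u / (1 + u * l / 2) := by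
    rw [R1_eq]
    unfold bB
    have e : 2 * ((Λ + 1) * Real.pi / 8 + ((Λ - 1) * Real.pi / 4 + Real.pi / 4 -
        (Λ + 1) / Real.pi - 1 / 2 + (Λ - 1) / 4 + (Λ + 1) / 4)) /
        (2 * Real.pi * (α + l / 2)) =
        ((1 / 8 - 1 / Real.pi ^ 2 - 1 / 2 * (1 / Real.pi)) +
          (3 / 8 - 1 / Real.pi ^ 2 + 1 / 2 * (1 / Real.pi)) * Λ) * u / (1 + u * l / 2) := by
      rw [hα']
      field_simp
      ring
    rw [e]
    have hden : 0 < 1 + u * l / 2 := by positivity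
    apply div_le_div_of_nonneg_right _ hden.le
    apply mul_le_mul_of_nonneg_right _ hu0.le
    have f1 : 1 / 8 - 1 / Real.pi ^ 2 - 1 / 2 * (1 / Real.pi) ≤ -0.135475 := by linarith
    have f2 : 3 / 8 - 1 / Real.pi ^ 2 + 1 / 2 * (1 / Real.pi) ≤ 0.432836 := by linarith
    have f3 := mul_le_mul_of_nonneg_right f2 hΛ0.le
    linarith
  have hden : 0 < 1 + u * l / 2 := by positivity
  have hmain : (1 / 2500 : ℝ) < (-2.06596 + 0.59144 * Λ) -
      (-0.135475 + 0.432836 * Λ) * u / (1 + u * l / 2) := by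
    rw [lt_sub_iff_add_lt, ← lt_sub_iff_add_lt', div_lt_iff₀ hden]
    rw [hΛ, hl]
    have g1 : 0 ≤ u * (3 / 8 - u) := mul_nonneg hu0.le (by linarith)
    have g2 : 0 ≤ u ^ 3 := by positivity
    have g3 : 0 ≤ u ^ 4 := by positivity
    nlinarith
  linarith

/-- windows of length `0.935 + 1 / (3 α)` -/
theorem farC (hRH : RiemannHypothesis) {α : ℝ} (hα : 8 / 3 ≤ α) :
    PW α (α + (935 / 1000 + 1 / (3 * α))) (1 / 350000) := by
  have hα0 : 0 < α := by linarith
  have h1 : 1 / (3 * α) ≤ 125 / 1000 := by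
    rw [div_le_iff₀ (by positivity)]; linarith
  have h2 : 0 < 1 / (3 * α) := by positivity
  have h := winC hRH (l := 9347 / 10000 + 1 / (3 * α)) (l' := 935 / 1000 + 1 / (3 * α)) (α := α)
    (κ := 1 / 2500) (by linarith) (by linarith) (by linarith) hα0.le (by norm_num)
    (num3 (by linarith))
  norm_num at h ⊢
  exact h

lemma NW_add {T a b c : ℝ} (hT : 1 < T) (hab : a ≤ b) (hbc : b ≤ c) :
    (NW T a b : ℝ) + NW T b c ≤ NW T a c := by
  rw [NW_eq, NW_eq, NW_eq, ← Finset.sum_add_distrib]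
  have hlog : 0 < Real.log T := Real.log_pos hT
  have hpi := Real.pi_pos
  apply Finset.sum_le_sum
  intro s _
  rw [← Finset.sum_add_distrib]
  apply Finset.sum_le_sum
  intro s' _
  have hm : 0 ≤ H343.ZSide.mz s * H343.ZSide.mz s' := mul_nonneg (mz_nonneg s) (mz_nonneg s')
  have hab' : 2 * Real.pi * a / Real.log T ≤ 2 * Real.pi * b / Real.log T := by gcongr
  have hbc' : 2 * Real.pi * b / Real.log T ≤ 2 * Real.pi * c / Real.log T := by gcongr
  by_cases h1 : 2 * Real.pi * a / Real.log T < s.im - s'.im ∧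
      s.im - s'.im < 2 * Real.pi * b / Real.log T
  · have h2 : ¬ (2 * Real.pi * b / Real.log T < s.im - s'.im ∧
        s.im - s'.im < 2 * Real.pi * c / Real.log T) := fun h => by linarith [h.1, h1.2]
    have h3 : 2 * Real.pi * a / Real.log T < s.im - s'.im ∧
        s.im - s'.im < 2 * Real.pi * c / Real.log T := ⟨h1.1, h1.2.trans_le hbc'⟩
    rw [if_pos h1, if_neg h2, if_pos h3, add_zero]
  · rw [if_neg h1, zero_add]
    by_cases h2 : 2 * Real.pi * b / Real.log T < s.im - s'.im ∧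
        s.im - s'.im < 2 * Real.pi * c / Real.log T
    · have h3 : 2 * Real.pi * a / Real.log T < s.im - s'.im ∧
          s.im - s'.im < 2 * Real.pi * c / Real.log T := ⟨lt_of_le_of_lt hab' h2.1, h2.2⟩
      rw [if_pos h2, if_pos h3]
    · rw [if_neg h2]
      split_ifs <;> [exact hm; exact le_rfl]

lemma PW_add {a b c x y : ℝ} (hab : a ≤ b) (hbc : b ≤ c) (h1 : PW a b x) (h2 : PW b c y) :
    PW a c (x + y) := by
  obtain ⟨T1, hT1⟩ := h1
  obtain ⟨T2, hT2⟩ := h2
  refine ⟨max (max T1 T2) 2, fun T hT => ?_⟩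
  have e1 := hT1 T (((le_max_left _ _).trans (le_max_left _ _)).trans hT)
  have e2 := hT2 T (((le_max_right _ _).trans (le_max_left _ _)).trans hT)
  have e3 : 2 ≤ T := (le_max_right _ _).trans hT
  have e4 := NW_add (T := T) (by linarith) hab hbc
  rw [add_mul]
  linarith

/-- the windows -/
theorem every2 (hRH : RiemannHypothesis) : ∃ c : ℝ, 0 < c ∧ ∀ α β : ℝ, 0 ≤ α →
    (α + 106 / 100 ≤ β ∨ (0 < α ∧ α + (935 / 1000 + 1 / (3 * α)) ≤ β)) →
    PW α β (c * (β - α)) := by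
  obtain ⟨c0, hc0, h0⟩ := every hRH
  set c1 : ℝ := min c0 (1 / 350000) with hc1
  have hc1pos : 0 < c1 := lt_min hc0 (by norm_num)
  -- long windows
  have hlong : ∀ n : ℕ, ∀ α : ℝ, 0 ≤ α →
      PW α (α + (n + 1) * (106 / 100)) ((n + 1) * c1) := by
    intro n
    induction n with
    | zero =>
      intro α hα
      have := PW_mono (h0 α hα) le_rfl le_rfl (min_le_left c0 (1 / 350000))
      rw [← hc1] at this
      simpa using this
    | succ n ih =>
      intro α hα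
      have e1 := PW_mono (h0 α hα) le_rfl le_rfl (min_le_left c0 (1 / 350000))
      have e2 := ih (α + 106 / 100) (by linarith)
      have e3 := PW_add (by linarith) (by
        have : (0 : ℝ) ≤ (n + 1) * (106 / 100) := by positivity
        linarith) e1 e2
      rw [← hc1] at e3
      push_cast
      have f1 : α + (n + 1 + 1 : ℝ) * (106 / 100) = α + 106 / 100 + (n + 1) * (106 / 100) := by ring
      have f2 : (n + 1 + 1 : ℝ) * c1 = c1 + (n + 1) * c1 := by ring
      rw [f1, f2]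
      exact e3
  have hgen : ∀ α β : ℝ, 0 ≤ α → α + 106 / 100 ≤ β → PW α β (c1 / 212 * 100 * (β - α)) := by
    intro α β hα hβ
    obtain ⟨n, hn⟩ : ∃ n : ℕ, n = ⌊(β - α) / (106 / 100) - 1⌋₊ := ⟨_, rfl⟩
    have hx : 0 ≤ (β - α) / (106 / 100) - 1 := by
      rw [sub_nonneg, le_div_iff₀ (by norm_num)]; linarith
    have h1 : (n : ℝ) ≤ (β - α) / (106 / 100) - 1 := by rw [hn]; exact Nat.floor_le hx
    have h2 : (β - α) / (106 / 100) - 1 < n + 1 := by rw [hn]; exact Nat.lt_floor_add_one _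
    have h3 : (n + 1 : ℝ) * (106 / 100) ≤ β - α := by
      have : (n + 1 : ℝ) ≤ (β - α) / (106 / 100) := by linarith
      rwa [le_div_iff₀ (by norm_num)] at this
    have h4 : β - α < (n + 2) * (106 / 100) := by
      have : (β - α) / (106 / 100) < n + 2 := by linarith
      rwa [div_lt_iff₀ (by norm_num)] at this
    refine PW_mono (hlong n α hα) le_rfl (by linarith) ?_
    have hn0 : (0 : ℝ) ≤ n := Nat.cast_nonneg n
    have h5 : β - α ≤ (n + 1) * (212 / 100) := by nlinarith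
    calc c1 / 212 * 100 * (β - α) ≤ c1 / 212 * 100 * ((n + 1) * (212 / 100)) := by
          gcongr
      _ = (n + 1) * c1 := by ring
  refine ⟨c1 / 212 * 100, by positivity, fun α β hα h => ?_⟩
  rcases h with h | ⟨hα0, h⟩
  · exact hgen α β hα h
  · rcases le_total (α + 106 / 100) β with h1 | h1
    · exact hgen α β hα h1
    · have h2 : 8 / 3 ≤ α ∨ α < 8 / 3 := le_or_gt _ _
      rcases h2 with h2 | h2
      · refine PW_mono (farC hRH h2) le_rfl h ?_
        have h3 : c1 ≤ 1 / 350000 := min_le_right _ _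
        have h4 : β - α ≤ 212 / 100 := by linarith
        have h5 : 0 ≤ β - α := by
          have : 0 < 1 / (3 * α) := by positivity
          linarith
        calc c1 / 212 * 100 * (β - α) ≤ c1 / 212 * 100 * (212 / 100) := by gcongr
          _ = c1 := by ring
          _ ≤ _ := h3
      · exfalso
        have h3 : 1 / 8 < 1 / (3 * α) := by
          rw [div_lt_div_iff₀ (by norm_num) (by positivity)]
          linarith
        linarith

end Pool.Agent.TH873.EW
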