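import Pool.Agent.TH873.EW.Fin

/-!
# All windows, on both sides of the origin
-/

open Filter Topology Set MeasureTheory

namespace Pool.Agent.TH873.EW

lemma NW_symm {T α β : ℝ} : (NW T (-β) (-α) : ℝ) = NW T α β := by
  rw [NW_eq, NW_eq, Finset.sum_comm]
  apply Finset.sum_congr rfl
  intro s _
  apply Finset.sum_congr rfl
  intro s' _
  have e1 : 2 * Real.pi * -β / Real.log T = -(2 * Real.pi * β / Real.log T) := by ring
  have e2 : 2 * Real.pi * -α / Real.log T = -(2 * Real.pi * α / Real.log T) := by ring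
  rw [e1, e2]
  have h : (-(2 * Real.pi * β / Real.log T) < s'.im - s.im ∧
      s'.im - s.im < -(2 * Real.pi * α / Real.log T)) ↔
      (2 * Real.pi * α / Real.log T < s.im - s'.im ∧
      s.im - s'.im < 2 * Real.pi * β / Real.log T) := by
    constructor
    · rintro ⟨h1, h2⟩
      constructor <;> linarith
    · rintro ⟨h1, h2⟩
      constructor <;> linarith
  by_cases hc : 2 * Real.pi * α / Real.log T < s.im - s'.im ∧
      s.im - s'.im < 2 * Real.pi * β / Real.log T
  · rw [if_pos hc, if_pos (h.2 hc), mul_comm]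
  · rw [if_neg hc, if_neg (fun h' => hc (h.1 h'))]

lemma PW_symm {α β c : ℝ} (h : PW α β c) : PW (-β) (-α) c := by
  obtain ⟨T0, hT0⟩ := h
  exact ⟨T0, fun T hT => by rw [NW_symm]; exact hT0 T hT⟩

/-- windows that contain the origin -/
lemma PW_diag (hRH : RiemannHypothesis) {α β : ℝ} (hα : α < 0) (hβ : 0 < β) : PW α β (1 / 8) := by
  obtain ⟨V0, hV0, h⟩ := psi_two hRH (φ := fun _ => 0) (K := 0) (μ := 1 / 2) (ε := 1 / 5) le_rfl
    (fun x y => by simp) (fun x => rfl) (fun x _ => rfl) (by norm_num) (by norm_num) (by norm_num)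
  refine ⟨2 * (V0 + 10), fun T hT => ?_⟩
  obtain ⟨V, rfl⟩ : ∃ V, T = 2 * V := ⟨T / 2, by ring⟩
  have hV : V0 + 10 ≤ V := by linarith
  have hV20 : 20 ≤ V := by linarith
  have hVpos : 0 < V := by linarith
  have h1 := (abs_le.1 (h V (by linarith)).1).1
  have hpi := Real.pi_pos
  have hlog : 0 < Real.log (2 * V) := Real.log_pos (by linarith)
  have hlogV : 0 < Real.log V := Real.log_pos (by linarith)
  have hlog2 : Real.log (2 * V) = Real.log 2 + Real.log V :=
    Real.log_mul (by norm_num) hVpos.ne'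
  have hlt : 2 * Real.log 2 ≤ Real.log V := by
    have e : 2 * Real.log 2 = Real.log 4 := by
      rw [show (4 : ℝ) = 2 ^ 2 by norm_num, Real.log_pow]; norm_num
    rw [e]
    exact Real.log_le_log (by norm_num) (by linarith)
  -- the diagonal
  have h2 : (H370.NN riemannZeta (V + 1) (2 * V - 1) : ℝ) ≤ NW (2 * V) α β := by
    rw [NW_eq]
    have e3 : (H370.NN riemannZeta (V + 1) (2 * V - 1) : ℝ) =
        ∑ z ∈ ZV V, H343.ZSide.mz z := by
      rw [H370.NN_eq H370.good_zeta (by linarith : (1 : ℝ) ≤ V + 1)]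
      unfold ZV H332B.Zb H343.ZSide.mz
      push_cast
      rfl
    rw [e3]
    have hm : ∀ s s' : ℂ, 0 ≤ H343.ZSide.mz s * H343.ZSide.mz s' := fun s s' =>
      mul_nonneg (mz_nonneg s) (mz_nonneg s')
    have hnn : ∀ s s' : ℂ, 0 ≤ (if 2 * Real.pi * α / Real.log (2 * V) < s.im - s'.im ∧
        s.im - s'.im < 2 * Real.pi * β / Real.log (2 * V)
        then H343.ZSide.mz s * H343.ZSide.mz s' else 0) := by
      intro s s'
      split_ifs <;> [exact hm s s'; exact le_rfl]
    calc ∑ z ∈ ZV V, H343.ZSide.mz z ≤ ∑ z ∈ (zeros_finite (2 * V)).toFinset,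
          H343.ZSide.mz z := Finset.sum_le_sum_of_subset_of_nonneg (ZV_sub (by linarith))
            fun z _ _ => mz_nonneg z
      _ ≤ _ := by
        apply Finset.sum_le_sum
        intro z hz
        refine le_trans ?_ (Finset.single_le_sum (fun s' _ => hnn z s') hz)
        have hc : 2 * Real.pi * α / Real.log (2 * V) < z.im - z.im ∧
            z.im - z.im < 2 * Real.pi * β / Real.log (2 * V) := by
          rw [sub_self]
          constructor
          · apply div_neg_of_neg_of_pos _ hlog
            exact mul_neg_of_pos_of_neg (by positivity) hα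
          · positivity
        rw [if_pos hc]
        exact mz_sq z
  refine le_trans ?_ h2
  have h3 : 4 / 5 * XV V ≤ (H370.NN riemannZeta (V + 1) (2 * V - 1) : ℝ) := by linarith
  refine le_trans ?_ h3
  unfold MT XV
  have e1 : 1 / 8 * (2 * V / (2 * Real.pi) * Real.log (2 * V)) =
      (1 / 4 * (V * Real.log (2 * V))) / (2 * Real.pi) := by ring
  have e2 : 4 / 5 * ((V - 2) * Real.log V / (2 * Real.pi)) =
      (4 / 5 * ((V - 2) * Real.log V)) / (2 * Real.pi) := by ring
  rw [e1, e2]
  apply div_le_div_of_nonneg_right _ (by positivity)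
  have h4 : Real.log (2 * V) ≤ 3 / 2 * Real.log V := by rw [hlog2]; linarith
  have h5 : V * Real.log (2 * V) ≤ V * (3 / 2 * Real.log V) := by gcongr
  have h6 : 9 / 10 * V * Real.log V ≤ (V - 2) * Real.log V := by
    apply mul_le_mul_of_nonneg_right _ hlogV.le
    linarith
  nlinarith

/-- the windows on both sides -/
theorem every3 (hRH : RiemannHypothesis) : ∃ c : ℝ, 0 < c ∧ ∀ α β : ℝ,
    (106 / 100 ≤ β - α ∨ (0 < α ∧ 935 / 1000 + 1 / (3 * α) ≤ β - α)) →
    PW α β (c * (β - α)) := by
  obtain ⟨c0, hc0, h0⟩ := every2 hRH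
  set c : ℝ := min (c0 / 2) (1 / 8 / (212 / 100)) with hc
  have hcpos : 0 < c := lt_min (by positivity) (by norm_num)
  have hc1 : c ≤ c0 / 2 := min_le_left _ _
  have hc2 : c ≤ 1 / 8 / (212 / 100) := min_le_right _ _
  -- nonnegative α
  have hpos : ∀ α β : ℝ, 0 ≤ α →
      (106 / 100 ≤ β - α ∨ (0 < α ∧ 935 / 1000 + 1 / (3 * α) ≤ β - α)) →
      PW α β (c * (β - α)) := by
    intro α β hα h
    have hba : 0 ≤ β - α := by
      rcases h with h | ⟨h1, h⟩
      · linarith
      · have : 0 < 1 / (3 * α) := by positivity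
        linarith
    refine PW_mono (h0 α β hα ?_) le_rfl le_rfl ?_
    · rcases h with h | ⟨h1, h⟩
      · left; linarith
      · right; exact ⟨h1, by linarith⟩
    · apply mul_le_mul_of_nonneg_right _ hba
      linarith
  -- windows around the origin, first the case `- α ≤ β`
  have hmid : ∀ α β : ℝ, α < 0 → 0 < β → -α ≤ β → PW α β (c * (β - α)) := by
    intro α β hα hβ hab
    rcases le_total (106 / 100) β with h | h
    · refine PW_mono (h0 0 β le_rfl (Or.inl (by linarith))) hα.le le_rfl ?_
      rw [sub_zero]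
      have h1 : β - α ≤ 2 * β := by linarith
      have h2 : 0 ≤ β - α := by linarith
      calc c * (β - α) ≤ c0 / 2 * (2 * β) := by gcongr
        _ = c0 * β := by ring
    · refine PW_mono (PW_diag hRH hα hβ) le_rfl le_rfl ?_
      have h1 : β - α ≤ 212 / 100 := by linarith
      have h2 : 0 ≤ β - α := by linarith
      calc c * (β - α) ≤ 1 / 8 / (212 / 100) * (212 / 100) := by gcongr
        _ = 1 / 8 := by norm_num
  refine ⟨c, hcpos, fun α β h => ?_⟩
  rcases le_or_gt 0 α with hα | hα
  · exact hpos α β hα h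
  · have h1 : 106 / 100 ≤ β - α := by
      rcases h with h | ⟨h1, h⟩
      · exact h
      · linarith
    rcases le_or_gt β 0 with hβ | hβ
    · have h2 := PW_symm (hpos (-β) (-α) (by linarith) (Or.inl (by linarith)))
      rw [neg_neg, neg_neg] at h2
      have e : -α - -β = β - α := by ring
      rw [e] at h2
      exact h2
    · rcases le_total (-α) β with h2 | h2
      · exact hmid α β hα hβ h2
      · have h3 := PW_symm (hmid (-β) (-α) (by linarith) (by linarith) (by linarith))
        rw [neg_neg, neg_neg] at h3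
        have e : -α - -β = β - α := by ring
        rw [e] at h3
        exact h3

end Pool.Agent.TH873.EW
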