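import Pool.Agent.TH873.EW.Psi
import Pool.Agent.H332B.PF

/-!
# Pairs of zeros in a window from a test function
-/

open Complex Filter Topology Set MeasureTheory
open scoped BigOperators

namespace Pool.Agent.TH873.EW

open H370 H370.AS H370.A2 H295SI

/-- cosine transform of a function on `[0, M]` -/
noncomputable def tr (ρ : ℝ → ℝ) (M x : ℝ) : ℝ :=
  2 * ∫ t in (0 : ℝ)..M, ρ t * Real.cos (2 * Real.pi * x * t)

/-- the zeros of the block -/
noncomputable def ZV (V : ℝ) : Finset ℂ := H332B.Zb (V + 1) (2 * V - 1)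

/-- the pair correlation function of the block -/
noncomputable def JN (V u : ℝ) : ℝ := H332B.Jb (V + 1) (2 * V - 1) u / Real.sqrt Real.pi

lemma JN_nonneg (V u : ℝ) : 0 ≤ JN V u := by
  unfold JN H332B.Jb JJ
  apply div_nonneg _ (Real.sqrt_nonneg _)
  exact MeasureTheory.integral_nonneg fun t => by positivity

lemma JN_cont {V : ℝ} (hV : 0 ≤ V) : Continuous (JN V) := by
  unfold JN H332B.Jb
  exact (JJ_cont good_zeta (by linarith)).div_const _

lemma JN_cos (hRH : RiemannHypothesis) {V : ℝ} (hV : 0 ≤ V) (u : ℝ) :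
    JN V u = ∑ s ∈ ZV V, ∑ s' ∈ ZV V, H343.ZSide.mz s * H343.ZSide.mz s' *
        (Real.cos (u * (s.im - s'.im)) * Real.exp (-(s.im - s'.im) ^ 2 / 4)) := by
  unfold JN ZV
  rw [H332B.PF.Jb_cos hRH (by linarith)]
  have : 0 < Real.sqrt Real.pi := Real.sqrt_pos.2 Real.pi_pos
  field_simp

lemma pair_int (hRH : RiemannHypothesis) {V : ℝ} (hV : 0 ≤ V) {f : ℝ → ℝ} (hf : Continuous f)
    (M L : ℝ) : 2 * ∫ ξ in (0 : ℝ)..M, f ξ * JN V (L * ξ) =
      ∑ s ∈ ZV V, ∑ s' ∈ ZV V, H343.ZSide.mz s * H343.ZSide.mz s' *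
        (Real.exp (-(s.im - s'.im) ^ 2 / 4) *
          (2 * ∫ ξ in (0 : ℝ)..M, f ξ * Real.cos (L * (s.im - s'.im) * ξ))) := by
  have h1 : ∀ ξ, f ξ * JN V (L * ξ) = ∑ s ∈ ZV V, ∑ s' ∈ ZV V,
      (H343.ZSide.mz s * H343.ZSide.mz s' * Real.exp (-(s.im - s'.im) ^ 2 / 4)) *
        (f ξ * Real.cos (L * (s.im - s'.im) * ξ)) := by
    intro ξ
    rw [JN_cos hRH hV, Finset.mul_sum]
    apply Finset.sum_congr rfl
    intro s _
    rw [Finset.mul_sum]
    apply Finset.sum_congr rfl
    intro s' _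
    rw [show L * ξ * (s.im - s'.im) = L * (s.im - s'.im) * ξ by ring]
    ring
  simp_rw [h1]
  have hc : ∀ s s' : ℂ, Continuous fun ξ : ℝ =>
      (H343.ZSide.mz s * H343.ZSide.mz s' * Real.exp (-(s.im - s'.im) ^ 2 / 4)) *
        (f ξ * Real.cos (L * (s.im - s'.im) * ξ)) := fun s s' => by fun_prop
  rw [intervalIntegral.integral_finsetSum fun s _ =>
    (continuous_finsetSum _ fun s' _ => hc s s').intervalIntegrable _ _, Finset.mul_sum]
  apply Finset.sum_congr rfl
  intro s _
  rw [intervalIntegral.integral_finsetSum fun s' _ => (hc s s').intervalIntegrable _ _,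
    Finset.mul_sum]
  apply Finset.sum_congr rfl
  intro s' _
  rw [intervalIntegral.integral_const_mul]
  ring

lemma tr_scale {ρ : ℝ → ℝ} (hρ : Continuous ρ) (hz : ∀ x, 2 ≤ x → ρ x = 0) {s : ℝ} (hs0 : 0 < s)
    (hs1 : s ≤ 1) (c : ℝ) : 2 * ∫ ξ in (0 : ℝ)..2, ρ (ξ / s) * Real.cos (c * ξ) =
      s * tr ρ 2 (s * c / (2 * Real.pi)) := by
  have e1 : ∀ ξ : ℝ, ρ (ξ / s) * Real.cos (c * ξ) =
      (fun t => ρ t * Real.cos (c * s * t)) (ξ / s) := by
    intro ξ
    simp only
    congr 2
    field_simp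
  simp_rw [e1]
  rw [intervalIntegral.integral_comp_div (fun t => ρ t * Real.cos (c * s * t)) hs0.ne']
  have hc : Continuous fun t : ℝ => ρ t * Real.cos (c * s * t) := by fun_prop
  rw [← intervalIntegral.integral_add_adjacent_intervals (b := 2) (hc.intervalIntegrable _ _)
    (hc.intervalIntegrable _ _)]
  have h2 : (2 : ℝ) ≤ 2 / s := by
    rw [le_div_iff₀ hs0]; linarith
  have h3 : ∫ t in (2 : ℝ)..(2 / s), ρ t * Real.cos (c * s * t) = 0 := by
    have : ∀ t ∈ Set.uIcc (2 : ℝ) (2 / s), ρ t * Real.cos (c * s * t) = 0 := by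
      intro t ht
      rw [Set.uIcc_of_le h2] at ht
      rw [hz t ht.1, zero_mul]
    rw [intervalIntegral.integral_congr this]
    simp
  rw [h3, zero_div]
  unfold tr
  have e2 : ∀ t : ℝ, 2 * Real.pi * (s * c / (2 * Real.pi)) * t = c * s * t := by
    intro t
    have := Real.pi_pos
    field_simp
  simp_rw [e2]
  simp only [smul_eq_mul, add_zero]
  ring

/-- pairs of the block in a window; `k` is the scale -/
noncomputable def PP (V k α β : ℝ) : ℝ := by
  classical
  exact ∑ s ∈ ZV V, ∑ s' ∈ ZV V,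
    if α < k * (s.im - s'.im) ∧ k * (s.im - s'.im) < β then
      H343.ZSide.mz s * H343.ZSide.mz s' else 0

lemma mz_nonneg (s : ℂ) : 0 ≤ H343.ZSide.mz s := by unfold H343.ZSide.mz; positivity

lemma mz_sq (s : ℂ) : H343.ZSide.mz s ≤ H343.ZSide.mz s * H343.ZSide.mz s := by
  unfold H343.ZSide.mz
  have h : H370.mult riemannZeta s ≤ H370.mult riemannZeta s * H370.mult riemannZeta s :=
    Nat.le_mul_self _
  exact_mod_cast h

lemma PP_swap (V k α β : ℝ) : PP V (-k) α β = PP V k α β := by
  classical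
  unfold PP
  rw [Finset.sum_comm]
  apply Finset.sum_congr rfl
  intro s _
  apply Finset.sum_congr rfl
  intro s' _
  have e : -k * (s'.im - s.im) = k * (s.im - s'.im) := by ring
  rw [e, mul_comm (H343.ZSide.mz s')]

lemma sum_upper {V : ℝ} {r : ℝ → ℝ} {C α β s k : ℝ} (hC : 0 ≤ C) (hα : 0 ≤ α)
    (hs0 : 0 < s) (hs1 : s ≤ 1) (heven : ∀ x, r (-x) = r x)
    (hr : ∀ x, 0 ≤ x → (x ≤ α ∨ β ≤ x) → r x ≤ 0) (hrC : ∀ x, r x ≤ C) :
    ∑ z ∈ ZV V, ∑ z' ∈ ZV V, H343.ZSide.mz z * H343.ZSide.mz z' *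
        (Real.exp (-(z.im - z'.im) ^ 2 / 4) * (s * r (k * (z.im - z'.im)))) ≤
      (∑ z ∈ ZV V, H343.ZSide.mz z) * (s * r 0) + 2 * C * PP V k α β := by
  classical
  have hr0 : r 0 ≤ 0 := hr 0 le_rfl (Or.inl hα)
  have hkey : ∀ z ∈ ZV V, ∀ z' ∈ ZV V, H343.ZSide.mz z * H343.ZSide.mz z' *
        (Real.exp (-(z.im - z'.im) ^ 2 / 4) * (s * r (k * (z.im - z'.im)))) ≤
      (if z = z' then H343.ZSide.mz z * (s * r 0) else 0) +
      (C * (if α < k * (z.im - z'.im) ∧ k * (z.im - z'.im) < β then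
        H343.ZSide.mz z * H343.ZSide.mz z' else 0) +
      C * (if α < -k * (z.im - z'.im) ∧ -k * (z.im - z'.im) < β then
        H343.ZSide.mz z * H343.ZSide.mz z' else 0)) := by
    intro z _ z' _
    have hm : 0 ≤ H343.ZSide.mz z * H343.ZSide.mz z' := mul_nonneg (mz_nonneg z) (mz_nonneg z')
    by_cases hzz : z = z'
    · subst hzz
      have h0 : ∀ c : ℝ, c * (z.im - z.im) = 0 := fun c => by ring
      have h1 : ¬ (α < (0 : ℝ) ∧ (0 : ℝ) < β) := fun h => by linarith [h.1]
      rw [h0, h0, if_neg h1, if_pos rfl]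
      have h2 : Real.exp (-(z.im - z.im) ^ 2 / 4) = 1 := by simp
      rw [h2]
      have h3 : s * r 0 ≤ 0 := mul_nonpos_of_nonneg_of_nonpos hs0.le hr0
      have h4 := mz_sq z
      nlinarith
    · rw [if_neg hzz, zero_add]
      set x : ℝ := k * (z.im - z'.im) with hx
      have hx' : -k * (z.im - z'.im) = -x := by rw [hx]; ring
      rw [hx']
      set e : ℝ := Real.exp (-(z.im - z'.im) ^ 2 / 4) with he
      have he0 : 0 < e := Real.exp_pos _
      have he1 : e ≤ 1 := by
        rw [he, Real.exp_le_one_iff]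
        have := sq_nonneg (z.im - z'.im)
        linarith
      have hn1 : 0 ≤ (if α < x ∧ x < β then H343.ZSide.mz z * H343.ZSide.mz z' else 0) := by
        split_ifs <;> [exact hm; exact le_rfl]
      have hn2 : 0 ≤ (if α < -x ∧ -x < β then H343.ZSide.mz z * H343.ZSide.mz z' else 0) := by
        split_ifs <;> [exact hm; exact le_rfl]
      -- the value is at most C in all cases
      have hes : e * s ≤ 1 := by nlinarith
      have hes0 : 0 < e * s := by positivity
      have hgen : H343.ZSide.mz z * H343.ZSide.mz z' * (e * (s * r x)) ≤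
          C * (H343.ZSide.mz z * H343.ZSide.mz z') := by
        have h1 : e * (s * r x) ≤ C := by
          rcases le_or_gt (r x) 0 with h | h
          · have : e * (s * r x) ≤ 0 :=
              mul_nonpos_of_nonneg_of_nonpos he0.le (mul_nonpos_of_nonneg_of_nonpos hs0.le h)
            linarith
          · calc e * (s * r x) = (e * s) * r x := by ring
              _ ≤ 1 * r x := by gcongr
              _ = r x := one_mul _
              _ ≤ C := hrC x
        nlinarith
      have hneg : r x ≤ 0 → H343.ZSide.mz z * H343.ZSide.mz z' * (e * (s * r x)) ≤ 0 := by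
        intro h
        apply mul_nonpos_of_nonneg_of_nonpos hm
        exact mul_nonpos_of_nonneg_of_nonpos he0.le (mul_nonpos_of_nonneg_of_nonpos hs0.le h)
      have hCn1 := mul_nonneg hC hn1
      have hCn2 := mul_nonneg hC hn2
      rcases le_total 0 x with h0 | h0
      · by_cases hw : α < x ∧ x < β
        · rw [if_pos hw] at hCn1 ⊢
          linarith
        · have h1 : x ≤ α ∨ β ≤ x := by
            rw [not_and_or] at hw
            rcases hw with h | h
            · exact Or.inl (not_lt.1 h)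
            · exact Or.inr (not_lt.1 h)
          have := hneg (hr x h0 h1)
          linarith
      · by_cases hw : α < -x ∧ -x < β
        · rw [if_pos hw] at hCn2 ⊢
          linarith
        · have h1 : -x ≤ α ∨ β ≤ -x := by
            rw [not_and_or] at hw
            rcases hw with h | h
            · exact Or.inl (not_lt.1 h)
            · exact Or.inr (not_lt.1 h)
          have h2 : r x ≤ 0 := by
            rw [← heven]
            exact hr (-x) (by linarith) h1
          have := hneg h2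
          linarith
  calc _ ≤ ∑ z ∈ ZV V, ∑ z' ∈ ZV V, ((if z = z' then H343.ZSide.mz z * (s * r 0) else 0) +
      (C * (if α < k * (z.im - z'.im) ∧ k * (z.im - z'.im) < β then
        H343.ZSide.mz z * H343.ZSide.mz z' else 0) +
      C * (if α < -k * (z.im - z'.im) ∧ -k * (z.im - z'.im) < β then
        H343.ZSide.mz z * H343.ZSide.mz z' else 0))) :=
        Finset.sum_le_sum fun z hz => Finset.sum_le_sum fun z' hz' => hkey z hz z' hz'
    _ = (∑ z ∈ ZV V, H343.ZSide.mz z) * (s * r 0) + (C * PP V k α β + C * PP V (-k) α β) := by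
        simp_rw [Finset.sum_add_distrib, ← Finset.mul_sum]
        unfold PP
        congr 1
        rw [Finset.sum_mul]
        apply Finset.sum_congr rfl
        intro z hz
        rw [Finset.sum_ite_eq, if_pos hz]
    _ = _ := by rw [PP_swap]; ring

end Pool.Agent.TH873.EW
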