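import Pool.Agent.TH873.EW.GG

/-!
# Pairs of zeros in a window from a test function: the block inequality
-/

open Complex Filter Topology Set MeasureTheory
open scoped BigOperators

namespace Pool.Agent.TH873.EW

open H370 H370.AS H370.A2 H295SI

/-- trapezoid: `1` on `[-s, s]`, `0` outside `[-μ, μ]` -/
noncomputable def trap (s μ y : ℝ) : ℝ := max 0 (min 1 ((μ - |y|) / (μ - s)))

lemma trap_nonneg (s μ y : ℝ) : 0 ≤ trap s μ y := le_max_left _ _

lemma trap_le (s μ y : ℝ) : trap s μ y ≤ 1 := max_le zero_le_one (min_le_left _ _)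

lemma trap_one {s μ y : ℝ} (h : s < μ) (hy : |y| ≤ s) : trap s μ y = 1 := by
  unfold trap
  have h1 : 1 ≤ (μ - |y|) / (μ - s) := by
    rw [le_div_iff₀ (by linarith)]; linarith
  rw [min_eq_left h1]
  exact max_eq_right zero_le_one

lemma trap_zero {s μ y : ℝ} (h : s < μ) (hy : μ ≤ |y|) : trap s μ y = 0 := by
  unfold trap
  have h1 : (μ - |y|) / (μ - s) ≤ 0 := div_nonpos_of_nonpos_of_nonneg (by linarith) (by linarith)
  rw [min_eq_right (by linarith)]
  exact max_eq_left h1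

lemma trap_lip {s μ : ℝ} (h : s < μ) (x y : ℝ) : |trap s μ x - trap s μ y| ≤
    1 / (μ - s) * |x - y| := by
  unfold trap
  have h1 := abs_max_sub_max_le_abs (min 1 ((μ - |x|) / (μ - s))) (min 1 ((μ - |y|) / (μ - s))) 0
  rw [max_comm 0, max_comm 0]
  refine h1.trans ?_
  have h2 := abs_min_sub_min_le_max 1 ((μ - |x|) / (μ - s)) 1 ((μ - |y|) / (μ - s))
  refine h2.trans ?_
  rw [sub_self, abs_zero]
  have hp : 0 < μ - s := by linarith
  have e : (μ - |x|) / (μ - s) - (μ - |y|) / (μ - s) = 1 / (μ - s) * (|y| - |x|) := by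
    field_simp; ring
  rw [e, abs_mul, abs_of_pos (by positivity : 0 < 1 / (μ - s))]
  have h3 := abs_abs_sub_abs_le_abs_sub y x
  rw [abs_sub_comm y x] at h3
  apply max_le
  · positivity
  · gcongr

/-- the main block inequality -/
theorem block (hRH : RiemannHypothesis) {ρ : ℝ → ℝ} {K C α β s κ : ℝ}
    (hlip : ∀ x y, |ρ x - ρ y| ≤ K * |x - y|) (hz : ∀ x, 2 ≤ x → ρ x = 0)
    (hpos : ∀ x, 1 ≤ x → 0 ≤ ρ x) (hα : 0 ≤ α)
    (hr : ∀ x, 0 ≤ x → (x ≤ α ∨ β ≤ x) → tr ρ 2 x ≤ 0) (hC : 0 ≤ C)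
    (hrC : ∀ x, tr ρ 2 x ≤ C) (hs0 : 0 < s) (hs1 : s < 1)
    (hκ : κ < ρ 0 + 2 * s ^ 2 * (∫ t in (0 : ℝ)..1, t * ρ t) +
      2 * (∫ ξ in (1 : ℝ)..(3 / 2), (3 / 2 - ξ) * ρ (ξ / s)) - s * tr ρ 2 0) :
    ∃ V0 : ℝ, 10 ≤ V0 ∧ ∀ V : ℝ, V0 ≤ V →
      κ * H332B.X V ≤ 2 * C * PP V (s * Real.log V / (2 * Real.pi)) α β := by
  have hK : 0 ≤ K := by
    have := (abs_nonneg _).trans (hlip 1 0)
    simpa using this
  have hρc : Continuous ρ := lip_cont hlip
  set r0 : ℝ := tr ρ 2 0 with hr0d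
  have hr0 : r0 ≤ 0 := hr 0 le_rfl (Or.inl hα)
  have hbd : ∀ x, 0 ≤ x → |ρ x| ≤ 2 * K := by
    intro x hx
    rcases le_total 2 x with h | h
    · rw [hz x h, abs_zero]; positivity
    · have h1 := hlip x 2
      rw [hz 2 le_rfl, sub_zero] at h1
      refine h1.trans ?_
      have : |x - 2| ≤ 2 := by rw [abs_le]; constructor <;> linarith
      nlinarith
  obtain ⟨μ, hsμ, hμ1⟩ := exists_between hs1
  have hμ0 : 0 < μ := hs0.trans hsμ
  set ψ : ℝ → ℝ := fun y => ρ (|y| / s) * trap s μ y with hψ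
  have hψc : Continuous ψ := by
    have : Continuous (trap s μ) := by unfold trap; fun_prop
    exact (hρc.comp (by fun_prop)).mul this
  set φ : ℝ → ℝ := fun x => ψ (μ * x) with hφ
  -- φ is Lipschitz
  set Kφ : ℝ := K * (μ / s) + 2 * K * (μ / (μ - s)) with hKφ
  have hμs : 0 < μ - s := by linarith
  have hKφ0 : 0 ≤ Kφ := by positivity
  have hφlip : ∀ x y, |φ x - φ y| ≤ Kφ * |x - y| := by
    intro x y
    have e : φ x - φ y = (ρ (|μ * x| / s) - ρ (|μ * y| / s)) * trap s μ (μ * x) +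
        ρ (|μ * y| / s) * (trap s μ (μ * x) - trap s μ (μ * y)) := by
      simp only [hφ, hψ]; ring
    rw [e]
    have h1 : |ρ (|μ * x| / s) - ρ (|μ * y| / s)| ≤ K * (μ / s) * |x - y| := by
      refine (hlip _ _).trans ?_
      rw [mul_assoc]
      apply mul_le_mul_of_nonneg_left _ hK
      rw [← sub_div, abs_div, abs_of_pos hs0, abs_mul, abs_mul, abs_of_pos hμ0, ← mul_sub,
        abs_mul, abs_of_pos hμ0]
      have := abs_abs_sub_abs_le_abs_sub x y
      rw [div_mul_eq_mul_div]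
      gcongr
    have h2 : |trap s μ (μ * x) - trap s μ (μ * y)| ≤ μ / (μ - s) * |x - y| := by
      refine (trap_lip hsμ _ _).trans (le_of_eq ?_)
      rw [← mul_sub, abs_mul, abs_of_pos hμ0]
      ring
    have h3 : |trap s μ (μ * x)| ≤ 1 := by
      rw [abs_of_nonneg (trap_nonneg _ _ _)]; exact trap_le _ _ _
    have h4 : |ρ (|μ * y| / s)| ≤ 2 * K := hbd _ (by positivity)
    calc _ ≤ |(ρ (|μ * x| / s) - ρ (|μ * y| / s)) * trap s μ (μ * x)| +
        |ρ (|μ * y| / s) * (trap s μ (μ * x) - trap s μ (μ * y))| := abs_add_le _ _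
      _ = |ρ (|μ * x| / s) - ρ (|μ * y| / s)| * |trap s μ (μ * x)| +
        |ρ (|μ * y| / s)| * |trap s μ (μ * x) - trap s μ (μ * y)| := by
          rw [abs_mul (ρ (|μ * x| / s) - ρ (|μ * y| / s)), abs_mul (ρ (|μ * y| / s))]
      _ ≤ (K * (μ / s) * |x - y|) * 1 + (2 * K) * (μ / (μ - s) * |x - y|) := by gcongr
      _ = _ := by rw [hKφ]; ring
  have hφeven : ∀ x, φ (-x) = φ x := by
    intro x
    simp only [hφ, hψ, trap, mul_neg, abs_neg]
  have hφz : ∀ x, 1 ≤ |x| → φ x = 0 := by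
    intro x hx
    simp only [hφ, hψ]
    rw [trap_zero hsμ, mul_zero]
    rw [abs_mul, abs_of_pos hμ0]
    nlinarith
  set I1 : ℝ := ∫ t in (0 : ℝ)..1, t * ρ t with hI1
  set I3 : ℝ := ∫ ξ in (1 : ℝ)..(3 / 2), (3 / 2 - ξ) * ρ (ξ / s) with hI3
  set c : ℝ := ρ 0 + 2 * s ^ 2 * I1 - s * r0 with hc
  set Q : ℝ := |c| + s * |r0| + 2 with hQ
  have hQ0 : 2 ≤ Q := by
    have : 0 ≤ |c| + s * |r0| := by positivity
    rw [hQ]; linarith
  set ε : ℝ := min 1 ((c + 2 * I3 - κ) / (2 * Q + 2 * K)) with hε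
  have hQK : 0 < 2 * Q + 2 * K := by linarith
  have hε0 : 0 < ε := lt_min one_pos (div_pos (by rw [hc]; linarith) hQK)
  have hε1 : ε ≤ 1 := min_le_left _ _
  have hεQ : ε * (2 * Q + 2 * K) ≤ c + 2 * I3 - κ := by
    rw [← le_div_iff₀ hQK]
    exact min_le_right _ _
  obtain ⟨V1, hV1, h1⟩ := psi_two hRH hKφ0 hφlip hφeven hφz hμ0 hμ1 hε0
  obtain ⟨V2, hV2, h2⟩ := H332B.low ε hε0
  refine ⟨max (max V1 V2) (max 10 (2 / ε)), (le_max_left _ _).trans (le_max_right _ _),
    fun V hV => ?_⟩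
  have hVV1 : V1 ≤ V := ((le_max_left _ _).trans (le_max_left _ _)).trans hV
  have hVV2 : V2 ≤ V := ((le_max_right _ _).trans (le_max_left _ _)).trans hV
  have hV10 : 10 ≤ V := ((le_max_left _ _).trans (le_max_right _ _)).trans hV
  have hVε : 2 / ε ≤ V := ((le_max_right _ _).trans (le_max_right _ _)).trans hV
  have hVpos : 0 < V := by linarith
  set L : ℝ := Real.log V with hL
  have hL0 : 0 < L := Real.log_pos (by linarith)
  obtain ⟨hN, hPS⟩ := h1 V hVV1
  have hpi := Real.pi_pos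
  have hX0 : 0 ≤ H332B.X V := by
    unfold H332B.X
    positivity
  have hXV : XV V = H332B.X V * (1 - 2 / V) := by
    unfold XV H332B.X
    field_simp
  have h2V : 2 / V ≤ ε := by
    rw [div_le_iff₀ hVpos]
    rw [div_le_iff₀ hε0] at hVε
    linarith
  have h2V0 : 0 < 2 / V := by positivity
  have h2V1 : 2 / V ≤ 1 := h2V.trans hε1
  have hXV0 : 0 ≤ XV V := by
    rw [hXV]
    exact mul_nonneg hX0 (by linarith)
  have hJc : Continuous fun ξ : ℝ => JN V (L * ξ) := (JN_cont (by linarith)).comp (by fun_prop)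
  have hJ0 : ∀ ξ : ℝ, 0 ≤ JN V (L * ξ) := fun ξ => JN_nonneg _ _
  set g : ℝ → ℝ := fun ξ => ρ (ξ / s) * JN V (L * ξ) with hg
  have hgc : Continuous g := (hρc.comp (by fun_prop)).mul hJc
  -- the pair side
  have hpair : 2 * ∫ ξ in (0 : ℝ)..2, g ξ ≤
      (NN riemannZeta (V + 1) (2 * V - 1) : ℝ) * (s * r0) +
        2 * C * PP V (s * L / (2 * Real.pi)) α β := by
    have e1 := pair_int hRH (V := V) (by linarith) (f := fun ξ => ρ (ξ / s))
      (hρc.comp (by fun_prop)) 2 L
    have e2 : 2 * ∫ ξ in (0 : ℝ)..2, g ξ = ∑ z ∈ ZV V, ∑ z' ∈ ZV V,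
        H343.ZSide.mz z * H343.ZSide.mz z' * (Real.exp (-(z.im - z'.im) ^ 2 / 4) *
          (s * tr ρ 2 (s * L / (2 * Real.pi) * (z.im - z'.im)))) := by
      rw [hg]
      rw [e1]
      apply Finset.sum_congr rfl
      intro z _
      apply Finset.sum_congr rfl
      intro z' _
      rw [tr_scale hρc hz hs0 hs1.le]
      congr 4
      ring
    have e3 : (NN riemannZeta (V + 1) (2 * V - 1) : ℝ) = ∑ z ∈ ZV V, H343.ZSide.mz z := by
      rw [NN_eq good_zeta (by linarith : (1 : ℝ) ≤ V + 1)]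
      unfold ZV H332B.Zb H343.ZSide.mz
      push_cast
      rfl
    rw [e2, e3]
    apply sum_upper hC hα hs0 hs1.le _ hr hrC
    intro x
    unfold tr
    congr 1
    apply intervalIntegral.integral_congr
    intro t _
    simp only
    rw [show 2 * Real.pi * -x * t = -(2 * Real.pi * x * t) by ring, Real.cos_neg]
  -- the main part
  have hmain : XV V * (ρ 0 + 2 * s ^ 2 * I1 - ε) ≤ 2 * ∫ ξ in (0 : ℝ)..μ, g ξ := by
    have a1 : XV V * (μ * cR φ μ) - ε * XV V ≤ μ * PS φ riemannZeta (V + 1) (2 * V - 1) (μ * L) := by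
      have := (abs_le.1 hPS).1
      have h3 : μ * (XV V * cR φ μ - ε * XV V) ≤
          μ * PS φ riemannZeta (V + 1) (2 * V - 1) (μ * L) :=
        mul_le_mul_of_nonneg_left (by linarith) hμ0.le
      have h4 : μ * (ε * XV V) ≤ 1 * (ε * XV V) :=
        mul_le_mul_of_nonneg_right hμ1.le (by positivity)
      have h5 : μ * (XV V * cR φ μ - ε * XV V) = XV V * (μ * cR φ μ) - μ * (ε * XV V) := by ring
      linarith
    have a2 : μ * PS φ riemannZeta (V + 1) (2 * V - 1) (μ * L) =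
        2 * ∫ y in (0 : ℝ)..μ, ψ y * JN V (L * y) := by
      unfold PS
      have e1 : ∀ α : ℝ, φ α * JJ riemannZeta (V + 1) (2 * V - 1) (μ * L * α) =
          Real.sqrt Real.pi * (fun y => ψ y * JN V (L * y)) (μ * α) := by
        intro α
        simp only [hφ]
        unfold JN H332B.Jb
        have : 0 < Real.sqrt Real.pi := Real.sqrt_pos.2 Real.pi_pos
        rw [show L * (μ * α) = μ * L * α by ring]
        field_simp
      simp_rw [e1]
      rw [intervalIntegral.integral_const_mul,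
        intervalIntegral.integral_comp_mul_left (fun y => ψ y * JN V (L * y)) hμ0.ne']
      have : 0 < Real.sqrt Real.pi := Real.sqrt_pos.2 Real.pi_pos
      rw [mul_zero, mul_one, smul_eq_mul]
      field_simp
    have a3 : μ * cR φ μ = ψ 0 + 2 * ∫ y in (0 : ℝ)..μ, y * ψ y := by
      unfold cR
      have e1 : ∀ α : ℝ, α * φ α = μ⁻¹ * (fun y => y * ψ y) (μ * α) := by
        intro α
        simp only [hφ]
        field_simp
      simp_rw [e1]
      rw [intervalIntegral.integral_const_mul,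
        intervalIntegral.integral_comp_mul_left (fun y => y * ψ y) hμ0.ne']
      simp only [hφ, mul_zero, mul_one, smul_eq_mul]
      field_simp
    have a4 : ψ 0 = ρ 0 := by
      simp only [hψ]
      rw [trap_one hsμ (by rw [abs_zero]; exact hs0.le)]
      simp
    have hyψ : Continuous fun y : ℝ => y * ψ y := continuous_id.mul hψc
    have a5 : s ^ 2 * I1 ≤ ∫ y in (0 : ℝ)..μ, y * ψ y := by
      rw [← intervalIntegral.integral_add_adjacent_intervals (b := s) (hyψ.intervalIntegrable _ _)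
        (hyψ.intervalIntegrable _ _)]
      have b1 : ∫ y in (0 : ℝ)..s, y * ψ y = s ^ 2 * I1 := by
        have e1 : ∀ y ∈ Set.uIcc (0 : ℝ) s, y * ψ y = s * (fun t => t * ρ t) (y / s) := by
          intro y hy
          rw [Set.uIcc_of_le hs0.le] at hy
          simp only [hψ]
          rw [trap_one hsμ (by rw [abs_of_nonneg hy.1]; exact hy.2), abs_of_nonneg hy.1]
          field_simp
        rw [intervalIntegral.integral_congr e1, intervalIntegral.integral_const_mul,
          intervalIntegral.integral_comp_div (fun t => t * ρ t) hs0.ne', zero_div, div_self hs0.ne',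
          smul_eq_mul, hI1]
        ring
      have b2 : 0 ≤ ∫ y in s..μ, y * ψ y := by
        apply intervalIntegral.integral_nonneg hsμ.le
        intro y hy
        have hy0 : 0 ≤ y := hs0.le.trans hy.1
        simp only [hψ]
        apply mul_nonneg hy0
        apply mul_nonneg _ (trap_nonneg _ _ _)
        apply hpos
        rw [abs_of_nonneg hy0, le_div_iff₀ hs0]
        linarith [hy.1]
      linarith
    have a6 : ∫ y in (0 : ℝ)..μ, ψ y * JN V (L * y) ≤ ∫ ξ in (0 : ℝ)..μ, g ξ := by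
      apply intervalIntegral.integral_mono_on hμ0.le ((hψc.mul hJc).intervalIntegrable _ _)
        (hgc.intervalIntegrable _ _)
      intro y hy
      simp only [hg, hψ]
      apply mul_le_mul_of_nonneg_right _ (hJ0 y)
      show ρ (|y| / s) * trap s μ y ≤ ρ (y / s)
      rw [abs_of_nonneg hy.1]
      rcases le_total y s with h | h
      · rw [trap_one hsμ (by rw [abs_of_nonneg hy.1]; exact h), mul_one]
      · have h3 : 0 ≤ ρ (y / s) := hpos _ (by rw [le_div_iff₀ hs0]; linarith)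
        exact mul_le_of_le_one_right h3 (trap_le s μ y)
    rw [a2, a3, a4] at a1
    have a7 : XV V * (2 * (s ^ 2 * I1)) ≤ XV V * (2 * ∫ y in (0 : ℝ)..μ, y * ψ y) :=
      mul_le_mul_of_nonneg_left (by linarith) hXV0
    have a8 : XV V * (ρ 0 + 2 * ∫ y in (0 : ℝ)..μ, y * ψ y) =
        XV V * ρ 0 + XV V * (2 * ∫ y in (0 : ℝ)..μ, y * ψ y) := by ring
    have a9 : XV V * (ρ 0 + 2 * s ^ 2 * I1 - ε) = XV V * ρ 0 + XV V * (2 * (s ^ 2 * I1)) -
        ε * XV V := by ring
    linarith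
  -- the part from 1 to 3/2
  have hI3' : H332B.X V * (I3 - ε * K) ≤ ∫ ξ in (1 : ℝ)..(3 / 2), g ξ := by
    have b1 : ∀ ξ ∈ Set.Icc (1 : ℝ) (3 / 2), H332B.X V * ((3 / 2 - ξ) * ρ (ξ / s)) -
        H332B.X V * ε * (2 * K) ≤ g ξ := by
      intro ξ hξ
      have h3 : 0 ≤ ρ (ξ / s) := hpos _ (by rw [le_div_iff₀ hs0]; linarith [hξ.1])
      have h4 : ρ (ξ / s) ≤ 2 * K := (le_abs_self _).trans (hbd _ (by
        have := hξ.1
        positivity))
      have h5 := h2 V (V + 1) (2 * V - 1) (L * ξ) hVV2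
        ⟨by linarith, by linarith, by linarith, by linarith⟩
        (by rw [← hL]; exact le_mul_of_one_le_right hL0.le hξ.1)
        (by rw [← hL, mul_comm]; exact mul_le_mul_of_nonneg_right hξ.2 hL0.le)
      have h6 : (3 / 2 - ξ - ε) * H332B.X V ≤ JN V (L * ξ) := by
        unfold JN
        rw [le_div_iff₀ (Real.sqrt_pos.2 Real.pi_pos)]
        have e : L * ξ / Real.log V = ξ := by rw [← hL]; field_simp
        rw [e] at h5
        linarith
      simp only [hg]
      have h7 := mul_le_mul_of_nonneg_left h6 h3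
      have h8 : ε * H332B.X V * ρ (ξ / s) ≤ ε * H332B.X V * (2 * K) := by gcongr
      have h9 : ρ (ξ / s) * ((3 / 2 - ξ - ε) * H332B.X V) =
          H332B.X V * ((3 / 2 - ξ) * ρ (ξ / s)) - ε * H332B.X V * ρ (ξ / s) := by ring
      have h10 : ε * H332B.X V * (2 * K) = H332B.X V * ε * (2 * K) := by ring
      linarith
    have hcρ : Continuous fun ξ : ℝ => (3 / 2 - ξ) * ρ (ξ / s) :=
      (by fun_prop : Continuous fun ξ : ℝ => 3 / 2 - ξ).mul (hρc.comp (by fun_prop))
    have b2 : ∫ ξ in (1 : ℝ)..(3 / 2), (H332B.X V * ((3 / 2 - ξ) * ρ (ξ / s)) -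
        H332B.X V * ε * (2 * K)) = H332B.X V * (I3 - ε * K) := by
      rw [intervalIntegral.integral_sub ((hcρ.const_mul _).intervalIntegrable _ _)
        (continuous_const.intervalIntegrable _ _), intervalIntegral.integral_const_mul,
        intervalIntegral.integral_const, smul_eq_mul]
      ring
    rw [← b2]
    exact intervalIntegral.integral_mono_on (by norm_num)
      (((hcρ.const_mul _).sub continuous_const).intervalIntegrable _ _)
      (hgc.intervalIntegrable _ _) b1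
  have hI2 : 0 ≤ ∫ ξ in μ..1, g ξ := by
    apply intervalIntegral.integral_nonneg hμ1.le
    intro ξ hξ
    simp only [hg]
    apply mul_nonneg _ (hJ0 ξ)
    apply hpos
    rw [le_div_iff₀ hs0]
    linarith [hξ.1]
  have hI4 : 0 ≤ ∫ ξ in (3 / 2 : ℝ)..2, g ξ := by
    apply intervalIntegral.integral_nonneg (by norm_num)
    intro ξ hξ
    simp only [hg]
    apply mul_nonneg _ (hJ0 ξ)
    apply hpos
    rw [le_div_iff₀ hs0]
    linarith [hξ.1]
  have hsplit : ∫ ξ in (0 : ℝ)..2, g ξ = (∫ ξ in (0 : ℝ)..μ, g ξ) + (∫ ξ in μ..1, g ξ) +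
      (∫ ξ in (1 : ℝ)..(3 / 2), g ξ) + ∫ ξ in (3 / 2 : ℝ)..2, g ξ := by
    rw [intervalIntegral.integral_add_adjacent_intervals (hgc.intervalIntegrable _ _)
      (hgc.intervalIntegrable _ _), intervalIntegral.integral_add_adjacent_intervals
      (hgc.intervalIntegrable _ _) (hgc.intervalIntegrable _ _),
      intervalIntegral.integral_add_adjacent_intervals (hgc.intervalIntegrable _ _)
      (hgc.intervalIntegrable _ _)]
  -- assembly
  have hNlow : (1 - ε) * XV V ≤ (NN riemannZeta (V + 1) (2 * V - 1) : ℝ) := by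
    have := (abs_le.1 hN).1
    linarith
  have hsr0 : s * r0 ≤ 0 := mul_nonpos_of_nonneg_of_nonpos hs0.le hr0
  have hNr : (NN riemannZeta (V + 1) (2 * V - 1) : ℝ) * (s * r0) ≤
      ((1 - ε) * XV V) * (s * r0) := mul_le_mul_of_nonpos_right hNlow hsr0
  set P : ℝ := PP V (s * L / (2 * Real.pi)) α β with hP
  have hfin1 : XV V * (c - ε + ε * (s * r0)) + H332B.X V * (2 * I3 - 2 * ε * K) ≤ 2 * C * P := by
    have e1 : XV V * (c - ε + ε * (s * r0)) = XV V * (ρ 0 + 2 * s ^ 2 * I1 - ε) -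
        ((1 - ε) * XV V) * (s * r0) := by rw [hc]; ring
    rw [e1]
    have e2 : H332B.X V * (2 * I3 - 2 * ε * K) = 2 * (H332B.X V * (I3 - ε * K)) := by ring
    rw [e2]
    rw [hsplit] at hpair
    linarith
  have hsr : |s * r0| = s * |r0| := by rw [abs_mul, abs_of_pos hs0]
  have hc' : |c - ε + ε * (s * r0)| ≤ Q := by
    have h3 : |ε * (s * r0)| ≤ s * |r0| := by
      rw [abs_mul, hsr, abs_of_pos hε0]
      have : 0 ≤ s * |r0| := by positivity
      exact mul_le_of_le_one_left this hε1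
    have h4 := abs_add_le (c - ε) (ε * (s * r0))
    have h5 := abs_sub_le_add c ε
    rw [abs_of_pos hε0] at h5
    rw [hQ]
    linarith
  have hfin2 : H332B.X V * (c - ε + ε * (s * r0)) - H332B.X V * (ε * Q) ≤
      XV V * (c - ε + ε * (s * r0)) := by
    rw [hXV]
    have h3 : H332B.X V * (2 / V * (c - ε + ε * (s * r0))) ≤ H332B.X V * (ε * Q) := by
      apply mul_le_mul_of_nonneg_left _ hX0
      calc 2 / V * (c - ε + ε * (s * r0)) ≤ 2 / V * |c - ε + ε * (s * r0)| := by
            apply mul_le_mul_of_nonneg_left (le_abs_self _) h2V0.le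
        _ ≤ ε * Q := by gcongr
    have h4 : H332B.X V * (1 - 2 / V) * (c - ε + ε * (s * r0)) =
        H332B.X V * (c - ε + ε * (s * r0)) -
          H332B.X V * (2 / V * (c - ε + ε * (s * r0))) := by ring
    linarith
  have hfin3 : κ * H332B.X V ≤ H332B.X V * (c - ε + ε * (s * r0)) - H332B.X V * (ε * Q) +
      H332B.X V * (2 * I3 - 2 * ε * K) := by
    have h3 : κ ≤ (c - ε + ε * (s * r0)) - ε * Q + (2 * I3 - 2 * ε * K) := by
      have h4 : -(s * r0) ≤ s * |r0| := by rw [← hsr]; exact neg_le_abs _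
      have h5 : ε * (1 + s * |r0|) ≤ ε * Q := by
        apply mul_le_mul_of_nonneg_left _ hε0.le
        have := abs_nonneg c
        rw [hQ]; linarith
      have h6 : ε * (-(s * r0)) ≤ ε * (s * |r0|) := mul_le_mul_of_nonneg_left h4 hε0.le
      have h7 : ε * (1 + s * |r0|) = ε + ε * (s * |r0|) := by ring
      have h8 : ε * (-(s * r0)) = -(ε * (s * r0)) := by ring
      have h9 : ε * (2 * Q + 2 * K) = ε * Q + ε * Q + 2 * ε * K := by ring
      linarith
    have h10 := mul_le_mul_of_nonneg_left h3 hX0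
    have h11 : H332B.X V * ((c - ε + ε * (s * r0)) - ε * Q + (2 * I3 - 2 * ε * K)) =
        H332B.X V * (c - ε + ε * (s * r0)) - H332B.X V * (ε * Q) +
          H332B.X V * (2 * I3 - 2 * ε * K) := by ring
    linarith
  linarith

end Pool.Agent.TH873.EW
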