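import Mathlib

/-!
# Band-limited kernels with double poles at half-integers

`g0`, `g1 ν`, `g2 ν` are the cosine transforms of `S(x)/x²`, `S(x)/(ν² - x²)` and
`S(x)/(ν² - x²)²`, `S(x) = sin² (π (ν - x))`, when `2 ν` is a positive integer.
-/

open MeasureTheory intervalIntegral

namespace Pool.Agent.TH873.EW

lemma int_sin_mul {c : ℝ} (hc : c ≠ 0) :
    ∫ t in (0 : ℝ)..1, Real.sin (c * t) = (1 - Real.cos c) / c := by
  have h : ∀ t ∈ Set.uIcc (0 : ℝ) 1, HasDerivAt (fun t : ℝ => -Real.cos (c * t) / c)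
      (Real.sin (c * t)) t := by
    intro t _
    have h1 : HasDerivAt (fun t : ℝ => c * t) c t := by
      simpa using (hasDerivAt_id t).const_mul c
    have h2 := (h1.cos.neg).div_const c
    refine h2.congr_deriv ?_
    field_simp
  rw [integral_eq_sub_of_hasDerivAt h ((by fun_prop : Continuous fun t : ℝ =>
    Real.sin (c * t)).intervalIntegrable _ _)]
  simp only [mul_one, mul_zero, Real.cos_zero]
  field_simp
  ring

lemma int_lin_cos {c : ℝ} (hc : c ≠ 0) :
    ∫ t in (0 : ℝ)..1, (1 - t) * Real.cos (c * t) = (1 - Real.cos c) / c ^ 2 := by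
  have h : ∀ t ∈ Set.uIcc (0 : ℝ) 1, HasDerivAt (fun t : ℝ => (1 - t) * Real.sin (c * t) / c -
      Real.cos (c * t) / c ^ 2) ((1 - t) * Real.cos (c * t)) t := by
    intro t _
    have h1 : HasDerivAt (fun t : ℝ => c * t) c t := by
      simpa using (hasDerivAt_id t).const_mul c
    have h0 : HasDerivAt (fun t : ℝ => 1 - t) (-1) t := by
      simpa using (hasDerivAt_id t).const_sub 1
    have h2 := ((h0.mul h1.sin).div_const c).sub (h1.cos.div_const (c ^ 2))
    refine h2.congr_deriv ?_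
    field_simp
    ring
  rw [integral_eq_sub_of_hasDerivAt h ((by fun_prop : Continuous fun t : ℝ =>
    (1 - t) * Real.cos (c * t)).intervalIntegrable _ _)]
  simp only [mul_one, mul_zero, Real.cos_zero, Real.sin_zero]
  field_simp
  ring

/-- transform of `sin² (π x) / x²` -/
noncomputable def g0 (t : ℝ) : ℝ := Real.pi ^ 2 * (1 - t)

/-- transform of `S(x) / (ν² - x²)` -/
noncomputable def g1 (ν t : ℝ) : ℝ := Real.pi / (2 * ν) * Real.sin (2 * Real.pi * ν * t)

/-- transform of `S(x) / (ν² - x²)²` -/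
noncomputable def g2 (ν t : ℝ) : ℝ :=
  Real.pi ^ 2 / (2 * ν ^ 2) * ((1 - t) * Real.cos (2 * Real.pi * ν * t)) +
    Real.pi / (4 * ν ^ 3) * Real.sin (2 * Real.pi * ν * t)

/-- cosine transform of a function on `[0, 1]` -/
noncomputable def ct (g : ℝ → ℝ) (x : ℝ) : ℝ :=
  2 * ∫ t in (0 : ℝ)..1, g t * Real.cos (2 * Real.pi * x * t)

/-- `2 ν` is a positive integer -/
def HI (ν : ℝ) : Prop := ∃ k : ℕ, 0 < k ∧ 2 * ν = k

lemma HI.pos {ν : ℝ} (h : HI ν) : 0 < ν := by
  obtain ⟨k, hk, h⟩ := h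
  have : (0 : ℝ) < k := by exact_mod_cast hk
  linarith

/-- the square of the sine -/
noncomputable def SS (ν x : ℝ) : ℝ := Real.sin (Real.pi * (ν - x)) ^ 2

lemma SS_symm {ν : ℝ} (h : HI ν) (x : ℝ) : Real.sin (Real.pi * (ν + x)) ^ 2 = SS ν x := by
  obtain ⟨k, -, hk⟩ := h
  unfold SS
  have e : Real.pi * (ν + x) = k * Real.pi - Real.pi * (ν - x) := by
    rw [← hk]; ring
  rw [e, Real.sin_sub, Real.sin_nat_mul_pi, zero_mul, zero_sub, neg_sq, mul_pow]
  have h1 : Real.cos (k * Real.pi) ^ 2 = 1 := by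
    have := Real.sin_sq_add_cos_sq (k * Real.pi)
    rw [Real.sin_nat_mul_pi] at this
    nlinarith
  rw [h1, one_mul]

lemma SS_nonneg (ν x : ℝ) : 0 ≤ SS ν x := sq_nonneg _

lemma one_sub_cos (y : ℝ) : 1 - Real.cos (2 * y) = 2 * Real.sin y ^ 2 := by
  rw [Real.cos_two_mul, Real.cos_sq']
  ring

lemma ct_g1 {ν x : ℝ} (h : HI ν) (hx : ν ^ 2 - x ^ 2 ≠ 0) :
    ct (g1 ν) x = SS ν x / (ν ^ 2 - x ^ 2) := by
  have hν := h.pos
  have hpi := Real.pi_pos
  have hu : ν + x ≠ 0 := fun h0 => hx (by rw [sq_sub_sq, h0, zero_mul])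
  have hv : ν - x ≠ 0 := fun h0 => hx (by rw [sq_sub_sq, h0, mul_zero])
  have hcu : 2 * (Real.pi * (ν + x)) ≠ 0 := by positivity
  have hcv : 2 * (Real.pi * (ν - x)) ≠ 0 := mul_ne_zero two_ne_zero (mul_ne_zero hpi.ne' hv)
  have e : ∀ t : ℝ, g1 ν t * Real.cos (2 * Real.pi * x * t) =
      Real.pi / (4 * ν) * (Real.sin (2 * (Real.pi * (ν + x)) * t) +
        Real.sin (2 * (Real.pi * (ν - x)) * t)) := by
    intro t
    have e1 : 2 * (Real.pi * (ν + x)) * t = 2 * Real.pi * ν * t + 2 * Real.pi * x * t := by ring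
    have e2 : 2 * (Real.pi * (ν - x)) * t = 2 * Real.pi * ν * t - 2 * Real.pi * x * t := by ring
    rw [e1, e2, Real.sin_add, Real.sin_sub]
    unfold g1
    field_simp
    ring
  unfold ct
  simp_rw [e]
  rw [intervalIntegral.integral_const_mul, intervalIntegral.integral_add
    ((by fun_prop : Continuous fun t : ℝ => Real.sin (2 * (Real.pi * (ν + x)) * t)).intervalIntegrable _ _)
    ((by fun_prop : Continuous fun t : ℝ => Real.sin (2 * (Real.pi * (ν - x)) * t)).intervalIntegrable _ _),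
    int_sin_mul hcu, int_sin_mul hcv, one_sub_cos, one_sub_cos, SS_symm h]
  have e3 : Real.sin (Real.pi * (ν - x)) ^ 2 = SS ν x := rfl
  rw [e3]
  have e4 : ν ^ 2 - x ^ 2 = (ν + x) * (ν - x) := by ring
  rw [e4]
  field_simp
  ring

lemma ct_g2 {ν x : ℝ} (h : HI ν) (hx : ν ^ 2 - x ^ 2 ≠ 0) :
    ct (g2 ν) x = SS ν x / (ν ^ 2 - x ^ 2) ^ 2 := by
  have hν := h.pos
  have hpi := Real.pi_pos
  have hu : ν + x ≠ 0 := fun h0 => hx (by rw [sq_sub_sq, h0, zero_mul])
  have hv : ν - x ≠ 0 := fun h0 => hx (by rw [sq_sub_sq, h0, mul_zero])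
  have hcu : 2 * (Real.pi * (ν + x)) ≠ 0 := by positivity
  have hcv : 2 * (Real.pi * (ν - x)) ≠ 0 := mul_ne_zero two_ne_zero (mul_ne_zero hpi.ne' hv)
  have e : ∀ t : ℝ, g2 ν t * Real.cos (2 * Real.pi * x * t) =
      Real.pi ^ 2 / (4 * ν ^ 2) * ((1 - t) * Real.cos (2 * (Real.pi * (ν + x)) * t) +
        (1 - t) * Real.cos (2 * (Real.pi * (ν - x)) * t)) +
      Real.pi / (8 * ν ^ 3) * (Real.sin (2 * (Real.pi * (ν + x)) * t) +
        Real.sin (2 * (Real.pi * (ν - x)) * t)) := by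
    intro t
    have e1 : 2 * (Real.pi * (ν + x)) * t = 2 * Real.pi * ν * t + 2 * Real.pi * x * t := by ring
    have e2 : 2 * (Real.pi * (ν - x)) * t = 2 * Real.pi * ν * t - 2 * Real.pi * x * t := by ring
    rw [e1, e2, Real.sin_add, Real.sin_sub, Real.cos_add, Real.cos_sub]
    unfold g2
    field_simp
    ring
  unfold ct
  simp_rw [e]
  have c1 : Continuous fun t : ℝ => (1 - t) * Real.cos (2 * (Real.pi * (ν + x)) * t) := by fun_prop
  have c2 : Continuous fun t : ℝ => (1 - t) * Real.cos (2 * (Real.pi * (ν - x)) * t) := by fun_prop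
  have c3 : Continuous fun t : ℝ => Real.sin (2 * (Real.pi * (ν + x)) * t) := by fun_prop
  have c4 : Continuous fun t : ℝ => Real.sin (2 * (Real.pi * (ν - x)) * t) := by fun_prop
  have c5 : Continuous fun t : ℝ => Real.pi ^ 2 / (4 * ν ^ 2) *
    ((1 - t) * Real.cos (2 * (Real.pi * (ν + x)) * t) +
      (1 - t) * Real.cos (2 * (Real.pi * (ν - x)) * t)) := by fun_prop
  have c6 : Continuous fun t : ℝ => Real.pi / (8 * ν ^ 3) *
    (Real.sin (2 * (Real.pi * (ν + x)) * t) + Real.sin (2 * (Real.pi * (ν - x)) * t)) := by fun_prop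
  rw [intervalIntegral.integral_add (c5.intervalIntegrable _ _) (c6.intervalIntegrable _ _),
    intervalIntegral.integral_const_mul, intervalIntegral.integral_const_mul,
    intervalIntegral.integral_add (c1.intervalIntegrable _ _) (c2.intervalIntegrable _ _),
    intervalIntegral.integral_add (c3.intervalIntegrable _ _) (c4.intervalIntegrable _ _),
    int_sin_mul hcu, int_sin_mul hcv, int_lin_cos hcu, int_lin_cos hcv, one_sub_cos, one_sub_cos,
    SS_symm h]
  have e3 : Real.sin (Real.pi * (ν - x)) ^ 2 = SS ν x := rfl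
  rw [e3]
  have e4 : ν ^ 2 - x ^ 2 = (ν + x) * (ν - x) := by ring
  rw [e4]
  field_simp
  ring

lemma ct_g0 {x : ℝ} (hx : x ≠ 0) : ct g0 x = Real.sin (Real.pi * x) ^ 2 / x ^ 2 := by
  have hpi := Real.pi_pos
  have hc : 2 * (Real.pi * x) ≠ 0 := by positivity
  have e : ∀ t : ℝ, g0 t * Real.cos (2 * Real.pi * x * t) =
      Real.pi ^ 2 * ((1 - t) * Real.cos (2 * (Real.pi * x) * t)) := by
    intro t
    unfold g0
    have : 2 * Real.pi * x * t = 2 * (Real.pi * x) * t := by ring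
    rw [this]
    ring
  unfold ct
  simp_rw [e]
  rw [intervalIntegral.integral_const_mul, int_lin_cos hc, one_sub_cos]
  field_simp

end Pool.Agent.TH873.EW
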