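import Pool.Agent.TH873.EW.Ker

/-!
# Moments of the kernels
-/

open MeasureTheory intervalIntegral

namespace Pool.Agent.TH873.EW

/-- the functional `g(0) + 2 ∫₀¹ t g(t) dt` -/
noncomputable def mom (g : ℝ → ℝ) : ℝ := g 0 + 2 * ∫ t in (0 : ℝ)..1, t * g t

lemma int_t_sin {c : ℝ} (hc : c ≠ 0) :
    ∫ t in (0 : ℝ)..1, t * Real.sin (c * t) = Real.sin c / c ^ 2 - Real.cos c / c := by
  have h : ∀ t ∈ Set.uIcc (0 : ℝ) 1, HasDerivAt (fun t : ℝ => Real.sin (c * t) / c ^ 2 -
      t * Real.cos (c * t) / c) (t * Real.sin (c * t)) t := by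
    intro t _
    have h1 : HasDerivAt (fun t : ℝ => c * t) c t := by
      simpa using (hasDerivAt_id t).const_mul c
    have h2 := (h1.sin.div_const (c ^ 2)).sub (((hasDerivAt_id t).mul h1.cos).div_const c)
    refine h2.congr_deriv ?_
    simp only [id]
    field_simp
    ring
  rw [integral_eq_sub_of_hasDerivAt h ((by fun_prop : Continuous fun t : ℝ =>
    t * Real.sin (c * t)).intervalIntegrable _ _)]
  simp

lemma int_t_lin_cos {c : ℝ} (hc : c ≠ 0) :
    ∫ t in (0 : ℝ)..1, t * ((1 - t) * Real.cos (c * t)) =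
      2 * Real.sin c / c ^ 3 - (1 + Real.cos c) / c ^ 2 := by
  have h : ∀ t ∈ Set.uIcc (0 : ℝ) 1, HasDerivAt (fun t : ℝ => (t - t ^ 2) * Real.sin (c * t) / c +
      (1 - 2 * t) * Real.cos (c * t) / c ^ 2 + 2 * Real.sin (c * t) / c ^ 3)
      (t * ((1 - t) * Real.cos (c * t))) t := by
    intro t _
    have h1 : HasDerivAt (fun t : ℝ => c * t) c t := by
      simpa using (hasDerivAt_id t).const_mul c
    have h3 : HasDerivAt (fun t : ℝ => t - t ^ 2) (1 - 2 * t) t := by
      have := (hasDerivAt_id t).sub ((hasDerivAt_id t).pow 2)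
      refine this.congr_deriv ?_
      simp
    have h4 : HasDerivAt (fun t : ℝ => 1 - 2 * t) (-2) t := by
      have := ((hasDerivAt_id t).const_mul 2).const_sub 1
      refine this.congr_deriv ?_
      simp
    have h2 := (((h3.mul h1.sin).div_const c).add ((h4.mul h1.cos).div_const (c ^ 2))).add
      ((h1.sin.const_mul 2).div_const (c ^ 3))
    refine h2.congr_deriv ?_
    field_simp
    ring
  rw [integral_eq_sub_of_hasDerivAt h ((by fun_prop : Continuous fun t : ℝ =>
    t * ((1 - t) * Real.cos (c * t))).intervalIntegrable _ _)]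
  simp only [mul_one, mul_zero, Real.cos_zero, Real.sin_zero]
  field_simp
  ring

lemma mom_g0 : mom g0 = 4 / 3 * Real.pi ^ 2 := by
  unfold mom g0
  have e : ∀ t : ℝ, t * (Real.pi ^ 2 * (1 - t)) = Real.pi ^ 2 * (t - t ^ 2) := by
    intro t; ring
  simp_rw [e]
  have c1 : Continuous fun t : ℝ => t := by fun_prop
  rw [intervalIntegral.integral_const_mul, intervalIntegral.integral_sub
    (c1.intervalIntegrable _ _) ((continuous_pow 2).intervalIntegrable _ _)]
  simp only [integral_id, integral_pow]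
  norm_num
  ring

lemma trig_HI {ν : ℝ} (h : HI ν) : Real.sin (2 * Real.pi * ν) = 0 := by
  obtain ⟨k, -, hk⟩ := h
  rw [show 2 * Real.pi * ν = k * Real.pi by rw [← hk]; ring]
  exact Real.sin_nat_mul_pi k

lemma mom_g1 {ν : ℝ} (h : HI ν) : mom (g1 ν) = -Real.cos (2 * Real.pi * ν) / (2 * ν ^ 2) := by
  have hν := h.pos
  have hpi := Real.pi_pos
  have hc : 2 * Real.pi * ν ≠ 0 := by positivity
  unfold mom g1
  have e : ∀ t : ℝ, t * (Real.pi / (2 * ν) * Real.sin (2 * Real.pi * ν * t)) =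
    Real.pi / (2 * ν) * (t * Real.sin (2 * Real.pi * ν * t)) := by intro t; ring
  simp_rw [e]
  rw [intervalIntegral.integral_const_mul, int_t_sin hc, trig_HI h, mul_zero, Real.sin_zero]
  field_simp
  ring

lemma mom_g2 {ν : ℝ} (h : HI ν) : mom (g2 ν) = Real.pi ^ 2 / (2 * ν ^ 2) -
    (1 + 2 * Real.cos (2 * Real.pi * ν)) / (4 * ν ^ 4) := by
  have hν := h.pos
  have hpi := Real.pi_pos
  have hc : 2 * Real.pi * ν ≠ 0 := by positivity
  unfold mom g2
  have e : ∀ t : ℝ, t * (Real.pi ^ 2 / (2 * ν ^ 2) * ((1 - t) * Real.cos (2 * Real.pi * ν * t)) +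
      Real.pi / (4 * ν ^ 3) * Real.sin (2 * Real.pi * ν * t)) =
    Real.pi ^ 2 / (2 * ν ^ 2) * (t * ((1 - t) * Real.cos (2 * Real.pi * ν * t))) +
      Real.pi / (4 * ν ^ 3) * (t * Real.sin (2 * Real.pi * ν * t)) := by intro t; ring
  simp_rw [e]
  have c1 : Continuous fun t : ℝ => Real.pi ^ 2 / (2 * ν ^ 2) *
    (t * ((1 - t) * Real.cos (2 * Real.pi * ν * t))) := by fun_prop
  have c2 : Continuous fun t : ℝ => Real.pi / (4 * ν ^ 3) *
    (t * Real.sin (2 * Real.pi * ν * t)) := by fun_prop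
  rw [intervalIntegral.integral_add (c1.intervalIntegrable _ _) (c2.intervalIntegrable _ _),
    intervalIntegral.integral_const_mul, intervalIntegral.integral_const_mul, int_t_sin hc,
    int_t_lin_cos hc, trig_HI h]
  simp only [mul_zero, Real.sin_zero, Real.cos_zero]
  field_simp
  ring

lemma ct_g0_zero : ct g0 0 = Real.pi ^ 2 := by
  unfold ct g0
  simp only [mul_zero, zero_mul, Real.cos_zero, mul_one]
  have c1 : Continuous fun t : ℝ => t := by fun_prop
  rw [intervalIntegral.integral_const_mul, intervalIntegral.integral_sub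
    (continuous_const.intervalIntegrable _ _) (c1.intervalIntegrable _ _)]
  simp only [integral_id, intervalIntegral.integral_const]
  norm_num
  ring

end Pool.Agent.TH873.EW
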