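import Pool.Agent.TH873.EW.Fam

/-!
# The two-node kernels on short intervals of `α`
-/

open MeasureTheory intervalIntegral

namespace Pool.Agent.TH873.EW

/-- the kernel with numerator `(p - α²) ((α + l)² - p)` -/
noncomputable def G0 (ν l α t : ℝ) : ℝ :=
  tn ν (-(α ^ 2 * (α + l) ^ 2)) (α ^ 2 + (α + l) ^ 2) (-1) 0 t

/-- the kernel with numerator `(p - α²) ((α + l)² - p) p` -/
noncomputable def G1 (ν l α t : ℝ) : ℝ :=
  tn ν 0 (-(α ^ 2 * (α + l) ^ 2)) (α ^ 2 + (α + l) ^ 2) (-1) t

lemma lin_pi (c0 c1 : ℝ) (h1 : 0 < c0 * (98696/10000) + c1) (h2 : 0 < c0 * (98697/10000) + c1) :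
    0 < c0 * Real.pi ^ 2 + c1 := by
  have p1 := Real.pi_gt_d6
  have p2 := Real.pi_lt_d6
  have q1 : (98696/10000 : ℝ) ≤ Real.pi ^ 2 := by nlinarith
  have q2 : Real.pi ^ 2 ≤ (98697/10000 : ℝ) := by nlinarith
  rcases le_or_gt 0 c0 with h | h
  · nlinarith [mul_le_mul_of_nonneg_left q1 h]
  · nlinarith [mul_le_mul_of_nonpos_left q2 h.le]

lemma hi_0 : HI (1) := ⟨2, by norm_num, by norm_num⟩
lemma cos_0 : Real.cos (2 * Real.pi * (1)) = 1 := by
  rw [show 2 * Real.pi * (1) = (2 : ℕ) * Real.pi by push_cast; ring, Real.cos_nat_mul_pi]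
  norm_num
lemma cos_0' : Real.cos (2 * Real.pi * ((1) + 1)) = 1 := by
  rw [show 2 * Real.pi * ((1) + 1) = (4 : ℕ) * Real.pi by push_cast; ring, Real.cos_nat_mul_pi]
  norm_num
lemma ss_0 : SS (1) 0 = 0 := by
  have h1 := one_sub_cos (Real.pi * (1))
  rw [show 2 * (Real.pi * (1)) = 2 * Real.pi * (1) by ring, cos_0] at h1
  unfold SS
  rw [sub_zero]
  linarith

lemma kap0 {α : ℝ} (h1 : (33/50) ≤ α) (h2 : α ≤ (27/25)) :
    0 < mom (G0 (1) (10595/10000) α) - ct (G0 (1) (10595/10000) α) 0 := by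
  have e : mom (G0 (1) (10595/10000) α) - ct (G0 (1) (10595/10000) α) 0 =
      ((-1836613/12000000) + (2119/9000) * α ^ 1 + (8309839/57600000) * α ^ 2 + (-2119/14400) * α ^ 3 + (-5/72) * α ^ 4) * Real.pi ^ 2 + ((636613/38400000) + (-2119/28800) * α ^ 1 + (-568873/460800000) * α ^ 2 + (14833/115200) * α ^ 3 + (35/576) * α ^ 4) := by
    unfold G0
    rw [mom_tn hi_0, mom_g2 hi_0, mom_g1 hi_0, mom_g2 hi_0.succ, mom_g1 hi_0.succ,
      cos_0, cos_0', ct_tn hi_0 _ _ _ _ (by norm_num) (by norm_num), ss_0]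
    unfold cB cC dB dC Nv Nd
    norm_num
    ring
  have a1 : 0 ≤ α - (33/50) := by linarith
  have a2 : 0 ≤ (27/25) - α := by linarith
  have b1 : 0 < ((-1836613/12000000) + (2119/9000) * α ^ 1 + (8309839/57600000) * α ^ 2 + (-2119/14400) * α ^ 3 + (-5/72) * α ^ 4) * (98696/10000) + ((636613/38400000) + (-2119/28800) * α ^ 1 + (-568873/460800000) * α ^ 2 + (14833/115200) * α ^ 3 + (35/576) * α ^ 4) := by
    have i1 : (194481/6250000) * ((((-1836613/12000000) + (2119/9000) * α ^ 1 + (8309839/57600000) * α ^ 2 + (-2119/14400) * α ^ 3 + (-5/72) * α ^ 4) * (98696/10000) + ((636613/38400000) + (-2119/28800) * α ^ 1 + (-568873/460800000) * α ^ 2 + (14833/115200) * α ^ 3 + (35/576) * α ^ 4)) - (1568777166767/40000000000000)) =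
        (5805579516973/80000000000000) * ((α - (33/50)) ^ 0 * ((27/25) - α) ^ 4) + (1593459087233/1600000000000) * ((α - (33/50)) ^ 1 * ((27/25) - α) ^ 3) + (32848060210671/16000000000000) * ((α - (33/50)) ^ 2 * ((27/25) - α) ^ 2) + (23766348758353/20000000000000) * ((α - (33/50)) ^ 3 * ((27/25) - α) ^ 1) + (1568777166767/40000000000000) * ((α - (33/50)) ^ 4 * ((27/25) - α) ^ 0) := by ring
    have i2 : (0 : ℝ) ≤ (5805579516973/80000000000000) * ((α - (33/50)) ^ 0 * ((27/25) - α) ^ 4) + (1593459087233/1600000000000) * ((α - (33/50)) ^ 1 * ((27/25) - α) ^ 3) + (32848060210671/16000000000000) * ((α - (33/50)) ^ 2 * ((27/25) - α) ^ 2) + (23766348758353/20000000000000) * ((α - (33/50)) ^ 3 * ((27/25) - α) ^ 1) + (1568777166767/40000000000000) * ((α - (33/50)) ^ 4 * ((27/25) - α) ^ 0) := by positivity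
    rw [← i1] at i2
    linarith [nonneg_of_mul_nonneg_right i2 (by norm_num)]
  have b2 : 0 < ((-1836613/12000000) + (2119/9000) * α ^ 1 + (8309839/57600000) * α ^ 2 + (-2119/14400) * α ^ 3 + (-5/72) * α ^ 4) * (98697/10000) + ((636613/38400000) + (-2119/28800) * α ^ 1 + (-568873/460800000) * α ^ 2 + (14833/115200) * α ^ 3 + (35/576) * α ^ 4) := by
    have i1 : (194481/6250000) * ((((-1836613/12000000) + (2119/9000) * α ^ 1 + (8309839/57600000) * α ^ 2 + (-2119/14400) * α ^ 3 + (-5/72) * α ^ 4) * (98697/10000) + ((636613/38400000) + (-2119/28800) * α ^ 1 + (-568873/460800000) * α ^ 2 + (14833/115200) * α ^ 3 + (35/576) * α ^ 4)) - (9412538856239/240000000000000)) =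
        (34834191118841/480000000000000) * ((α - (33/50)) ^ 0 * ((27/25) - α) ^ 4) + (9560873624261/9600000000000) * ((α - (33/50)) ^ 1 * ((27/25) - α) ^ 3) + (65696840338169/32000000000000) * ((α - (33/50)) ^ 2 * ((27/25) - α) ^ 2) + (142599445840301/120000000000000) * ((α - (33/50)) ^ 3 * ((27/25) - α) ^ 1) + (9412538856239/240000000000000) * ((α - (33/50)) ^ 4 * ((27/25) - α) ^ 0) := by ring
    have i2 : (0 : ℝ) ≤ (34834191118841/480000000000000) * ((α - (33/50)) ^ 0 * ((27/25) - α) ^ 4) + (9560873624261/9600000000000) * ((α - (33/50)) ^ 1 * ((27/25) - α) ^ 3) + (65696840338169/32000000000000) * ((α - (33/50)) ^ 2 * ((27/25) - α) ^ 2) + (142599445840301/120000000000000) * ((α - (33/50)) ^ 3 * ((27/25) - α) ^ 1) + (9412538856239/240000000000000) * ((α - (33/50)) ^ 4 * ((27/25) - α) ^ 0) := by positivity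
    rw [← i1] at i2
    linarith [nonneg_of_mul_nonneg_right i2 (by norm_num)]
  rw [e]
  exact lin_pi _ _ b1 b2

lemma hi_1 : HI (1) := ⟨2, by norm_num, by norm_num⟩
lemma cos_1 : Real.cos (2 * Real.pi * (1)) = 1 := by
  rw [show 2 * Real.pi * (1) = (2 : ℕ) * Real.pi by push_cast; ring, Real.cos_nat_mul_pi]
  norm_num
lemma cos_1' : Real.cos (2 * Real.pi * ((1) + 1)) = 1 := by
  rw [show 2 * Real.pi * ((1) + 1) = (4 : ℕ) * Real.pi by push_cast; ring, Real.cos_nat_mul_pi]
  norm_num
lemma ss_1 : SS (1) 0 = 0 := by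
  have h1 := one_sub_cos (Real.pi * (1))
  rw [show 2 * (Real.pi * (1)) = 2 * Real.pi * (1) by ring, cos_1] at h1
  unfold SS
  rw [sub_zero]
  linarith

lemma kap1 {α : ℝ} (h1 : (27/25) ≤ α) (h2 : α ≤ (27/20)) :
    0 < mom (G1 (1) (10595/10000) α) - ct (G1 (1) (10595/10000) α) 0 := by
  have e : mom (G1 (1) (10595/10000) α) - ct (G1 (1) (10595/10000) α) 0 =
      ((-3036613/4800000) + (2119/3600) * α ^ 1 + (15509839/36000000) * α ^ 2 + (-2119/9000) * α ^ 3 + (-1/9) * α ^ 4) * Real.pi ^ 2 + ((1836613/24000000) + (-2119/18000) * α ^ 1 + (-8309839/115200000) * α ^ 2 + (2119/28800) * α ^ 3 + (5/144) * α ^ 4) := by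
    unfold G1
    rw [mom_tn hi_1, mom_g2 hi_1, mom_g1 hi_1, mom_g2 hi_1.succ, mom_g1 hi_1.succ,
      cos_1, cos_1', ct_tn hi_1 _ _ _ _ (by norm_num) (by norm_num), ss_1]
    unfold cB cC dB dC Nv Nd
    norm_num
    ring
  have a1 : 0 ≤ α - (27/25) := by linarith
  have a2 : 0 ≤ (27/20) - α := by linarith
  have b1 : 0 < ((-3036613/4800000) + (2119/3600) * α ^ 1 + (15509839/36000000) * α ^ 2 + (-2119/9000) * α ^ 3 + (-1/9) * α ^ 4) * (98696/10000) + ((1836613/24000000) + (-2119/18000) * α ^ 1 + (-8309839/115200000) * α ^ 2 + (2119/28800) * α ^ 3 + (5/144) * α ^ 4) := by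
    have i1 : (531441/100000000) * ((((-3036613/4800000) + (2119/3600) * α ^ 1 + (15509839/36000000) * α ^ 2 + (-2119/9000) * α ^ 3 + (-1/9) * α ^ 4) * (98696/10000) + ((1836613/24000000) + (-2119/18000) * α ^ 1 + (-8309839/115200000) * α ^ 2 + (2119/28800) * α ^ 3 + (5/144) * α ^ 4)) - (1137482369989/32000000000000)) =
        (432335447515363/800000000000000) * ((α - (27/25)) ^ 0 * ((27/20) - α) ^ 4) + (513111079140439/200000000000000) * ((α - (27/25)) ^ 1 * ((27/20) - α) ^ 3) + (737125306054647/200000000000000) * ((α - (27/25)) ^ 2 * ((27/20) - α) ^ 2) + (66471880469/39062500000) * ((α - (27/25)) ^ 3 * ((27/20) - α) ^ 1) + (1137482369989/32000000000000) * ((α - (27/25)) ^ 4 * ((27/20) - α) ^ 0) := by ring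
    have i2 : (0 : ℝ) ≤ (432335447515363/800000000000000) * ((α - (27/25)) ^ 0 * ((27/20) - α) ^ 4) + (513111079140439/200000000000000) * ((α - (27/25)) ^ 1 * ((27/20) - α) ^ 3) + (737125306054647/200000000000000) * ((α - (27/25)) ^ 2 * ((27/20) - α) ^ 2) + (66471880469/39062500000) * ((α - (27/25)) ^ 3 * ((27/20) - α) ^ 1) + (1137482369989/32000000000000) * ((α - (27/25)) ^ 4 * ((27/20) - α) ^ 0) := by positivity
    rw [← i1] at i2
    linarith [nonneg_of_mul_nonneg_right i2 (by norm_num)]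
  have b2 : 0 < ((-3036613/4800000) + (2119/3600) * α ^ 1 + (15509839/36000000) * α ^ 2 + (-2119/9000) * α ^ 3 + (-1/9) * α ^ 4) * (98697/10000) + ((1836613/24000000) + (-2119/18000) * α ^ 1 + (-8309839/115200000) * α ^ 2 + (2119/28800) * α ^ 3 + (5/144) * α ^ 4) := by
    have i1 : (531441/100000000) * ((((-3036613/4800000) + (2119/3600) * α ^ 1 + (15509839/36000000) * α ^ 2 + (-2119/9000) * α ^ 3 + (-1/9) * α ^ 4) * (98697/10000) + ((1836613/24000000) + (-2119/18000) * α ^ 1 + (-8309839/115200000) * α ^ 2 + (2119/28800) * α ^ 3 + (5/144) * α ^ 4)) - (853110391511/24000000000000)) =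
        (324255090292637/600000000000000) * ((α - (27/25)) ^ 0 * ((27/20) - α) ^ 4) + (384837362633561/150000000000000) * ((α - (27/25)) ^ 1 * ((27/20) - α) ^ 3) + (11517701438161/3125000000000) * ((α - (27/25)) ^ 2 * ((27/20) - α) ^ 2) + (25525453357247/15000000000000) * ((α - (27/25)) ^ 3 * ((27/20) - α) ^ 1) + (853110391511/24000000000000) * ((α - (27/25)) ^ 4 * ((27/20) - α) ^ 0) := by ring
    have i2 : (0 : ℝ) ≤ (324255090292637/600000000000000) * ((α - (27/25)) ^ 0 * ((27/20) - α) ^ 4) + (384837362633561/150000000000000) * ((α - (27/25)) ^ 1 * ((27/20) - α) ^ 3) + (11517701438161/3125000000000) * ((α - (27/25)) ^ 2 * ((27/20) - α) ^ 2) + (25525453357247/15000000000000) * ((α - (27/25)) ^ 3 * ((27/20) - α) ^ 1) + (853110391511/24000000000000) * ((α - (27/25)) ^ 4 * ((27/20) - α) ^ 0) := by positivity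
    rw [← i1] at i2
    linarith [nonneg_of_mul_nonneg_right i2 (by norm_num)]
  rw [e]
  exact lin_pi _ _ b1 b2

lemma hi_2 : HI (3/2) := ⟨3, by norm_num, by norm_num⟩
lemma cos_2 : Real.cos (2 * Real.pi * (3/2)) = -1 := by
  rw [show 2 * Real.pi * (3/2) = (3 : ℕ) * Real.pi by push_cast; ring, Real.cos_nat_mul_pi]
  norm_num
lemma cos_2' : Real.cos (2 * Real.pi * ((3/2) + 1)) = -1 := by
  rw [show 2 * Real.pi * ((3/2) + 1) = (5 : ℕ) * Real.pi by push_cast; ring, Real.cos_nat_mul_pi]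
  norm_num
lemma ss_2 : SS (3/2) 0 = 1 := by
  have h1 := one_sub_cos (Real.pi * (3/2))
  rw [show 2 * (Real.pi * (3/2)) = 2 * Real.pi * (3/2) by ring, cos_2] at h1
  unfold SS
  rw [sub_zero]
  linarith

lemma kap2 {α : ℝ} (h1 : (27/20) ≤ α) (h2 : α ≤ (79/50)) :
    0 < mom (G0 (3/2) (10595/10000) α) - ct (G0 (3/2) (10595/10000) α) 0 := by
  have e : mom (G0 (3/2) (10595/10000) α) - ct (G0 (3/2) (10595/10000) α) 0 =
      ((-12509839/64000000) + (2119/16000) * α ^ 1 + (373667263/3600000000) * α ^ 2 + (-36023/900000) * α ^ 3 + (-17/900) * α ^ 4) * Real.pi ^ 2 + ((148667263/7200000000) + (-36023/1800000) * α ^ 1 + (-1638497317/135000000000) * α ^ 2 + (430157/33750000) * α ^ 3 + (203/33750) * α ^ 4) := by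
    unfold G0
    rw [mom_tn hi_2, mom_g2 hi_2, mom_g1 hi_2, mom_g2 hi_2.succ, mom_g1 hi_2.succ,
      cos_2, cos_2', ct_tn hi_2 _ _ _ _ (by norm_num) (by norm_num), ss_2]
    unfold cB cC dB dC Nv Nd
    norm_num
    ring
  have a1 : 0 ≤ α - (27/20) := by linarith
  have a2 : 0 ≤ (79/50) - α := by linarith
  have b1 : 0 < ((-12509839/64000000) + (2119/16000) * α ^ 1 + (373667263/3600000000) * α ^ 2 + (-36023/900000) * α ^ 3 + (-17/900) * α ^ 4) * (98696/10000) + ((148667263/7200000000) + (-36023/1800000) * α ^ 1 + (-1638497317/135000000000) * α ^ 2 + (430157/33750000) * α ^ 3 + (203/33750) * α ^ 4) := by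
    have i1 : (279841/100000000) * ((((-12509839/64000000) + (2119/16000) * α ^ 1 + (373667263/3600000000) * α ^ 2 + (-36023/900000) * α ^ 3 + (-17/900) * α ^ 4) * (98696/10000) + ((148667263/7200000000) + (-36023/1800000) * α ^ 1 + (-1638497317/135000000000) * α ^ 2 + (430157/33750000) * α ^ 3 + (203/33750) * α ^ 4)) - (21062076292729/2109375000000000)) =
        (16760603696250269/135000000000000000) * ((α - (27/20)) ^ 0 * ((79/50) - α) ^ 4) + (35921258007418303/67500000000000000) * ((α - (27/20)) ^ 1 * ((79/50) - α) ^ 3) + (97047479210521901/135000000000000000) * ((α - (27/20)) ^ 2 * ((79/50) - α) ^ 2) + (2169084819672851/6750000000000000) * ((α - (27/20)) ^ 3 * ((79/50) - α) ^ 1) + (21062076292729/2109375000000000) * ((α - (27/20)) ^ 4 * ((79/50) - α) ^ 0) := by ring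
    have i2 : (0 : ℝ) ≤ (16760603696250269/135000000000000000) * ((α - (27/20)) ^ 0 * ((79/50) - α) ^ 4) + (35921258007418303/67500000000000000) * ((α - (27/20)) ^ 1 * ((79/50) - α) ^ 3) + (97047479210521901/135000000000000000) * ((α - (27/20)) ^ 2 * ((79/50) - α) ^ 2) + (2169084819672851/6750000000000000) * ((α - (27/20)) ^ 3 * ((79/50) - α) ^ 1) + (21062076292729/2109375000000000) * ((α - (27/20)) ^ 4 * ((79/50) - α) ^ 0) := by positivity
    rw [← i1] at i2
    linarith [nonneg_of_mul_nonneg_right i2 (by norm_num)]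
  have b2 : 0 < ((-12509839/64000000) + (2119/16000) * α ^ 1 + (373667263/3600000000) * α ^ 2 + (-36023/900000) * α ^ 3 + (-17/900) * α ^ 4) * (98697/10000) + ((148667263/7200000000) + (-36023/1800000) * α ^ 1 + (-1638497317/135000000000) * α ^ 2 + (430157/33750000) * α ^ 3 + (203/33750) * α ^ 4) := by
    have i1 : (279841/100000000) * ((((-12509839/64000000) + (2119/16000) * α ^ 1 + (373667263/3600000000) * α ^ 2 + (-36023/900000) * α ^ 3 + (-17/900) * α ^ 4) * (98697/10000) + ((148667263/7200000000) + (-36023/1800000) * α ^ 1 + (-1638497317/135000000000) * α ^ 2 + (430157/33750000) * α ^ 3 + (203/33750) * α ^ 4)) - (168494343543149/16875000000000000)) =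
        (134086192453524889/1080000000000000000) * ((α - (27/20)) ^ 0 * ((79/50) - α) ^ 4) + (287372888605412243/540000000000000000) * ((α - (27/20)) ^ 1 * ((79/50) - α) ^ 3) + (776387090478203881/1080000000000000000) * ((α - (27/20)) ^ 2 * ((79/50) - α) ^ 2) + (17352820118335831/54000000000000000) * ((α - (27/20)) ^ 3 * ((79/50) - α) ^ 1) + (168494343543149/16875000000000000) * ((α - (27/20)) ^ 4 * ((79/50) - α) ^ 0) := by ring
    have i2 : (0 : ℝ) ≤ (134086192453524889/1080000000000000000) * ((α - (27/20)) ^ 0 * ((79/50) - α) ^ 4) + (287372888605412243/540000000000000000) * ((α - (27/20)) ^ 1 * ((79/50) - α) ^ 3) + (776387090478203881/1080000000000000000) * ((α - (27/20)) ^ 2 * ((79/50) - α) ^ 2) + (17352820118335831/54000000000000000) * ((α - (27/20)) ^ 3 * ((79/50) - α) ^ 1) + (168494343543149/16875000000000000) * ((α - (27/20)) ^ 4 * ((79/50) - α) ^ 0) := by positivity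
    rw [← i1] at i2
    linarith [nonneg_of_mul_nonneg_right i2 (by norm_num)]
  rw [e]
  exact lin_pi _ _ b1 b2

lemma hi_3 : HI (3/2) := ⟨3, by norm_num, by norm_num⟩
lemma cos_3 : Real.cos (2 * Real.pi * (3/2)) = -1 := by
  rw [show 2 * Real.pi * (3/2) = (3 : ℕ) * Real.pi by push_cast; ring, Real.cos_nat_mul_pi]
  norm_num
lemma cos_3' : Real.cos (2 * Real.pi * ((3/2) + 1)) = -1 := by
  rw [show 2 * Real.pi * ((3/2) + 1) = (5 : ℕ) * Real.pi by push_cast; ring, Real.cos_nat_mul_pi]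
  norm_num
lemma ss_3 : SS (3/2) 0 = 1 := by
  have h1 := one_sub_cos (Real.pi * (3/2))
  rw [show 2 * (Real.pi * (3/2)) = 2 * Real.pi * (3/2) by ring, cos_3] at h1
  unfold SS
  rw [sub_zero]
  linarith

lemma kap3 {α : ℝ} (h1 : (79/50) ≤ α) (h2 : α ≤ (179/100)) :
    0 < mom (G1 (3/2) (10595/10000) α) - ct (G1 (3/2) (10595/10000) α) 0 := by
  have e : mom (G1 (3/2) (10595/10000) α) - ct (G1 (3/2) (10595/10000) α) 0 =
      ((-276667263/256000000) + (36023/64000) * α ^ 1 + (29509839/64000000) * α ^ 2 + (-2119/16000) * α ^ 3 + (-1/16) * α ^ 4) * Real.pi ^ 2 + ((12509839/128000000) + (-2119/32000) * α ^ 1 + (-373667263/7200000000) * α ^ 2 + (36023/1800000) * α ^ 3 + (17/1800) * α ^ 4) := by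
    unfold G1
    rw [mom_tn hi_3, mom_g2 hi_3, mom_g1 hi_3, mom_g2 hi_3.succ, mom_g1 hi_3.succ,
      cos_3, cos_3', ct_tn hi_3 _ _ _ _ (by norm_num) (by norm_num), ss_3]
    unfold cB cC dB dC Nv Nd
    norm_num
    ring
  have a1 : 0 ≤ α - (79/50) := by linarith
  have a2 : 0 ≤ (179/100) - α := by linarith
  have b1 : 0 < ((-276667263/256000000) + (36023/64000) * α ^ 1 + (29509839/64000000) * α ^ 2 + (-2119/16000) * α ^ 3 + (-1/16) * α ^ 4) * (98696/10000) + ((12509839/128000000) + (-2119/32000) * α ^ 1 + (-373667263/7200000000) * α ^ 2 + (36023/1800000) * α ^ 3 + (17/1800) * α ^ 4) := by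
    have i1 : (194481/100000000) * ((((-276667263/256000000) + (36023/64000) * α ^ 1 + (29509839/64000000) * α ^ 2 + (-2119/16000) * α ^ 3 + (-1/16) * α ^ 4) * (98696/10000) + ((12509839/128000000) + (-2119/32000) * α ^ 1 + (-373667263/7200000000) * α ^ 2 + (36023/1800000) * α ^ 3 + (17/1800) * α ^ 4)) - (387434591688047/14400000000000000)) =
        (6422345005690769/14400000000000000) * ((α - (79/50)) ^ 0 * ((179/100) - α) ^ 4) + (1357496084391751/720000000000000) * ((α - (79/50)) ^ 1 * ((179/100) - α) ^ 3) + (602013912057479/240000000000000) * ((α - (79/50)) ^ 2 * ((179/100) - α) ^ 2) + (1974712898241367/1800000000000000) * ((α - (79/50)) ^ 3 * ((179/100) - α) ^ 1) + (387434591688047/14400000000000000) * ((α - (79/50)) ^ 4 * ((179/100) - α) ^ 0) := by ring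
    have i2 : (0 : ℝ) ≤ (6422345005690769/14400000000000000) * ((α - (79/50)) ^ 0 * ((179/100) - α) ^ 4) + (1357496084391751/720000000000000) * ((α - (79/50)) ^ 1 * ((179/100) - α) ^ 3) + (602013912057479/240000000000000) * ((α - (79/50)) ^ 2 * ((179/100) - α) ^ 2) + (1974712898241367/1800000000000000) * ((α - (79/50)) ^ 3 * ((179/100) - α) ^ 1) + (387434591688047/14400000000000000) * ((α - (79/50)) ^ 4 * ((179/100) - α) ^ 0) := by positivity
    rw [← i1] at i2
    linarith [nonneg_of_mul_nonneg_right i2 (by norm_num)]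
  have b2 : 0 < ((-276667263/256000000) + (36023/64000) * α ^ 1 + (29509839/64000000) * α ^ 2 + (-2119/16000) * α ^ 3 + (-1/16) * α ^ 4) * (98697/10000) + ((12509839/128000000) + (-2119/32000) * α ^ 1 + (-373667263/7200000000) * α ^ 2 + (36023/1800000) * α ^ 3 + (17/1800) * α ^ 4) := by
    have i1 : (194481/100000000) * ((((-276667263/256000000) + (36023/64000) * α ^ 1 + (29509839/64000000) * α ^ 2 + (-2119/16000) * α ^ 3 + (-1/16) * α ^ 4) * (98697/10000) + ((12509839/128000000) + (-2119/32000) * α ^ 1 + (-373667263/7200000000) * α ^ 2 + (36023/1800000) * α ^ 3 + (17/1800) * α ^ 4)) - (3099493749695107/115200000000000000)) =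
        (51379293441611389/115200000000000000) * ((α - (79/50)) ^ 0 * ((179/100) - α) ^ 4) + (10860080432100731/5760000000000000) * ((α - (79/50)) ^ 1 * ((179/100) - α) ^ 3) + (4816160376083899/1920000000000000) * ((α - (79/50)) ^ 2 * ((179/100) - α) ^ 2) + (15797860867262027/14400000000000000) * ((α - (79/50)) ^ 3 * ((179/100) - α) ^ 1) + (3099493749695107/115200000000000000) * ((α - (79/50)) ^ 4 * ((179/100) - α) ^ 0) := by ring
    have i2 : (0 : ℝ) ≤ (51379293441611389/115200000000000000) * ((α - (79/50)) ^ 0 * ((179/100) - α) ^ 4) + (10860080432100731/5760000000000000) * ((α - (79/50)) ^ 1 * ((179/100) - α) ^ 3) + (4816160376083899/1920000000000000) * ((α - (79/50)) ^ 2 * ((179/100) - α) ^ 2) + (15797860867262027/14400000000000000) * ((α - (79/50)) ^ 3 * ((179/100) - α) ^ 1) + (3099493749695107/115200000000000000) * ((α - (79/50)) ^ 4 * ((179/100) - α) ^ 0) := by positivity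
    rw [← i1] at i2
    linarith [nonneg_of_mul_nonneg_right i2 (by norm_num)]
  rw [e]
  exact lin_pi _ _ b1 b2

lemma hi_4 : HI (2) := ⟨4, by norm_num, by norm_num⟩
lemma cos_4 : Real.cos (2 * Real.pi * (2)) = 1 := by
  rw [show 2 * Real.pi * (2) = (4 : ℕ) * Real.pi by push_cast; ring, Real.cos_nat_mul_pi]
  norm_num
lemma cos_4' : Real.cos (2 * Real.pi * ((2) + 1)) = 1 := by
  rw [show 2 * Real.pi * ((2) + 1) = (6 : ℕ) * Real.pi by push_cast; ring, Real.cos_nat_mul_pi]
  norm_num
lemma ss_4 : SS (2) 0 = 0 := by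
  have h1 := one_sub_cos (Real.pi * (2))
  rw [show 2 * (Real.pi * (2)) = 2 * Real.pi * (2) by ring, cos_4] at h1
  unfold SS
  rw [sub_zero]
  linarith

lemma kap4 {α : ℝ} (h1 : (179/100) ≤ α) (h2 : α ≤ (52/25)) :
    0 < mom (G0 (2) (10595/10000) α) - ct (G0 (2) (10595/10000) α) 0 := by
  have e : mom (G0 (2) (10595/10000) α) - ct (G0 (2) (10595/10000) α) 0 =
      ((-21509839/100000000) + (2119/25000) * α ^ 1 + (517627907/7200000000) * α ^ 2 + (-27547/1800000) * α ^ 3 + (-13/1800) * α ^ 4) * Real.pi ^ 2 + ((229627907/14400000000) + (-27547/3600000) * α ^ 1 + (-1027982111/172800000000) * α ^ 2 + (103831/43200000) * α ^ 3 + (49/43200) * α ^ 4) := by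
    unfold G0
    rw [mom_tn hi_4, mom_g2 hi_4, mom_g1 hi_4, mom_g2 hi_4.succ, mom_g1 hi_4.succ,
      cos_4, cos_4', ct_tn hi_4 _ _ _ _ (by norm_num) (by norm_num), ss_4]
    unfold cB cC dB dC Nv Nd
    norm_num
    ring
  have a1 : 0 ≤ α - (179/100) := by linarith
  have a2 : 0 ≤ (52/25) - α := by linarith
  have b1 : 0 < ((-21509839/100000000) + (2119/25000) * α ^ 1 + (517627907/7200000000) * α ^ 2 + (-27547/1800000) * α ^ 3 + (-13/1800) * α ^ 4) * (98696/10000) + ((229627907/14400000000) + (-27547/3600000) * α ^ 1 + (-1027982111/172800000000) * α ^ 2 + (103831/43200000) * α ^ 3 + (49/43200) * α ^ 4) := by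
    have i1 : (707281/100000000) * ((((-21509839/100000000) + (2119/25000) * α ^ 1 + (517627907/7200000000) * α ^ 2 + (-27547/1800000) * α ^ 3 + (-13/1800) * α ^ 4) * (98696/10000) + ((229627907/14400000000) + (-27547/3600000) * α ^ 1 + (-1027982111/172800000000) * α ^ 2 + (103831/43200000) * α ^ 3 + (49/43200) * α ^ 4)) - (59688953845991/11250000000000000)) =
        (57463818240706837/1080000000000000000) * ((α - (179/100)) ^ 0 * ((52/25) - α) ^ 4) + (163438956283320257/540000000000000000) * ((α - (179/100)) ^ 1 * ((52/25) - α) ^ 3) + (504774758332452733/1080000000000000000) * ((α - (179/100)) ^ 2 * ((52/25) - α) ^ 2) + (2516944006947677/11250000000000000) * ((α - (179/100)) ^ 3 * ((52/25) - α) ^ 1) + (59688953845991/11250000000000000) * ((α - (179/100)) ^ 4 * ((52/25) - α) ^ 0) := by ring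
    have i2 : (0 : ℝ) ≤ (57463818240706837/1080000000000000000) * ((α - (179/100)) ^ 0 * ((52/25) - α) ^ 4) + (163438956283320257/540000000000000000) * ((α - (179/100)) ^ 1 * ((52/25) - α) ^ 3) + (504774758332452733/1080000000000000000) * ((α - (179/100)) ^ 2 * ((52/25) - α) ^ 2) + (2516944006947677/11250000000000000) * ((α - (179/100)) ^ 3 * ((52/25) - α) ^ 1) + (59688953845991/11250000000000000) * ((α - (179/100)) ^ 4 * ((52/25) - α) ^ 0) := by positivity
    rw [← i1] at i2
    linarith [nonneg_of_mul_nonneg_right i2 (by norm_num)]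
  have b2 : 0 < ((-21509839/100000000) + (2119/25000) * α ^ 1 + (517627907/7200000000) * α ^ 2 + (-27547/1800000) * α ^ 3 + (-13/1800) * α ^ 4) * (98697/10000) + ((229627907/14400000000) + (-27547/3600000) * α ^ 1 + (-1027982111/172800000000) * α ^ 2 + (103831/43200000) * α ^ 3 + (49/43200) * α ^ 4) := by
    have i1 : (707281/100000000) * ((((-21509839/100000000) + (2119/25000) * α ^ 1 + (517627907/7200000000) * α ^ 2 + (-27547/1800000) * α ^ 3 + (-13/1800) * α ^ 4) * (98697/10000) + ((229627907/14400000000) + (-27547/3600000) * α ^ 1 + (-1027982111/172800000000) * α ^ 2 + (103831/43200000) * α ^ 3 + (49/43200) * α ^ 4)) - (29844290528131/5625000000000000)) =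
        (114928800031870643/2160000000000000000) * ((α - (179/100)) ^ 0 * ((52/25) - α) ^ 4) + (326881158688934023/1080000000000000000) * ((α - (179/100)) ^ 1 * ((52/25) - α) ^ 3) + (1009559302997292587/2160000000000000000) * ((α - (179/100)) ^ 2 * ((52/25) - α) ^ 2) + (5033933816980903/22500000000000000) * ((α - (179/100)) ^ 3 * ((52/25) - α) ^ 1) + (29844290528131/5625000000000000) * ((α - (179/100)) ^ 4 * ((52/25) - α) ^ 0) := by ring
    have i2 : (0 : ℝ) ≤ (114928800031870643/2160000000000000000) * ((α - (179/100)) ^ 0 * ((52/25) - α) ^ 4) + (326881158688934023/1080000000000000000) * ((α - (179/100)) ^ 1 * ((52/25) - α) ^ 3) + (1009559302997292587/2160000000000000000) * ((α - (179/100)) ^ 2 * ((52/25) - α) ^ 2) + (5033933816980903/22500000000000000) * ((α - (179/100)) ^ 3 * ((52/25) - α) ^ 1) + (29844290528131/5625000000000000) * ((α - (179/100)) ^ 4 * ((52/25) - α) ^ 0) := by positivity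
    rw [← i1] at i2
    linarith [nonneg_of_mul_nonneg_right i2 (by norm_num)]
  rw [e]
  exact lin_pi _ _ b1 b2

lemma hi_5 : HI (2) := ⟨4, by norm_num, by norm_num⟩
lemma cos_5 : Real.cos (2 * Real.pi * (2)) = 1 := by
  rw [show 2 * Real.pi * (2) = (4 : ℕ) * Real.pi by push_cast; ring, Real.cos_nat_mul_pi]
  norm_num
lemma cos_5' : Real.cos (2 * Real.pi * ((2) + 1)) = 1 := by
  rw [show 2 * Real.pi * ((2) + 1) = (6 : ℕ) * Real.pi by push_cast; ring, Real.cos_nat_mul_pi]
  norm_num
lemma ss_5 : SS (2) 0 = 0 := by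
  have h1 := one_sub_cos (Real.pi * (2))
  rw [show 2 * (Real.pi * (2)) = 2 * Real.pi * (2) by ring, cos_5] at h1
  unfold SS
  rw [sub_zero]
  linarith

lemma kap5 {α : ℝ} (h1 : (52/25) ≤ α) (h2 : α ≤ (9/4)) :
    0 < mom (G1 (2) (10595/10000) α) - ct (G1 (2) (10595/10000) α) 0 := by
  have e : mom (G1 (2) (10595/10000) α) - ct (G1 (2) (10595/10000) α) 0 =
      ((-329627907/200000000) + (27547/50000) * α ^ 1 + (47509839/100000000) * α ^ 2 + (-2119/25000) * α ^ 3 + (-1/25) * α ^ 4) * Real.pi ^ 2 + ((21509839/200000000) + (-2119/50000) * α ^ 1 + (-517627907/14400000000) * α ^ 2 + (27547/3600000) * α ^ 3 + (13/3600) * α ^ 4) := by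
    unfold G1
    rw [mom_tn hi_5, mom_g2 hi_5, mom_g1 hi_5, mom_g2 hi_5.succ, mom_g1 hi_5.succ,
      cos_5, cos_5', ct_tn hi_5 _ _ _ _ (by norm_num) (by norm_num), ss_5]
    unfold cB cC dB dC Nv Nd
    norm_num
    ring
  have a1 : 0 ≤ α - (52/25) := by linarith
  have a2 : 0 ≤ (9/4) - α := by linarith
  have b1 : 0 < ((-329627907/200000000) + (27547/50000) * α ^ 1 + (47509839/100000000) * α ^ 2 + (-2119/25000) * α ^ 3 + (-1/25) * α ^ 4) * (98696/10000) + ((21509839/200000000) + (-2119/50000) * α ^ 1 + (-517627907/14400000000) * α ^ 2 + (27547/3600000) * α ^ 3 + (13/3600) * α ^ 4) := by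
    have i1 : (83521/100000000) * ((((-329627907/200000000) + (27547/50000) * α ^ 1 + (47509839/100000000) * α ^ 2 + (-2119/25000) * α ^ 3 + (-1/25) * α ^ 4) * (98696/10000) + ((21509839/200000000) + (-2119/50000) * α ^ 1 + (-517627907/14400000000) * α ^ 2 + (27547/3600000) * α ^ 3 + (13/3600) * α ^ 4)) - (1111876227413/32000000000000)) =
        (7567443525449467/20000000000000000) * ((α - (52/25)) ^ 0 * ((9/4) - α) ^ 4) + (22480708958322593/15000000000000000) * ((α - (52/25)) ^ 1 * ((9/4) - α) ^ 3) + (86285078296358447/45000000000000000) * ((α - (52/25)) ^ 2 * ((9/4) - α) ^ 2) + (41608863684817/50000000000000) * ((α - (52/25)) ^ 3 * ((9/4) - α) ^ 1) + (1111876227413/32000000000000) * ((α - (52/25)) ^ 4 * ((9/4) - α) ^ 0) := by ring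
    have i2 : (0 : ℝ) ≤ (7567443525449467/20000000000000000) * ((α - (52/25)) ^ 0 * ((9/4) - α) ^ 4) + (22480708958322593/15000000000000000) * ((α - (52/25)) ^ 1 * ((9/4) - α) ^ 3) + (86285078296358447/45000000000000000) * ((α - (52/25)) ^ 2 * ((9/4) - α) ^ 2) + (41608863684817/50000000000000) * ((α - (52/25)) ^ 3 * ((9/4) - α) ^ 1) + (1111876227413/32000000000000) * ((α - (52/25)) ^ 4 * ((9/4) - α) ^ 0) := by positivity
    rw [← i1] at i2
    linarith [nonneg_of_mul_nonneg_right i2 (by norm_num)]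
  have b2 : 0 < ((-329627907/200000000) + (27547/50000) * α ^ 1 + (47509839/100000000) * α ^ 2 + (-2119/25000) * α ^ 3 + (-1/25) * α ^ 4) * (98697/10000) + ((21509839/200000000) + (-2119/50000) * α ^ 1 + (-517627907/14400000000) * α ^ 2 + (27547/3600000) * α ^ 3 + (13/3600) * α ^ 4) := by
    have i1 : (83521/100000000) * ((((-329627907/200000000) + (27547/50000) * α ^ 1 + (47509839/100000000) * α ^ 2 + (-2119/25000) * α ^ 3 + (-1/25) * α ^ 4) * (98697/10000) + ((21509839/200000000) + (-2119/50000) * α ^ 1 + (-517627907/14400000000) * α ^ 2 + (27547/3600000) * α ^ 3 + (13/3600) * α ^ 4)) - (277971471029/8000000000000)) =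
        (1891880284542511/5000000000000000) * ((α - (52/25)) ^ 0 * ((9/4) - α) ^ 4) + (5620234646278469/3750000000000000) * ((α - (52/25)) ^ 1 * ((9/4) - α) ^ 3) + (2696436097904497/1406250000000000) * ((α - (52/25)) ^ 2 * ((9/4) - α) ^ 2) + (20804640906247/25000000000000) * ((α - (52/25)) ^ 3 * ((9/4) - α) ^ 1) + (277971471029/8000000000000) * ((α - (52/25)) ^ 4 * ((9/4) - α) ^ 0) := by ring
    have i2 : (0 : ℝ) ≤ (1891880284542511/5000000000000000) * ((α - (52/25)) ^ 0 * ((9/4) - α) ^ 4) + (5620234646278469/3750000000000000) * ((α - (52/25)) ^ 1 * ((9/4) - α) ^ 3) + (2696436097904497/1406250000000000) * ((α - (52/25)) ^ 2 * ((9/4) - α) ^ 2) + (20804640906247/25000000000000) * ((α - (52/25)) ^ 3 * ((9/4) - α) ^ 1) + (277971471029/8000000000000) * ((α - (52/25)) ^ 4 * ((9/4) - α) ^ 0) := by positivity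
    rw [← i1] at i2
    linarith [nonneg_of_mul_nonneg_right i2 (by norm_num)]
  rw [e]
  exact lin_pi _ _ b1 b2

lemma hi_6 : HI (5/2) := ⟨5, by norm_num, by norm_num⟩
lemma cos_6 : Real.cos (2 * Real.pi * (5/2)) = -1 := by
  rw [show 2 * Real.pi * (5/2) = (5 : ℕ) * Real.pi by push_cast; ring, Real.cos_nat_mul_pi]
  norm_num
lemma cos_6' : Real.cos (2 * Real.pi * ((5/2) + 1)) = -1 := by
  rw [show 2 * Real.pi * ((5/2) + 1) = (7 : ℕ) * Real.pi by push_cast; ring, Real.cos_nat_mul_pi]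
  norm_num
lemma ss_6 : SS (5/2) 0 = 1 := by
  have h1 := one_sub_cos (Real.pi * (5/2))
  rw [show 2 * (Real.pi * (5/2)) = 2 * Real.pi * (5/2) by ring, cos_6] at h1
  unfold SS
  rw [sub_zero]
  linarith

lemma kap6 {α : ℝ} (h1 : (9/4) ≤ α) (h2 : α ≤ (129/50)) :
    0 < mom (G0 (5/2) (10595/10000) α) - ct (G0 (5/2) (10595/10000) α) 0 := by
  have e : mom (G0 (5/2) (10595/10000) α) - ct (G0 (5/2) (10595/10000) α) 0 =
      ((-10836613/48000000) + (2119/36000) * α ^ 1 + (2283864043/44100000000) * α ^ 2 + (-78403/11025000) * α ^ 3 + (-37/11025) * α ^ 4) * Real.pi ^ 2 + ((352954681/29400000000) + (-78403/22050000) * α ^ 1 + (-81270053671/27011250000000) * α ^ 2 + (4426591/6752812500) * α ^ 3 + (4178/13505625) * α ^ 4) := by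
    unfold G0
    rw [mom_tn hi_6, mom_g2 hi_6, mom_g1 hi_6, mom_g2 hi_6.succ, mom_g1 hi_6.succ,
      cos_6, cos_6', ct_tn hi_6 _ _ _ _ (by norm_num) (by norm_num), ss_6]
    unfold cB cC dB dC Nv Nd
    norm_num
    ring
  have a1 : 0 ≤ α - (9/4) := by linarith
  have a2 : 0 ≤ (129/50) - α := by linarith
  have b1 : 0 < ((-10836613/48000000) + (2119/36000) * α ^ 1 + (2283864043/44100000000) * α ^ 2 + (-78403/11025000) * α ^ 3 + (-37/11025) * α ^ 4) * (98696/10000) + ((352954681/29400000000) + (-78403/22050000) * α ^ 1 + (-81270053671/27011250000000) * α ^ 2 + (4426591/6752812500) * α ^ 3 + (4178/13505625) * α ^ 4) := by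
    have i1 : (1185921/100000000) * ((((-10836613/48000000) + (2119/36000) * α ^ 1 + (2283864043/44100000000) * α ^ 2 + (-78403/11025000) * α ^ 3 + (-37/11025) * α ^ 4) * (98696/10000) + ((352954681/29400000000) + (-78403/22050000) * α ^ 1 + (-81270053671/27011250000000) * α ^ 2 + (4426591/6752812500) * α ^ 3 + (4178/13505625) * α ^ 4)) - (1453847660255849/375156250000000000)) =
        (55354309104785083/3001250000000000000) * ((α - (9/4)) ^ 0 * ((129/50) - α) ^ 4) + (37949486387871263/214375000000000000) * ((α - (9/4)) ^ 1 * ((129/50) - α) ^ 3) + (948672499323703587/3001250000000000000) * ((α - (9/4)) ^ 2 * ((129/50) - α) ^ 2) + (24276633977522669/150062500000000000) * ((α - (9/4)) ^ 3 * ((129/50) - α) ^ 1) + (1453847660255849/375156250000000000) * ((α - (9/4)) ^ 4 * ((129/50) - α) ^ 0) := by ring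
    have i2 : (0 : ℝ) ≤ (55354309104785083/3001250000000000000) * ((α - (9/4)) ^ 0 * ((129/50) - α) ^ 4) + (37949486387871263/214375000000000000) * ((α - (9/4)) ^ 1 * ((129/50) - α) ^ 3) + (948672499323703587/3001250000000000000) * ((α - (9/4)) ^ 2 * ((129/50) - α) ^ 2) + (24276633977522669/150062500000000000) * ((α - (9/4)) ^ 3 * ((129/50) - α) ^ 1) + (1453847660255849/375156250000000000) * ((α - (9/4)) ^ 4 * ((129/50) - α) ^ 0) := by positivity
    rw [← i1] at i2
    linarith [nonneg_of_mul_nonneg_right i2 (by norm_num)]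
  have b2 : 0 < ((-10836613/48000000) + (2119/36000) * α ^ 1 + (2283864043/44100000000) * α ^ 2 + (-78403/11025000) * α ^ 3 + (-37/11025) * α ^ 4) * (98697/10000) + ((352954681/29400000000) + (-78403/22050000) * α ^ 1 + (-81270053671/27011250000000) * α ^ 2 + (4426591/6752812500) * α ^ 3 + (4178/13505625) * α ^ 4) := by
    have i1 : (1185921/100000000) * ((((-10836613/48000000) + (2119/36000) * α ^ 1 + (2283864043/44100000000) * α ^ 2 + (-78403/11025000) * α ^ 3 + (-37/11025) * α ^ 4) * (98697/10000) + ((352954681/29400000000) + (-78403/22050000) * α ^ 1 + (-81270053671/27011250000000) * α ^ 2 + (4426591/6752812500) * α ^ 3 + (4178/13505625) * α ^ 4)) - (34892343036156607/9003750000000000000)) =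
        (442838890576693423/24010000000000000000) * ((α - (9/4)) ^ 0 * ((129/50) - α) ^ 4) + (910796722625968009/5145000000000000000) * ((α - (9/4)) ^ 1 * ((129/50) - α) ^ 3) + (7589454514820921847/24010000000000000000) * ((α - (9/4)) ^ 2 * ((129/50) - α) ^ 2) + (194214911881299289/1200500000000000000) * ((α - (9/4)) ^ 3 * ((129/50) - α) ^ 1) + (34892343036156607/9003750000000000000) * ((α - (9/4)) ^ 4 * ((129/50) - α) ^ 0) := by ring
    have i2 : (0 : ℝ) ≤ (442838890576693423/24010000000000000000) * ((α - (9/4)) ^ 0 * ((129/50) - α) ^ 4) + (910796722625968009/5145000000000000000) * ((α - (9/4)) ^ 1 * ((129/50) - α) ^ 3) + (7589454514820921847/24010000000000000000) * ((α - (9/4)) ^ 2 * ((129/50) - α) ^ 2) + (194214911881299289/1200500000000000000) * ((α - (9/4)) ^ 3 * ((129/50) - α) ^ 1) + (34892343036156607/9003750000000000000) * ((α - (9/4)) ^ 4 * ((129/50) - α) ^ 0) := by positivity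
    rw [← i1] at i2
    linarith [nonneg_of_mul_nonneg_right i2 (by norm_num)]
  rw [e]
  exact lin_pi _ _ b1 b2

lemma hi_7 : HI (5/2) := ⟨5, by norm_num, by norm_num⟩
lemma cos_7 : Real.cos (2 * Real.pi * (5/2)) = -1 := by
  rw [show 2 * Real.pi * (5/2) = (5 : ℕ) * Real.pi by push_cast; ring, Real.cos_nat_mul_pi]
  norm_num
lemma cos_7' : Real.cos (2 * Real.pi * ((5/2) + 1)) = -1 := by
  rw [show 2 * Real.pi * ((5/2) + 1) = (7 : ℕ) * Real.pi by push_cast; ring, Real.cos_nat_mul_pi]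
  norm_num
lemma ss_7 : SS (5/2) 0 = 1 := by
  have h1 := one_sub_cos (Real.pi * (5/2))
  rw [show 2 * (Real.pi * (5/2)) = 2 * Real.pi * (5/2) by ring, cos_7] at h1
  unfold SS
  rw [sub_zero]
  linarith

lemma kap7 {α : ℝ} (h1 : (129/50) ≤ α) (h2 : α ≤ (68/25)) :
    0 < mom (G1 (5/2) (10595/10000) α) - ct (G1 (5/2) (10595/10000) α) 0 := by
  have e : mom (G1 (5/2) (10595/10000) α) - ct (G1 (5/2) (10595/10000) α) 0 =
      ((-448954681/192000000) + (78403/144000) * α ^ 1 + (69509839/144000000) * α ^ 2 + (-2119/36000) * α ^ 3 + (-1/36) * α ^ 4) * Real.pi ^ 2 + ((10836613/96000000) + (-2119/72000) * α ^ 1 + (-2283864043/88200000000) * α ^ 2 + (78403/22050000) * α ^ 3 + (37/22050) * α ^ 4) := by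
    unfold G1
    rw [mom_tn hi_7, mom_g2 hi_7, mom_g1 hi_7, mom_g2 hi_7.succ, mom_g1 hi_7.succ,
      cos_7, cos_7', ct_tn hi_7 _ _ _ _ (by norm_num) (by norm_num), ss_7]
    unfold cB cC dB dC Nv Nd
    norm_num
    ring
  have a1 : 0 ≤ α - (129/50) := by linarith
  have a2 : 0 ≤ (68/25) - α := by linarith
  have b1 : 0 < ((-448954681/192000000) + (78403/144000) * α ^ 1 + (69509839/144000000) * α ^ 2 + (-2119/36000) * α ^ 3 + (-1/36) * α ^ 4) * (98696/10000) + ((10836613/96000000) + (-2119/72000) * α ^ 1 + (-2283864043/88200000000) * α ^ 2 + (78403/22050000) * α ^ 3 + (37/22050) * α ^ 4) := by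
    have i1 : (2401/6250000) * ((((-448954681/192000000) + (78403/144000) * α ^ 1 + (69509839/144000000) * α ^ 2 + (-2119/36000) * α ^ 3 + (-1/36) * α ^ 4) * (98696/10000) + ((10836613/96000000) + (-2119/72000) * α ^ 1 + (-2283864043/88200000000) * α ^ 2 + (78403/22050000) * α ^ 3 + (37/22050) * α ^ 4)) - (227758283845593/4900000000000000)) =
        (1604488090679023/4900000000000000) * ((α - (129/50)) ^ 0 * ((68/25) - α) ^ 4) + (381661268403843/306250000000000) * ((α - (129/50)) ^ 1 * ((68/25) - α) ^ 3) + (383676966452007/245000000000000) * ((α - (129/50)) ^ 2 * ((68/25) - α) ^ 2) + (849929579121417/1225000000000000) * ((α - (129/50)) ^ 3 * ((68/25) - α) ^ 1) + (227758283845593/4900000000000000) * ((α - (129/50)) ^ 4 * ((68/25) - α) ^ 0) := by ring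
    have i2 : (0 : ℝ) ≤ (1604488090679023/4900000000000000) * ((α - (129/50)) ^ 0 * ((68/25) - α) ^ 4) + (381661268403843/306250000000000) * ((α - (129/50)) ^ 1 * ((68/25) - α) ^ 3) + (383676966452007/245000000000000) * ((α - (129/50)) ^ 2 * ((68/25) - α) ^ 2) + (849929579121417/1225000000000000) * ((α - (129/50)) ^ 3 * ((68/25) - α) ^ 1) + (227758283845593/4900000000000000) * ((α - (129/50)) ^ 4 * ((68/25) - α) ^ 0) := by positivity
    rw [← i1] at i2
    linarith [nonneg_of_mul_nonneg_right i2 (by norm_num)]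
  have b2 : 0 < ((-448954681/192000000) + (78403/144000) * α ^ 1 + (69509839/144000000) * α ^ 2 + (-2119/36000) * α ^ 3 + (-1/36) * α ^ 4) * (98697/10000) + ((10836613/96000000) + (-2119/72000) * α ^ 1 + (-2283864043/88200000000) * α ^ 2 + (78403/22050000) * α ^ 3 + (37/22050) * α ^ 4) := by
    have i1 : (2401/6250000) * ((((-448954681/192000000) + (78403/144000) * α ^ 1 + (69509839/144000000) * α ^ 2 + (-2119/36000) * α ^ 3 + (-1/36) * α ^ 4) * (98697/10000) + ((10836613/96000000) + (-2119/72000) * α ^ 1 + (-2283864043/88200000000) * α ^ 2 + (78403/22050000) * α ^ 3 + (37/22050) * α ^ 4)) - (1822083807475733/39200000000000000)) =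
        (38508107114181689/117600000000000000) * ((α - (129/50)) ^ 0 * ((68/25) - α) ^ 4) + (27479891105070847/22050000000000000) * ((α - (129/50)) ^ 1 * ((68/25) - α) ^ 3) + (27625021993328803/17640000000000000) * ((α - (129/50)) ^ 2 * ((68/25) - α) ^ 2) + (20398515625273231/29400000000000000) * ((α - (129/50)) ^ 3 * ((68/25) - α) ^ 1) + (1822083807475733/39200000000000000) * ((α - (129/50)) ^ 4 * ((68/25) - α) ^ 0) := by ring
    have i2 : (0 : ℝ) ≤ (38508107114181689/117600000000000000) * ((α - (129/50)) ^ 0 * ((68/25) - α) ^ 4) + (27479891105070847/22050000000000000) * ((α - (129/50)) ^ 1 * ((68/25) - α) ^ 3) + (27625021993328803/17640000000000000) * ((α - (129/50)) ^ 2 * ((68/25) - α) ^ 2) + (20398515625273231/29400000000000000) * ((α - (129/50)) ^ 3 * ((68/25) - α) ^ 1) + (1822083807475733/39200000000000000) * ((α - (129/50)) ^ 4 * ((68/25) - α) ^ 0) := by positivity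
    rw [← i1] at i2
    linarith [nonneg_of_mul_nonneg_right i2 (by norm_num)]
  rw [e]
  exact lin_pi _ _ b1 b2


end Pool.Agent.TH873.EW
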