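import Pool.Agent.TH873.EW.Blk2

/-!
# The pair sum of a dyadic block against a Lipschitz test function
-/

open Complex Filter Topology Set MeasureTheory
open scoped BigOperators

namespace Pool.Agent.TH873.EW

open H370 H370.AS H370.A2 H295SI
open H613SI (conv_cont conv_le)

lemma lip_cont {φ : ℝ → ℝ} {K : ℝ} (hlip : ∀ x y, |φ x - φ y| ≤ K * |x - y|) : Continuous φ := by
  have hK : 0 ≤ K := by
    have := (abs_nonneg _).trans (hlip 1 0)
    simpa using this
  have : LipschitzWith (Real.toNNReal K) φ := by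
    apply LipschitzWith.of_dist_le_mul
    intro x y
    rw [Real.dist_eq, Real.dist_eq, Real.coe_toNNReal K hK]
    exact hlip x y
  exact this.continuous

lemma PS_lin {φ h : ℝ → ℝ} (hφ : Continuous φ) (hh : Continuous h) (c A B Λ : ℝ) (hA : 1 ≤ A) :
    PS (fun β => φ β + c * h β) riemannZeta A B Λ =
      PS φ riemannZeta A B Λ + c * PS h riemannZeta A B Λ := by
  unfold PS
  have hJ : Continuous fun α : ℝ => JJ riemannZeta A B (Λ * α) :=
    (JJ_cont good_zeta (U2 := B) hA).comp (by fun_prop)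
  have e : ∫ α in (0 : ℝ)..1, (φ α + c * h α) * JJ riemannZeta A B (Λ * α) =
      (∫ α in (0 : ℝ)..1, φ α * JJ riemannZeta A B (Λ * α)) +
        c * ∫ α in (0 : ℝ)..1, h α * JJ riemannZeta A B (Λ * α) := by
    have c1 : Continuous fun α : ℝ => φ α * JJ riemannZeta A B (Λ * α) := hφ.mul hJ
    have c2 : Continuous fun α : ℝ => c * (h α * JJ riemannZeta A B (Λ * α)) :=
      (hh.mul hJ).const_mul c
    rw [← intervalIntegral.integral_const_mul, ← intervalIntegral.integral_add
      (c1.intervalIntegrable _ _) (c2.intervalIntegrable _ _)]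
    apply intervalIntegral.integral_congr
    intro α _
    simp only
    ring
  rw [e]
  ring

lemma cR_lin {φ h : ℝ → ℝ} (hφ : Continuous φ) (hh : Continuous h) (c μ : ℝ) :
    cR (fun β => φ β + c * h β) μ = cR φ μ + c * cR h μ := by
  unfold cR
  have e : ∫ α in (0 : ℝ)..1, α * (φ α + c * h α) =
      (∫ α in (0 : ℝ)..1, α * φ α) + c * ∫ α in (0 : ℝ)..1, α * h α := by
    have c1 : Continuous fun α : ℝ => α * φ α := continuous_id.mul hφ
    have c2 : Continuous fun α : ℝ => c * (α * h α) := (continuous_id.mul hh).const_mul c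
    rw [← intervalIntegral.integral_const_mul, ← intervalIntegral.integral_add
      (c1.intervalIntegrable _ _) (c2.intervalIntegrable _ _)]
    apply intervalIntegral.integral_congr
    intro α _
    ring
  rw [e]
  ring

theorem psi_two (hRH : RiemannHypothesis) {φ : ℝ → ℝ} {K : ℝ} (hK : 0 ≤ K)
    (hlip : ∀ x y, |φ x - φ y| ≤ K * |x - y|) (heven : ∀ x, φ (-x) = φ x)
    (hz : ∀ x, 1 ≤ |x| → φ x = 0) {μ ε : ℝ} (hμ : 0 < μ) (hμ1 : μ < 1) (hε : 0 < ε) :
    ∃ V0 : ℝ, 10 ≤ V0 ∧ ∀ V : ℝ, V0 ≤ V →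
    |(NN riemannZeta (V + 1) (2 * V - 1) : ℝ) - XV V| ≤ ε * XV V ∧
    |PS φ riemannZeta (V + 1) (2 * V - 1) (μ * Real.log V) - XV V * cR φ μ| ≤ ε * XV V := by
  have hcφ : Continuous φ := lip_cont hlip
  have hch : Continuous hatf := by unfold hatf; fun_prop
  have hR1 : Conv (fun β => φ β + (K + 1) * hatf β) :=
    conv_add hK (by linarith) (by linarith) hlip heven hz
  have hR2 : Conv (fun β => (fun _ : ℝ => (0 : ℝ)) β + 1 * hatf β) :=
    conv_add (φ := fun _ => 0) (K := 0) (K' := 1) le_rfl zero_le_one one_pos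
      (fun x y => by simp) (fun x => rfl) (fun x _ => rfl)
  have hK2 : 0 < K + 2 := by linarith
  obtain ⟨V1, hV1, h1⟩ := blk_two hRH hR1 hμ hμ1 (show 0 < ε / (K + 2) by positivity)
  obtain ⟨V2, hV2, h2⟩ := blk_two hRH hR2 hμ hμ1 (show 0 < ε / (K + 2) by positivity)
  refine ⟨max V1 V2, hV1.trans (le_max_left _ _), fun V hV => ?_⟩
  have hV10 : 10 ≤ V := (hV1.trans (le_max_left _ _)).trans hV
  obtain ⟨a1, a2⟩ := h1 V ((le_max_left _ _).trans hV)
  obtain ⟨b1, b2⟩ := h2 V ((le_max_right _ _).trans hV)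
  rw [PS_lin hcφ hch _ _ _ _ (by linarith), cR_lin hcφ hch] at a2
  rw [PS_lin continuous_const hch _ _ _ _ (by linarith), cR_lin continuous_const hch] at b2
  have p0 : PS (fun _ : ℝ => (0 : ℝ)) riemannZeta (V + 1) (2 * V - 1) (μ * Real.log V) = 0 := by
    unfold PS; simp
  have c0 : cR (fun _ : ℝ => (0 : ℝ)) μ = 0 := by unfold cR; simp
  rw [p0, c0] at b2
  have hX : 0 ≤ XV V := by
    unfold XV
    have : 0 ≤ Real.log V := Real.log_nonneg (by linarith)
    have h3 : 0 ≤ V - 2 := by linarith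
    positivity
  have hεK : ε / (K + 2) * (K + 2) = ε := by field_simp
  have hεK0 : 0 < ε / (K + 2) := by positivity
  constructor
  · refine a1.trans ?_
    apply mul_le_mul_of_nonneg_right _ hX
    rw [div_le_iff₀ hK2]
    nlinarith
  · have e : PS φ riemannZeta (V + 1) (2 * V - 1) (μ * Real.log V) - XV V * cR φ μ =
        (PS φ riemannZeta (V + 1) (2 * V - 1) (μ * Real.log V) +
          (K + 1) * PS hatf riemannZeta (V + 1) (2 * V - 1) (μ * Real.log V) -
          XV V * (cR φ μ + (K + 1) * cR hatf μ)) - (K + 1) *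
        (0 + 1 * PS hatf riemannZeta (V + 1) (2 * V - 1) (μ * Real.log V) -
          XV V * (0 + 1 * cR hatf μ)) := by ring
    rw [e]
    calc _ ≤ _ := abs_sub_le_add _ _
      _ ≤ ε / (K + 2) * XV V + (K + 1) * (ε / (K + 2) * XV V) := by
          rw [abs_mul, abs_of_pos (by linarith : (0 : ℝ) < K + 1)]
          gcongr
      _ = (ε / (K + 2) * (K + 2)) * XV V := by ring
      _ = _ := by rw [hεK]

end Pool.Agent.TH873.EW
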