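import Pool.Agent.TH873.EW.GM

/-!
# From the block inequality to windows at height `T`
-/

open Complex Filter Topology Set MeasureTheory
open scoped BigOperators

namespace Pool.Agent.TH873.EW

open H370 H370.AS H370.A2 H295SI

/-- the nontrivial zeros of `ζ` with ordinate in `(0, T]` -/
def zeros (T : ℝ) : Set ℂ :=
  {s : ℂ | 0 < s.re ∧ s.re < 1 ∧ 0 < s.im ∧ s.im ≤ T ∧ riemannZeta s = 0}

/-- the multiplicity of `s` as a zero of `ζ` -/
noncomputable def mult (s : ℂ) : ℕ := analyticOrderNatAt riemannZeta s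

/-- ordered pairs of zeros with `2πα / log T < γ - γ' < 2πβ / log T`, with multiplicity -/
noncomputable def NW (T α β : ℝ) : ℕ :=
  ∑ᶠ s ∈ zeros T, ∑ᶠ s' ∈ zeros T,
    if 2 * Real.pi * α / Real.log T < s.im - s'.im ∧ s.im - s'.im < 2 * Real.pi * β / Real.log T
    then mult s * mult s' else 0

lemma zeros_finite (T : ℝ) : (zeros T).Finite := H370.zeta_zeros_finite T

lemma NW_eq (T α β : ℝ) : (NW T α β : ℝ) = ∑ s ∈ (zeros_finite T).toFinset,
    ∑ s' ∈ (zeros_finite T).toFinset,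
    if 2 * Real.pi * α / Real.log T < s.im - s'.im ∧ s.im - s'.im < 2 * Real.pi * β / Real.log T
    then H343.ZSide.mz s * H343.ZSide.mz s' else 0 := by
  unfold NW
  rw [finsum_mem_eq_finite_toFinset_sum _ (zeros_finite T)]
  push_cast
  apply Finset.sum_congr rfl
  intro s _
  rw [finsum_mem_eq_finite_toFinset_sum _ (zeros_finite T)]
  push_cast
  apply Finset.sum_congr rfl
  intro s' _
  split_ifs <;> [rfl; norm_num]

lemma ZV_sub {V : ℝ} (hV : 10 ≤ V) : ZV V ⊆ (zeros_finite (2 * V)).toFinset := by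
  intro z hz
  unfold ZV H332B.Zb at hz
  rw [mem_Zf good_zeta (by linarith)] at hz
  obtain ⟨h1, h2, h3, h4, h5⟩ := hz
  rw [Set.Finite.mem_toFinset]
  exact ⟨h1, h2, by linarith, by linarith, h5⟩

lemma PP_le {V k α β α' β' : ℝ} (hV : 10 ≤ V)
    (h : ∀ d : ℝ, α < k * d → k * d < β → 2 * Real.pi * α' / Real.log (2 * V) < d ∧
      d < 2 * Real.pi * β' / Real.log (2 * V)) : PP V k α β ≤ NW (2 * V) α' β' := by
  classical
  rw [NW_eq]
  have hm : ∀ s s' : ℂ, 0 ≤ H343.ZSide.mz s * H343.ZSide.mz s' := fun s s' =>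
    mul_nonneg (mz_nonneg s) (mz_nonneg s')
  have hnn : ∀ s s' : ℂ, 0 ≤ (if 2 * Real.pi * α' / Real.log (2 * V) < s.im - s'.im ∧
      s.im - s'.im < 2 * Real.pi * β' / Real.log (2 * V)
      then H343.ZSide.mz s * H343.ZSide.mz s' else 0) := by
    intro s s'
    split_ifs <;> [exact hm s s'; exact le_rfl]
  unfold PP
  calc _ ≤ ∑ s ∈ ZV V, ∑ s' ∈ ZV V, (if 2 * Real.pi * α' / Real.log (2 * V) < s.im - s'.im ∧
      s.im - s'.im < 2 * Real.pi * β' / Real.log (2 * V)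
      then H343.ZSide.mz s * H343.ZSide.mz s' else 0) := by
        apply Finset.sum_le_sum
        intro s _
        apply Finset.sum_le_sum
        intro s' _
        by_cases hw : α < k * (s.im - s'.im) ∧ k * (s.im - s'.im) < β
        · rw [if_pos hw, if_pos (h _ hw.1 hw.2)]
        · rw [if_neg hw]
          exact hnn s s'
    _ ≤ ∑ s ∈ ZV V, ∑ s' ∈ (zeros_finite (2 * V)).toFinset,
        (if 2 * Real.pi * α' / Real.log (2 * V) < s.im - s'.im ∧
      s.im - s'.im < 2 * Real.pi * β' / Real.log (2 * V)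
      then H343.ZSide.mz s * H343.ZSide.mz s' else 0) := by
        apply Finset.sum_le_sum
        intro s _
        exact Finset.sum_le_sum_of_subset_of_nonneg (ZV_sub hV) fun s' _ _ => hnn s s'
    _ ≤ _ := Finset.sum_le_sum_of_subset_of_nonneg (ZV_sub hV) fun s _ _ =>
        Finset.sum_nonneg fun s' _ => hnn s s'

/-- windows from test functions -/
theorem win (hRH : RiemannHypothesis) {ρ : ℝ → ℝ} {K C α β β' κ : ℝ}
    (hlip : ∀ x y, |ρ x - ρ y| ≤ K * |x - y|) (hz : ∀ x, 2 ≤ x → ρ x = 0)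
    (hpos : ∀ x, 1 ≤ x → 0 ≤ ρ x) (hα : 0 ≤ α) (hβ0 : 0 < β) (hβ : β < β')
    (hr : ∀ x, 0 ≤ x → (x ≤ α ∨ β ≤ x) → tr ρ 2 x ≤ 0) (hC : 0 < C)
    (hrC : ∀ x, tr ρ 2 x ≤ C) (hκ0 : 0 ≤ κ)
    (hκ : κ < ρ 0 + 2 * (∫ t in (0 : ℝ)..1, t * ρ t) +
      2 * (∫ ξ in (1 : ℝ)..(3 / 2), (3 / 2 - ξ) * ρ ξ) - tr ρ 2 0) :
    ∃ T0 : ℝ, ∀ T : ℝ, T0 ≤ T →
      κ / (5 * C) * (T / (2 * Real.pi) * Real.log T) ≤ NW T α β' := by
  have hρc : Continuous ρ := lip_cont hlip
  set r0 : ℝ := tr ρ 2 0 with hr0d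
  set I1 : ℝ := ∫ t in (0 : ℝ)..1, t * ρ t with hI1
  set I3 : ℝ := ∫ ξ in (1 : ℝ)..(3 / 2), (3 / 2 - ξ) * ρ ξ with hI3
  have hK : 0 ≤ K := by
    have := (abs_nonneg _).trans (hlip 1 0)
    simpa using this
  -- choice of `s`
  have hev : ∀ᶠ s in 𝓝[<] (1 : ℝ), (κ < ρ 0 + 2 * s ^ 2 * I1 + 2 * (I3 - K * (s⁻¹ - 1)) - s * r0 ∧
      β < β' * s) ∧ 0 < s := by
    have h1 : ContinuousAt (fun s : ℝ => ρ 0 + 2 * s ^ 2 * I1 + 2 * (I3 - K * (s⁻¹ - 1)) - s * r0)
        1 := by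
      have : ContinuousAt (fun s : ℝ => s⁻¹) 1 := continuousAt_inv₀ one_ne_zero
      fun_prop
    have h2 : κ < ρ 0 + 2 * (1 : ℝ) ^ 2 * I1 + 2 * (I3 - K * ((1 : ℝ)⁻¹ - 1)) - 1 * r0 := by
      simp only [one_pow, mul_one, inv_one, sub_self, mul_zero, sub_zero, one_mul]
      exact hκ
    have h3 : ContinuousAt (fun s : ℝ => β' * s) 1 := by fun_prop
    have e1 := h1.eventually (lt_mem_nhds h2)
    have e2 := h3.eventually (lt_mem_nhds (show β < β' * 1 by linarith))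
    have e3 : ∀ᶠ s in 𝓝 (1 : ℝ), 0 < s := lt_mem_nhds one_pos
    exact nhdsWithin_le_nhds ((e1.and e2).and e3)
  have hlt : ∀ᶠ s in 𝓝[<] (1 : ℝ), s < 1 := self_mem_nhdsWithin
  obtain ⟨s, ⟨⟨hs2, hs3⟩, hs0⟩, hs1⟩ := (hev.and hlt).exists
  have hcρ : Continuous fun ξ : ℝ => (3 / 2 - ξ) * ρ (ξ / s) :=
    (by fun_prop : Continuous fun ξ : ℝ => 3 / 2 - ξ).mul (hρc.comp (by fun_prop))
  have hcρ' : Continuous fun ξ : ℝ => (3 / 2 - ξ) * ρ ξ := by fun_prop
  have hsinv : 0 ≤ s⁻¹ - 1 := by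
    have := (one_le_inv₀ hs0).2 hs1.le
    linarith
  have hI3s : I3 - K * (s⁻¹ - 1) ≤ ∫ ξ in (1 : ℝ)..(3 / 2), (3 / 2 - ξ) * ρ (ξ / s) := by
    have b1 : ∀ ξ ∈ Set.Icc (1 : ℝ) (3 / 2), (3 / 2 - ξ) * ρ ξ - K * (s⁻¹ - 1) ≤
        (3 / 2 - ξ) * ρ (ξ / s) := by
      intro ξ hξ
      have h1 := hlip ξ (ξ / s)
      have h2 : |ξ - ξ / s| ≤ 3 / 2 * (s⁻¹ - 1) := by
        have e : ξ - ξ / s = -(ξ * (s⁻¹ - 1)) := by field_simp; ring
        rw [e, abs_neg, abs_of_nonneg (mul_nonneg (by linarith [hξ.1]) hsinv)]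
        exact mul_le_mul_of_nonneg_right hξ.2 hsinv
      have h3 : ρ ξ - ρ (ξ / s) ≤ K * (3 / 2 * (s⁻¹ - 1)) :=
        (le_abs_self _).trans (h1.trans (mul_le_mul_of_nonneg_left h2 hK))
      have h4 : 0 ≤ 3 / 2 - ξ := by linarith [hξ.2]
      have h5 : 3 / 2 - ξ ≤ 1 / 2 := by linarith [hξ.1]
      have h6 : 0 ≤ K * (3 / 2 * (s⁻¹ - 1)) := by positivity
      have h7 : (3 / 2 - ξ) * (ρ ξ - ρ (ξ / s)) ≤ (1 / 2) * (K * (3 / 2 * (s⁻¹ - 1))) :=
        (mul_le_mul_of_nonneg_left h3 h4).trans (mul_le_mul_of_nonneg_right h5 h6)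
      have h8 : 0 ≤ K * (s⁻¹ - 1) := by positivity
      have h9 : (3 / 2 - ξ) * (ρ ξ - ρ (ξ / s)) = (3 / 2 - ξ) * ρ ξ - (3 / 2 - ξ) * ρ (ξ / s) := by
        ring
      have h10 : (1 / 2) * (K * (3 / 2 * (s⁻¹ - 1))) = 3 / 4 * (K * (s⁻¹ - 1)) := by ring
      linarith
    have b2 : ∫ ξ in (1 : ℝ)..(3 / 2), ((3 / 2 - ξ) * ρ ξ - K * (s⁻¹ - 1)) =
        I3 - 1 / 2 * (K * (s⁻¹ - 1)) := by
      rw [intervalIntegral.integral_sub (hcρ'.intervalIntegrable _ _)
        (continuous_const.intervalIntegrable _ _), intervalIntegral.integral_const, smul_eq_mul]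
      ring
    have b3 : ∫ ξ in (1 : ℝ)..(3 / 2), ((3 / 2 - ξ) * ρ ξ - K * (s⁻¹ - 1)) ≤
        ∫ ξ in (1 : ℝ)..(3 / 2), (3 / 2 - ξ) * ρ (ξ / s) :=
      intervalIntegral.integral_mono_on (by norm_num)
        ((hcρ'.sub continuous_const).intervalIntegrable _ _) (hcρ.intervalIntegrable _ _) b1
    have h8 : 0 ≤ K * (s⁻¹ - 1) := by positivity
    linarith
  have hκs : κ < ρ 0 + 2 * s ^ 2 * I1 +
      2 * (∫ ξ in (1 : ℝ)..(3 / 2), (3 / 2 - ξ) * ρ (ξ / s)) - s * r0 := by linarith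
  obtain ⟨V0, hV0, hV⟩ := block hRH hlip hz hpos hα hr hC.le hrC hs0 hs1 hκs
  -- eventual facts
  have ev : ∀ᶠ T : ℝ in atTop, β * Real.log 2 / (β' * s - β) ≤ Real.log (T / 2) ∧
      5 * Real.log 2 ≤ Real.log T := by
    have h1 : Tendsto (fun T : ℝ => Real.log (T / 2)) atTop atTop :=
      Real.tendsto_log_atTop.comp (tendsto_id.atTop_div_const two_pos)
    exact (h1.eventually_ge_atTop _).and (Real.tendsto_log_atTop.eventually_ge_atTop _)
  obtain ⟨T1, hT1⟩ := ev.exists_forall_of_atTop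
  refine ⟨max (2 * V0) T1, fun T hT => ?_⟩
  obtain ⟨e1, e2⟩ := hT1 T ((le_max_right _ _).trans hT)
  have hT2 : 2 * V0 ≤ T := (le_max_left _ _).trans hT
  obtain ⟨V, rfl⟩ : ∃ V, T = 2 * V := ⟨T / 2, by ring⟩
  rw [show 2 * V / 2 = V by ring] at e1
  have hVV : V0 ≤ V := by linarith
  have hV10 : 10 ≤ V := hV0.trans hVV
  have hVpos : 0 < V := by linarith
  have hlogV : 0 < Real.log V := Real.log_pos (by linarith)
  have hlog2 : 0 < Real.log 2 := Real.log_pos (by norm_num)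
  have hlogT : Real.log (2 * V) = Real.log 2 + Real.log V :=
    Real.log_mul (by norm_num) hVpos.ne'
  have hlogTpos : 0 < Real.log (2 * V) := by rw [hlogT]; linarith
  have hpi := Real.pi_pos
  have h1 := hV V hVV
  have h2 : PP V (s * Real.log V / (2 * Real.pi)) α β ≤ NW (2 * V) α β' := by
    apply PP_le hV10
    intro d hd1 hd2
    have hk : 0 < s * Real.log V := by positivity
    have hd1' : α * (2 * Real.pi) < s * Real.log V * d := by
      have e : s * Real.log V / (2 * Real.pi) * d = (s * Real.log V * d) / (2 * Real.pi) := by ring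
      rw [e, lt_div_iff₀ (by positivity)] at hd1
      exact hd1
    have hd2' : s * Real.log V * d < β * (2 * Real.pi) := by
      have e : s * Real.log V / (2 * Real.pi) * d = (s * Real.log V * d) / (2 * Real.pi) := by ring
      rw [e, div_lt_iff₀ (by positivity)] at hd2
      exact hd2
    have hdpos : 0 < d := by
      by_contra hcon
      rw [not_lt] at hcon
      have : s * Real.log V * d ≤ 0 := mul_nonpos_of_nonneg_of_nonpos hk.le hcon
      have : 0 ≤ α * (2 * Real.pi) := by positivity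
      linarith
    constructor
    · rw [div_lt_iff₀ hlogTpos]
      have h3 : s * Real.log V ≤ Real.log (2 * V) := by
        have : s * Real.log V ≤ 1 * Real.log V := mul_le_mul_of_nonneg_right hs1.le hlogV.le
        rw [hlogT]; linarith
      have h4 : s * Real.log V * d ≤ Real.log (2 * V) * d := mul_le_mul_of_nonneg_right h3 hdpos.le
      linarith
    · rw [lt_div_iff₀ hlogTpos]
      have h5 : 0 < β' * s - β := by linarith
      rw [div_le_iff₀ h5] at e1
      have h6 : β * Real.log (2 * V) ≤ β' * (s * Real.log V) := by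
        rw [hlogT]
        nlinarith
      -- d * log(2V) * (s log V) < β 2π log (2V) ≤ 2π β' s log V
      have h7 : d * Real.log (2 * V) * (s * Real.log V) <
          2 * Real.pi * β' * (s * Real.log V) := by
        calc d * Real.log (2 * V) * (s * Real.log V) =
            (s * Real.log V * d) * Real.log (2 * V) := by ring
          _ < (β * (2 * Real.pi)) * Real.log (2 * V) := mul_lt_mul_of_pos_right hd2' hlogTpos
          _ = 2 * Real.pi * (β * Real.log (2 * V)) := by ring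
          _ ≤ 2 * Real.pi * (β' * (s * Real.log V)) := by gcongr
          _ = _ := by ring
      exact lt_of_mul_lt_mul_right h7 hk.le
  have h3 : κ * H332B.X V ≤ 2 * C * (NW (2 * V) α β' : ℝ) :=
    h1.trans (mul_le_mul_of_nonneg_left h2 (by positivity))
  have h4 : 2 / 5 * (2 * V / (2 * Real.pi) * Real.log (2 * V)) ≤ H332B.X V := by
    unfold H332B.X
    have e : 2 / 5 * (2 * V / (2 * Real.pi) * Real.log (2 * V)) =
        (V / (2 * Real.pi)) * (4 / 5 * Real.log (2 * V)) := by ring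
    have e' : V * Real.log V / (2 * Real.pi) = (V / (2 * Real.pi)) * Real.log V := by ring
    rw [e, e']
    apply mul_le_mul_of_nonneg_left _ (by positivity)
    rw [hlogT] at e2 ⊢
    linarith
  have h5 := mul_le_mul_of_nonneg_left h4 hκ0
  rw [div_mul_eq_mul_div, div_le_iff₀ (by positivity)]
  linarith

end Pool.Agent.TH873.EW
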